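import Mathlib

/-! The ring of integers `Z[t]`, `t ^ 3 = 2`: it is a principal ideal domain, and every unit of
norm one is a square or `t - 1` times a square. -/

namespace Pool.Agent.Lib.MP_ab8df0_nt

@[ext] structure Z3 where
  a : ℤ
  b : ℤ
  c : ℤ

namespace Z3

instance : Zero Z3 := ⟨⟨0, 0, 0⟩⟩
instance : One Z3 := ⟨⟨1, 0, 0⟩⟩
instance : Add Z3 := ⟨fun x y => ⟨x.a + y.a, x.b + y.b, x.c + y.c⟩⟩
instance : Neg Z3 := ⟨fun x => ⟨-x.a, -x.b, -x.c⟩⟩
instance : Mul Z3 := ⟨fun x y => ⟨x.a * y.a + 2 * (x.b * y.c + x.c * y.b),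
  x.a * y.b + x.b * y.a + 2 * x.c * y.c, x.a * y.c + x.b * y.b + x.c * y.a⟩⟩

@[simp] lemma zero_a : (0 : Z3).a = 0 := rfl
@[simp] lemma zero_b : (0 : Z3).b = 0 := rfl
@[simp] lemma zero_c : (0 : Z3).c = 0 := rfl
@[simp] lemma one_a : (1 : Z3).a = 1 := rfl
@[simp] lemma one_b : (1 : Z3).b = 0 := rfl
@[simp] lemma one_c : (1 : Z3).c = 0 := rfl
@[simp] lemma add_a (x y : Z3) : (x + y).a = x.a + y.a := rfl
@[simp] lemma add_b (x y : Z3) : (x + y).b = x.b + y.b := rfl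
@[simp] lemma add_c (x y : Z3) : (x + y).c = x.c + y.c := rfl
@[simp] lemma neg_a (x : Z3) : (-x).a = -x.a := rfl
@[simp] lemma neg_b (x : Z3) : (-x).b = -x.b := rfl
@[simp] lemma neg_c (x : Z3) : (-x).c = -x.c := rfl
@[simp] lemma mul_a (x y : Z3) : (x * y).a = x.a * y.a + 2 * (x.b * y.c + x.c * y.b) := rfl
@[simp] lemma mul_b (x y : Z3) : (x * y).b = x.a * y.b + x.b * y.a + 2 * x.c * y.c := rfl
@[simp] lemma mul_c (x y : Z3) : (x * y).c = x.a * y.c + x.b * y.b + x.c * y.a := rfl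

instance : CommRing Z3 := CommRing.ofMinimalAxioms
  (by intro x y z; ext <;> simp <;> ring) (by intro x; ext <;> simp)
  (by intro x; ext <;> simp) (by intro x y z; ext <;> simp <;> ring)
  (by intro x y; ext <;> simp <;> ring) (by intro x; ext <;> simp)
  (by intro x y z; ext <;> simp <;> ring)

@[simp] lemma sub_a (x y : Z3) : (x - y).a = x.a - y.a := by simp [sub_eq_add_neg]
@[simp] lemma sub_b (x y : Z3) : (x - y).b = x.b - y.b := by simp [sub_eq_add_neg]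
@[simp] lemma sub_c (x y : Z3) : (x - y).c = x.c - y.c := by simp [sub_eq_add_neg]

/-- the norm -/
def N (x : Z3) : ℤ := x.a ^ 3 + 2 * x.b ^ 3 + 4 * x.c ^ 3 - 6 * x.a * x.b * x.c

/-- the product of the two other conjugates -/
def adj (x : Z3) : Z3 := ⟨x.a ^ 2 - 2 * x.b * x.c, 2 * x.c ^ 2 - x.a * x.b, x.b ^ 2 - x.a * x.c⟩

lemma N_mul (x y : Z3) : N (x * y) = N x * N y := by simp only [N, mul_a, mul_b, mul_c]; ring
lemma N_one : N 1 = 1 := by simp [N]
lemma N_neg (x : Z3) : N (-x) = -N x := by simp only [N, neg_a, neg_b, neg_c]; ring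
lemma mul_adj (x : Z3) : x * adj x = ⟨N x, 0, 0⟩ := by ext <;> simp [N, adj] <;> ring

lemma N_eq_zero : ∀ (n : ℕ) (x : Z3), x.a.natAbs + x.b.natAbs + x.c.natAbs ≤ n → N x = 0 →
    x = 0 := by
  intro n
  induction n with
  | zero => intro x h _; ext <;> simp <;> omega
  | succ n ih =>
    rintro ⟨a, b, c⟩ h h0
    simp only [N] at h h0
    have ev : ∀ u : ℤ, 2 ∣ u ^ 3 → 2 ∣ u := fun u hu => Int.prime_two.dvd_of_dvd_pow hu
    obtain ⟨a, rfl⟩ := ev a ⟨-(b ^ 3 + 2 * c ^ 3 - 3 * a * b * c), by linear_combination h0⟩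
    obtain ⟨b, rfl⟩ := ev b ⟨-(2 * a ^ 3 + c ^ 3 - 3 * a * b * c), by linarith⟩
    obtain ⟨c, rfl⟩ := ev c ⟨-(a ^ 3 + 2 * b ^ 3 - 3 * a * b * c), by linarith⟩
    by_cases hz : a = 0 ∧ b = 0 ∧ c = 0
    · obtain ⟨rfl, rfl, rfl⟩ := hz; ext <;> simp
    · have := ih ⟨a, b, c⟩ (by simp only; omega) (by simp only [N]; linarith)
      exact absurd ⟨congrArg Z3.a this, congrArg Z3.b this, congrArg Z3.c this⟩ hz

lemma N_ne_zero {x : Z3} (h : x ≠ 0) : N x ≠ 0 := fun h0 => h (N_eq_zero _ x le_rfl h0)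

instance : Nontrivial Z3 := ⟨⟨0, 1, fun h => by simpa using congrArg Z3.a h⟩⟩

instance : NoZeroDivisors Z3 := ⟨fun {x y} h => by
  by_contra hc
  push Not at hc
  have := mul_ne_zero (N_ne_zero hc.1) (N_ne_zero hc.2)
  rw [← N_mul, h] at this
  exact this (by simp [N])⟩

instance : IsDomain Z3 := NoZeroDivisors.to_isDomain _

/-- the norm form -/
def F (a b c : ℚ) : ℚ := a ^ 3 + 2 * b ^ 3 + 4 * c ^ 3 - 6 * a * b * c

lemma chord {x l u : ℚ} (h0 : 0 ≤ l) (h1 : l ≤ x) (h2 : x ≤ u) :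
    x ^ 3 ≤ (l ^ 2 + l * u + u ^ 2) * x - l * u * (l + u) := by
  have : 0 ≤ (x - l) * (u - x) * (x + l + u) :=
    mul_nonneg (mul_nonneg (by linarith) (by linarith)) (by linarith)
  nlinarith

lemma box {a b c la ua lb ub lc uc : ℚ} (ha : 0 ≤ la) (hb : 0 ≤ lb) (hc : 0 ≤ lc)
    (a1 : la ≤ a) (a2 : a ≤ ua) (b1 : lb ≤ b) (b2 : b ≤ ub) (c1 : lc ≤ c) (c2 : c ≤ uc) :
    a ^ 3 ≤ (la ^ 2 + la * ua + ua ^ 2) * a - la * ua * (la + ua) ∧
    b ^ 3 ≤ (lb ^ 2 + lb * ub + ub ^ 2) * b - lb * ub * (lb + ub) ∧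
    c ^ 3 ≤ (lc ^ 2 + lc * uc + uc ^ 2) * c - lc * uc * (lc + uc) ∧
    0 ≤ (a - la) * (b - lb) * (c - lc) ∧ 0 ≤ (a - la) * (b - lb) * (uc - c) ∧
    0 ≤ (a - la) * (ub - b) * (c - lc) ∧ 0 ≤ (a - la) * (ub - b) * (uc - c) ∧
    0 ≤ (ua - a) * (b - lb) * (c - lc) ∧ 0 ≤ (ua - a) * (b - lb) * (uc - c) ∧
    0 ≤ (ua - a) * (ub - b) * (c - lc) ∧ 0 ≤ (ua - a) * (ub - b) * (uc - c) := by
  have := sub_nonneg.2 a1; have := sub_nonneg.2 a2; have := sub_nonneg.2 b1
  have := sub_nonneg.2 b2; have := sub_nonneg.2 c1; have := sub_nonneg.2 c2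
  refine ⟨chord ha a1 a2, chord hb b1 b2, chord hc c1 c2, ?_, ?_, ?_, ?_, ?_, ?_, ?_, ?_⟩ <;>
    positivity

lemma amgm {a b c : ℚ} (ha : 0 ≤ a) (hb : 0 ≤ b) (hc : 0 ≤ c) (a2 : a ≤ 1)
    (h : b * c ≤ 1 / 4 ∨ a * c ≤ 1 / 4) : -1 < F a b c := by
  unfold F
  have := pow_nonneg ha 3; have := pow_nonneg hb 3; have := pow_nonneg hc 3
  rcases h with h | h
  · have : a * (b * c) ≤ a * (1 / 4) := mul_le_mul_of_nonneg_left h ha
    nlinarith [mul_nonneg ha (sq_nonneg (a - 7 / 10))]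
  · have : b * (a * c) ≤ b * (1 / 4) := mul_le_mul_of_nonneg_left h hb
    nlinarith [mul_nonneg hb (sq_nonneg (b - 1 / 2))]

lemma small_pos {a b c : ℚ} (a1 : -(1 / 2) ≤ a) (a2 : a ≤ 1 / 2) (b1 : -(1 / 2) ≤ b)
    (b2 : b ≤ 1 / 2) (c1 : 0 ≤ c) (c2 : c ≤ 1 / 2) :
    |F a b c| < 1 ∨ |F (a + 1) b c| < 1 ∨ |F a (b + 1) c| < 1 := by
  have cube : ∀ x u : ℚ, 0 ≤ x → x ≤ u → 0 ≤ x ^ 3 ∧ x ^ 3 ≤ u ^ 3 := fun x u h1 h2 =>
    ⟨by positivity, pow_le_pow_left₀ h1 h2 3⟩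
  have tri : ∀ x y z u v w : ℚ, 0 ≤ x → x ≤ u → 0 ≤ y → y ≤ v → 0 ≤ z → z ≤ w →
      0 ≤ x * y * z ∧ x * y * z ≤ u * v * w := fun x y z u v w h1 h2 h3 h4 h5 h6 =>
    ⟨by positivity, mul_le_mul (mul_le_mul h2 h4 h3 (h1.trans h2)) h6 h5
      (mul_nonneg (h1.trans h2) (h3.trans h4))⟩
  have hc := cube c _ c1 c2
  rcases le_total 0 a with ha | ha <;> rcases le_total 0 b with hb | hb
  · left
    have := cube a _ ha a2; have := cube b _ hb b2; have := tri a b c _ _ _ ha a2 hb b2 c1 c2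
    rw [abs_lt]; unfold F; constructor <;> nlinarith
  · have h1 := cube a _ ha a2; have h2 := cube (-b) (1 / 2) (by linarith) (by linarith)
    have h3 := tri a (-b) c _ (1 / 2) _ ha a2 (by linarith) (by linarith) c1 c2
    rcases le_total a (1 / 4) with h | h
    · left
      have := cube a _ ha h; have := tri a (-b) c _ (1 / 2) _ ha h (by linarith) (by linarith) c1 c2
      rw [abs_lt]; unfold F; constructor <;> nlinarith
    rcases le_total (-b) (1 / 5) with h' | h'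
    · left
      have := tri a (-b) c _ _ _ ha a2 (by linarith) h' c1 c2
      rw [abs_lt]; unfold F; constructor <;> nlinarith
    rcases le_total c (1 / 4) with h'' | h''
    · left
      have := cube c _ c1 h''
      have := tri a (-b) c _ (1 / 2) _ ha a2 (by linarith) (by linarith) c1 h''
      rw [abs_lt]; unfold F; constructor <;> nlinarith
    rcases le_total (-b) (1 / 4) with h4 | h4
    · left
      have := tri a (-b) c _ _ _ ha a2 (by linarith) h4 c1 c2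
      have := cube (1 / 5) (-b) (by norm_num) h'
      rw [abs_lt]; unfold F; constructor <;> nlinarith
    right; right
    rw [abs_lt]
    refine ⟨amgm ha (by linarith) c1 (by linarith) (Or.inr (by nlinarith)), ?_⟩
    obtain ⟨e1, e2, e3, e4, e5, e6, e7, e8, e9, e10, e11⟩ := box (la := 1 / 4) (ua := 1 / 2)
      (lb := 1 / 2) (ub := 3 / 4) (lc := 1 / 4) (uc := 1 / 2) (b := b + 1) (by norm_num)
      (by norm_num) (by norm_num) h a2 (by linarith) (by linarith) h'' c2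
    unfold F
    linarith
  · have h1 := cube (-a) (1 / 2) (by linarith) (by linarith); have h2 := cube b _ hb b2
    have h3 := tri (-a) b c (1 / 2) _ _ (by linarith) (by linarith) hb b2 c1 c2
    rcases le_total b (1 / 4) with h | h
    · left
      have := cube b _ hb h
      have := tri (-a) b c (1 / 2) _ _ (by linarith) (by linarith) hb h c1 c2
      rw [abs_lt]; unfold F; constructor <;> nlinarith
    rcases le_total c (1 / 3) with h'' | h''
    · left
      have := cube c _ c1 h''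
      have := tri (-a) b c (1 / 2) _ _ (by linarith) (by linarith) hb b2 c1 h''
      rw [abs_lt]; unfold F; constructor <;> nlinarith
    right; left
    rw [abs_lt]
    refine ⟨amgm (by linarith) hb c1 (by linarith) (Or.inl (by nlinarith)), ?_⟩
    obtain ⟨e1, e2, e3, e4, e5, e6, e7, e8, e9, e10, e11⟩ := box (la := 1 / 2) (ua := 1)
      (lb := 1 / 4) (ub := 1 / 2) (lc := 1 / 3) (uc := 1 / 2) (a := a + 1) (by norm_num)
      (by norm_num) (by norm_num) (by linarith) (by linarith) h b2 h'' c2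
    unfold F
    linarith
  · left
    have h1 := cube (-a) (1 / 2) (by linarith) (by linarith)
    have h2 := cube (-b) (1 / 2) (by linarith) (by linarith)
    have h3 := tri (-a) (-b) c (1 / 2) (1 / 2) c (by linarith) (by linarith) (by linarith)
      (by linarith) c1 le_rfl
    have h4 := mul_nonneg c1 (sq_nonneg (c - 1 / 3))
    rw [abs_lt]; unfold F; constructor <;> nlinarith

lemma F_neg (a b c : ℚ) : F (-a) (-b) (-c) = -F a b c := by unfold F; ring

lemma exists_small (a b c : ℚ) : ∃ p q r : ℤ, |F (a - p) (b - q) (c - r)| < 1 := by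
  have h1 := abs_le.1 (abs_sub_round a)
  have h2 := abs_le.1 (abs_sub_round b)
  have h3 := abs_le.1 (abs_sub_round c)
  rcases le_total 0 (c - round c) with h | h
  · rcases small_pos h1.1 h1.2 h2.1 h2.2 h h3.2 with h | h | h
    · exact ⟨_, _, _, h⟩
    · exact ⟨round a - 1, round b, round c, by convert h using 3; push_cast; ring⟩
    · exact ⟨round a, round b - 1, round c, by convert h using 3; push_cast; ring⟩
  · rcases small_pos (a := -(a - round a)) (b := -(b - round b)) (c := -(c - round c))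
      (by linarith) (by linarith) (by linarith) (by linarith) (by linarith) (by linarith)
      with h | h | h
    · exact ⟨round a, round b, round c, by rwa [F_neg, abs_neg] at h⟩
    · refine ⟨round a + 1, round b, round c, ?_⟩
      rw [← abs_neg, ← F_neg]; convert h using 3; push_cast; ring
    · refine ⟨round a, round b + 1, round c, ?_⟩
      rw [← abs_neg, ← F_neg]; convert h using 3; push_cast; ring

lemma exists_quot (x y : Z3) (hy : y ≠ 0) : ∃ q : Z3, (N (x - y * q)).natAbs < (N y).natAbs := by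
  have hn : (N y : ℚ) ≠ 0 := by exact_mod_cast N_ne_zero hy
  obtain ⟨p, q, r, h⟩ := exists_small ((x * adj y).a / N y) ((x * adj y).b / N y)
    ((x * adj y).c / N y)
  refine ⟨⟨p, q, r⟩, ?_⟩
  have e : (N (x - y * ⟨p, q, r⟩) : ℚ) = N y * F ((x * adj y).a / N y - p)
      ((x * adj y).b / N y - q) ((x * adj y).c / N y - r) := by
    unfold F
    field_simp
    simp only [N, adj, mul_a, mul_b, mul_c, sub_a, sub_b, sub_c]
    push_cast
    ring
  have : |(N (x - y * ⟨p, q, r⟩) : ℚ)| < |(N y : ℚ)| := by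
    rw [e, abs_mul]
    exact mul_lt_of_lt_one_right (abs_pos.2 hn) h
  have h2 : |N (x - y * ⟨p, q, r⟩)| < |N y| := by exact_mod_cast this
  rw [Int.abs_eq_natAbs, Int.abs_eq_natAbs] at h2
  exact_mod_cast h2

instance : IsPrincipalIdealRing Z3 := ⟨fun I => by
  classical
  by_cases hI : I = ⊥
  · exact ⟨0, by simp [hI]⟩
  have hex : ∃ n : ℕ, ∃ y ∈ I, y ≠ 0 ∧ (N y).natAbs = n := by
    obtain ⟨y, hy, h0⟩ := Submodule.exists_mem_ne_zero_of_ne_bot hI
    exact ⟨_, y, hy, h0, rfl⟩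
  obtain ⟨y, hy, h0, hn⟩ := Nat.find_spec hex
  refine ⟨y, le_antisymm (fun x hx => ?_) ((Ideal.span_singleton_le_iff_mem I).2 hy)⟩
  obtain ⟨q, hq⟩ := exists_quot x y h0
  have : x - y * q = 0 := by
    by_contra hne
    have := Nat.find_min' hex ⟨x - y * q, I.sub_mem hx (I.mul_mem_right q hy), hne, rfl⟩
    omega
  exact Ideal.mem_span_singleton.2 ⟨q, by linear_combination this⟩⟩

/-- the fundamental unit `t - 1` -/
def eps : Z3 := ⟨-1, 1, 0⟩

/-- the real embedding -/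
def emb (t : ℝ) (ht : t ^ 3 = 2) : Z3 →+* ℝ where
  toFun x := x.a + x.b * t + x.c * t ^ 2
  map_one' := by simp
  map_zero' := by simp
  map_add' x y := by simp only [add_a, add_b, add_c]; push_cast; ring
  map_mul' x y := by
    simp only [mul_a, mul_b, mul_c]; push_cast
    linear_combination (-(x.b * y.c + x.c * y.b : ℝ) - x.c * y.c * t) * ht

lemma emb_apply (t : ℝ) (ht : t ^ 3 = 2) (x : Z3) :
    emb t ht x = x.a + x.b * t + x.c * t ^ 2 := rfl

lemma exists_root : ∃ t : ℝ, t ^ 3 = 2 ∧ 1.259 < t ∧ t < 1.26 := by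
  have h : ((2 : ℝ) ^ ((3 : ℕ)⁻¹ : ℝ)) ^ 3 = 2 := Real.rpow_inv_natCast_pow (by norm_num) (by norm_num)
  have h0 : 0 ≤ (2 : ℝ) ^ ((3 : ℕ)⁻¹ : ℝ) := by positivity
  refine ⟨_, h, ?_, ?_⟩
  · exact lt_of_pow_lt_pow_left₀ 3 h0 (by rw [h]; norm_num)
  · exact lt_of_pow_lt_pow_left₀ 3 (by norm_num) (by rw [h]; norm_num)

lemma emb_adj (t : ℝ) (ht : t ^ 3 = 2) (x : Z3) :
    emb t ht x * emb t ht (adj x) = N x ∧ 0 ≤ emb t ht (adj x) ∧
    emb t ht x ^ 2 + 2 * emb t ht (adj x) = 3 * (x.a ^ 2 + t ^ 2 * x.b ^ 2 + 2 * t * x.c ^ 2) := by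
  refine ⟨by rw [← map_mul, mul_adj, emb_apply]; simp, ?_, ?_⟩
  · have : 2 * emb t ht (adj x) = (x.a - x.b * t) ^ 2 + (x.b * t - x.c * t ^ 2) ^ 2
        + (x.a - x.c * t ^ 2) ^ 2 := by
      simp only [emb_apply, adj]; push_cast
      linear_combination (2 * x.b * x.c - 2 * x.c ^ 2 * t : ℝ) * ht
    nlinarith [sq_nonneg (x.a - x.b * t : ℝ), sq_nonneg (x.b * t - x.c * t ^ 2 : ℝ),
      sq_nonneg (x.a - x.c * t ^ 2 : ℝ)]
  · simp only [emb_apply, adj]; push_cast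
    linear_combination (2 * x.b * x.c + x.c ^ 2 * t : ℝ) * ht

lemma small_units (w : Z3) (hNw : N w = 1) (a1 : w.a ^ 2 < 9) (b1 : w.b ^ 2 < 4)
    (c1 : w.c ^ 2 < 4) : w = 1 ∨ w = eps ∨ w = ⟨1, 1, 1⟩ := by
  obtain ⟨a, b, c⟩ := w
  simp only [N] at hNw a1 b1 c1
  have h1 : -3 < a := by nlinarith
  have h2 : a < 3 := by nlinarith
  have h3 : -2 < b := by nlinarith
  have h4 : b < 2 := by nlinarith
  have h5 : -2 < c := by nlinarith
  have h6 : c < 2 := by nlinarith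
  interval_cases a <;> interval_cases b <;> interval_cases c <;>
    first | omega | exact Or.inl rfl | exact Or.inr (Or.inl rfl) | exact Or.inr (Or.inr rfl)

lemma unit_cases (u : Z3) (hu : N u = 1) : ∃ v : Z3, u = v ^ 2 ∨ u = eps * v ^ 2 := by
  obtain ⟨t, ht, t1, t2⟩ := exists_root
  let e : Z3ˣ := ⟨eps, ⟨1, 1, 1⟩, by ext <;> simp [eps], by ext <;> simp [eps]⟩
  set σ := emb t ht with hσ
  set H : ℝ := σ ⟨1, 1, 1⟩ with hH
  have hH' : H = 1 + t + t ^ 2 := by rw [hH, hσ, emb_apply]; simp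
  have H1 : 1 < H := by rw [hH']; nlinarith
  have H2 : H < 3.85 := by rw [hH']; nlinarith
  have pos : ∀ w : Z3, N w = 1 → 0 < σ w := fun w hw => by
    obtain ⟨h1, h2, -⟩ := emb_adj t ht w
    rw [hw] at h1
    by_contra hc
    have := mul_nonpos_of_nonpos_of_nonneg (not_lt.1 hc) h2
    rw [hσ] at this; rw [h1] at this; norm_num at this
  have hz : ∀ n : ℤ, σ ((e⁻¹ ^ n : Z3ˣ) : Z3) = H ^ n := fun n => by
    have := congrArg Units.val (map_zpow (Units.map σ.toMonoidHom) e⁻¹ n)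
    rw [Units.val_zpow_eq_zpow_val] at this
    exact this
  obtain ⟨n, h1, h2⟩ := exists_mem_Ico_zpow (x := σ u * H) (y := H ^ 2)
    (mul_pos (pos u hu) (by linarith)) (by nlinarith)
  set g : Z3ˣ := e⁻¹ ^ n with hg
  have hN : N ((g⁻¹ : Z3ˣ) : Z3) ^ 2 = 1 := by
    have : N ((g⁻¹ : Z3ˣ) : Z3) * N (g : Z3) = 1 := by rw [← N_mul, Units.inv_mul, N_one]
    rcases Int.eq_one_or_neg_one_of_mul_eq_one this with h | h <;> rw [h] <;> norm_num
  set w : Z3 := u * ((g⁻¹ : Z3ˣ) : Z3) ^ 2 with hw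
  have huw : u = w * (g : Z3) ^ 2 := by
    rw [hw, mul_assoc, ← mul_pow, Units.inv_mul]; simp
  have hNw : N w = 1 := by rw [hw, pow_two, N_mul, N_mul, hu, ← pow_two, hN]; norm_num
  have hs : σ u = σ w * (H ^ 2) ^ n := by
    rw [huw, map_mul, map_pow, hz n, ← zpow_natCast, ← zpow_natCast, ← zpow_mul, ← zpow_mul,
      mul_comm n]
  have hp : 0 < (H ^ 2) ^ n := zpow_pos (by positivity) n
  rw [hs] at h1 h2
  rw [zpow_add_one₀ (by positivity)] at h2
  have r1 : 1 ≤ σ w * H := by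
    by_contra hc
    nlinarith [mul_pos hp (sub_pos.2 (not_le.1 hc))]
  have r2 : σ w < H := by
    by_contra hc
    nlinarith [mul_nonneg (mul_pos hp (by linarith : 0 < H)).le (sub_nonneg.2 (not_lt.1 hc))]
  obtain ⟨q1, q2, q3⟩ := emb_adj t ht w
  rw [hNw] at q1
  rw [← hσ] at q1 q2 q3
  have r0 := pos w hNw
  have hb : (w.a : ℝ) ^ 2 + t ^ 2 * w.b ^ 2 + 2 * t * w.c ^ 2 < 5.7 := by
    push_cast at q1
    rcases le_total 1 (σ w) with h | h
    · have : σ (adj w) ≤ 1 := by nlinarith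
      nlinarith
    · have : σ (adj w) ≤ H := by nlinarith
      nlinarith
  have t3 : 1.58 < t ^ 2 := by nlinarith
  have s1 := sq_nonneg (w.a : ℝ); have s2 := sq_nonneg (w.b : ℝ); have s3 := sq_nonneg (w.c : ℝ)
  have a1 : w.a ^ 2 < 9 := by
    have : (w.a : ℝ) ^ 2 < 9 := by nlinarith
    exact_mod_cast this
  have b1 : w.b ^ 2 < 4 := by
    have : (w.b : ℝ) ^ 2 < 4 := by nlinarith
    exact_mod_cast this
  have c1 : w.c ^ 2 < 4 := by
    have : (w.c : ℝ) ^ 2 < 4 := by nlinarith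
    exact_mod_cast this
  have hcase := small_units w hNw a1 b1 c1
  rcases hcase with h | h | h
  · exact ⟨g, Or.inl (by rw [huw, h, one_mul])⟩
  · exact ⟨g, Or.inr (by rw [huw, h])⟩
  · refine ⟨⟨1, 1, 1⟩ * g, Or.inr ?_⟩
    have : eps * (⟨1, 1, 1⟩ : Z3) = 1 := by ext <;> simp [eps]
    rw [huw, h]
    linear_combination (-(⟨1, 1, 1⟩ : Z3) * (g : Z3) ^ 2) * this

end Z3

end Pool.Agent.Lib.MP_ab8df0_nt
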