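import Pool.Agent.Lib.MP_ab8df0_nt.Desc9

/-! The equation `x ^ 5 + y ^ 4 + 3 z ^ 2 = 0`. -/

namespace Pool.Agent.Lib.MP_ab8df0_nt

open QuadraticAlgebra

abbrev Eis := QuadraticAlgebra ℤ (-1) 1

lemma Eis_norm_zero (z : Eis) (h : z.norm = 0) : z = 0 := by
  obtain ⟨x, y⟩ := z
  simp only [norm_def] at h
  have hy : y = 0 := by nlinarith [sq_nonneg (2 * x + y), sq_nonneg y]
  have hx : x = 0 := by nlinarith [sq_nonneg (2 * y + x), sq_nonneg x]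
  rw [hx, hy]; rfl

instance : IsDomain Eis := quad_domain _ _ Eis_norm_zero

instance : IsPrincipalIdealRing Eis := quad_pid _ _ Eis_norm_zero (by
  intro x y hx hy
  obtain ⟨h1, h2⟩ := abs_le.1 hx
  obtain ⟨h3, h4⟩ := abs_le.1 hy
  push_cast
  rw [abs_lt]
  constructor <;> nlinarith [mul_nonneg (sub_nonneg.2 h1) (sub_nonneg.2 h2),
    mul_nonneg (sub_nonneg.2 h3) (sub_nonneg.2 h4), mul_nonneg (sub_nonneg.2 h1) (sub_nonneg.2 h4),
    mul_nonneg (sub_nonneg.2 h2) (sub_nonneg.2 h3), sq_nonneg (x + y), sq_nonneg x, sq_nonneg y])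

lemma Eis_unit (u : Eisˣ) : (u : Eis) ^ 6 = 1 := by
  have h := Int.isUnit_iff.1 (isUnit_iff_norm_isUnit.1 u.isUnit)
  generalize (u : Eis) = z at h
  obtain ⟨x, y⟩ := z
  simp only [norm_def] at h
  have h1 : x * x + x * y + y * y ≤ 1 := by rcases h with h | h <;> linarith
  have a1 : -2 < x := by nlinarith [sq_nonneg (2 * y + x)]
  have a2 : x < 2 := by nlinarith [sq_nonneg (2 * y + x)]
  have a3 : -2 < y := by nlinarith [sq_nonneg (2 * x + y)]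
  have a4 : y < 2 := by nlinarith [sq_nonneg (2 * x + y)]
  interval_cases x <;> interval_cases y <;> first | decide | omega

lemma fifth (X y z : ℤ) (hc : IsCoprime X (2 * y)) (h : X ^ 5 = y ^ 4 + 3 * z ^ 2) :
    ∃ a b : ℤ, y ^ 2 = a * (a ^ 4 - 30 * a ^ 2 * b ^ 2 + 45 * b ^ 4) ∧
      z = b * (5 * a ^ 4 - 30 * a ^ 2 * b ^ 2 + 9 * b ^ 4) ∧ X = a ^ 2 + 3 * b ^ 2 := by
  obtain ⟨u, v, huv⟩ : IsCoprime (X ^ 5) (2 * y ^ 2) :=
    (hc.of_mul_right_left.mul_right hc.of_mul_right_right.pow_right).pow_left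
  have hcop : IsCoprime (⟨y ^ 2 - z, 2 * z⟩ : Eis) ⟨y ^ 2 + z, -2 * z⟩ := by
    refine ⟨⟨u, 0⟩ * ⟨y ^ 2 + z, -2 * z⟩ + ⟨v, 0⟩, ⟨v, 0⟩, ?_⟩
    ext <;> simp
    · linear_combination huv - u * h
    · ring
  obtain ⟨d, e, he⟩ := exists_associated_pow_of_mul_eq_pow' (c := ⟨X, 0⟩) (k := 5) hcop
    (by ext <;> simp [pow_succ] <;> linarith)
  have h5 : (d * e ^ 5) ^ 5 = ⟨y ^ 2 - z, 2 * z⟩ := by
    rw [← he]
    linear_combination d ^ 5 * e * (e ^ 18 + e ^ 12 + e ^ 6 + 1) * Eis_unit e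
  generalize d * e ^ 5 = g at h5
  obtain ⟨c, d⟩ := g
  have e1 := congrArg re h5
  have e2 := congrArg im h5
  simp only [pow_succ, pow_zero, one_mul, re_mul, im_mul] at e1 e2
  obtain ⟨b, rfl⟩ : (2 : ℤ) ∣ d := by
    have h1 := congrArg (Int.cast : ℤ → ZMod 2) e2
    push_cast at h1
    rw [show (2 : ZMod 2) = 0 by decide, zero_mul] at h1
    refine (ZMod.intCast_zmod_eq_zero_iff_dvd d 2).1 ?_
    revert h1
    generalize (c : ZMod 2) = c; generalize (d : ZMod 2) = d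
    revert c d; decide
  obtain ⟨a, rfl⟩ : ∃ a, c = a - b := ⟨c + b, by ring⟩
  have hz : z = b * (5 * a ^ 4 - 30 * a ^ 2 * b ^ 2 + 9 * b ^ 4) := by linarith
  have hy : y ^ 2 = a * (a ^ 4 - 30 * a ^ 2 * b ^ 2 + 45 * b ^ 4) := by linarith
  refine ⟨a, b, hy, hz, (Odd.pow_inj (n := 5) (by decide)).1 ?_⟩
  rw [h, show y ^ 4 = (y ^ 2) ^ 2 by ring, hy, hz]; ring

lemma fourth (A B t : ℤ) (hc : IsCoprime A B) (h : A * B = t ^ 4) :
    ∃ m n σ : ℤ, (σ = 1 ∨ σ = -1) ∧ A = σ * m ^ 4 ∧ B = σ * n ^ 4 ∧ t ^ 2 = (m * n) ^ 2 := by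
  obtain ⟨m, hm⟩ := exists_associated_pow_of_mul_eq_pow' hc h
  obtain ⟨n, hn⟩ := exists_associated_pow_of_mul_eq_pow' hc.symm (by rw [mul_comm]; exact h)
  have key : ∀ m n : ℤ, t ^ 4 = (m * n) ^ 4 → t ^ 2 = (m * n) ^ 2 := fun m n h6 =>
    (pow_left_inj₀ (sq_nonneg _) (sq_nonneg _) two_ne_zero).1 (by linear_combination h6)
  have z : ∀ m n : ℤ, t ^ 4 = -(m * n) ^ 4 → t ^ 4 = (m * n) ^ 4 ∧ (m = 0 ∨ n = 0) := by
    intro m n h6
    have h1 : 0 ≤ t ^ 4 := by positivity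
    have h2 : 0 ≤ (m * n) ^ 4 := by positivity
    have h3 : (m * n) ^ 4 = 0 := by linarith
    exact ⟨by linarith, mul_eq_zero.1 (pow_eq_zero_iff (by norm_num) |>.1 h3)⟩
  rcases Int.associated_iff.1 hm with hm | hm <;> rcases Int.associated_iff.1 hn with hn | hn
  · exact ⟨m, n, 1, Or.inl rfl, by linarith, by linarith, key m n (by rw [← h, ← hm, ← hn]; ring)⟩
  · obtain ⟨h3, rfl | rfl⟩ := z m n (by rw [← h, mul_pow, hm, hn]; ring)
    · exact ⟨0, n, -1, Or.inr rfl, by linarith, by linarith, key _ _ h3⟩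
    · exact ⟨m, 0, 1, Or.inl rfl, by linarith, by linarith, key _ _ h3⟩
  · obtain ⟨h3, rfl | rfl⟩ := z m n (by rw [← h, mul_pow, hm, hn]; ring)
    · exact ⟨0, n, 1, Or.inl rfl, by linarith, by linarith, key _ _ h3⟩
    · exact ⟨m, 0, -1, Or.inr rfl, by linarith, by linarith, key _ _ h3⟩
  · exact ⟨m, n, -1, Or.inr rfl, by linarith, by linarith, key m n (by rw [← h, mul_pow, hm, hn]; ring)⟩

lemma prime5 : Prime (5 : ℤ) := Int.prime_iff_natAbs_prime.2 (by norm_num)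

lemma split45 (A B t : ℤ) (hc : IsCoprime A B) (h : A * B = 45 * t ^ 4) :
    ∃ m n σ : ℤ, (σ = 1 ∨ σ = -1) ∧ t ^ 2 = (m * n) ^ 2 ∧ IsCoprime m n ∧
      ((A = σ * m ^ 4 ∧ B = 45 * (σ * n ^ 4)) ∨ (A = 45 * (σ * m ^ 4) ∧ B = σ * n ^ 4) ∨
       (A = 9 * (σ * m ^ 4) ∧ B = 5 * (σ * n ^ 4)) ∨ (A = 5 * (σ * m ^ 4) ∧ B = 9 * (σ * n ^ 4))) := by
  have pp : ∀ (p : ℤ) (k : ℕ) (A B : ℤ), Prime p → IsCoprime A B → p ^ k ∣ A * B →
      p ^ k ∣ A ∨ p ^ k ∣ B := by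
    intro p k A B hp hc h
    by_cases h1 : p ∣ A
    · exact Or.inl ((hc.of_isCoprime_of_dvd_left h1).pow_left.dvd_of_dvd_mul_right h)
    · exact Or.inr ((hp.coprime_iff_not_dvd.2 h1).pow_left.dvd_of_dvd_mul_left h)
  have fin : ∀ A B : ℤ, IsCoprime A B → A * B = t ^ 4 → ∃ m n σ : ℤ, (σ = 1 ∨ σ = -1) ∧
      t ^ 2 = (m * n) ^ 2 ∧ IsCoprime m n ∧ A = σ * m ^ 4 ∧ B = σ * n ^ 4 := by
    intro A B hc h
    obtain ⟨m, n, σ, h1, rfl, rfl, h2⟩ := fourth A B t hc h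
    exact ⟨m, n, σ, h1, h2, (IsCoprime.pow_iff (by norm_num) (by norm_num)).1
      hc.of_mul_left_right.of_mul_right_right, rfl, rfl⟩
  rcases pp 3 2 A B Int.prime_three hc ⟨5 * t ^ 4, by linarith⟩ with ⟨A, rfl⟩ | ⟨B, rfl⟩
  · have hc := hc.of_mul_left_right
    rcases pp 5 1 A B prime5 hc ⟨t ^ 4, by linarith⟩ with ⟨A, rfl⟩ | ⟨B, rfl⟩
    · obtain ⟨m, n, σ, h1, h2, h3, rfl, rfl⟩ := fin A B hc.of_mul_left_right (by linarith)
      exact ⟨m, n, σ, h1, h2, h3, Or.inr (Or.inl ⟨by ring, rfl⟩)⟩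
    · obtain ⟨m, n, σ, h1, h2, h3, rfl, rfl⟩ := fin A B hc.of_mul_right_right (by linarith)
      exact ⟨m, n, σ, h1, h2, h3, Or.inr (Or.inr (Or.inl ⟨by ring, by ring⟩))⟩
  · have hc := hc.of_mul_right_right
    rcases pp 5 1 A B prime5 hc ⟨t ^ 4, by linarith⟩ with ⟨A, rfl⟩ | ⟨B, rfl⟩
    · obtain ⟨m, n, σ, h1, h2, h3, rfl, rfl⟩ := fin A B hc.of_mul_left_right (by linarith)
      exact ⟨m, n, σ, h1, h2, h3, Or.inr (Or.inr (Or.inr ⟨by ring, by ring⟩))⟩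
    · obtain ⟨m, n, σ, h1, h2, h3, rfl, rfl⟩ := fin A B hc.of_mul_right_right (by linarith)
      exact ⟨m, n, σ, h1, h2, h3, Or.inl ⟨rfl, by ring⟩⟩

/-- divisibility through residues -/
lemma dvd_iff (n : ℕ) (a : ℤ) : (a : ZMod n) = 0 ↔ (n : ℤ) ∣ a := ZMod.intCast_zmod_eq_zero_iff_dvd a n

lemma sq8 (a : ℤ) (h : ¬ 2 ∣ a) : a ^ 2 % 8 = 1 := by
  have : a % 8 = 1 ∨ a % 8 = 3 ∨ a % 8 = 5 ∨ a % 8 = 7 := by omega
  rcases this with h | h | h | h <;> simp [pow_two, Int.mul_emod, h]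

lemma sq_class (X Z Y : O) (hc : IsCoprime X Z) (h : X * Z = Y ^ 2) :
    ∃ d ∈ L16, ∃ A, X = d * A ^ 2 := by
  obtain ⟨A, u, hu⟩ := exists_associated_pow_of_mul_eq_pow' hc h
  have hn : (u : O).norm ^ 2 = 1 := by
    rcases Int.isUnit_iff.1 (isUnit_iff_norm_isUnit.1 u.isUnit) with h | h <;> rw [h] <;> norm_num
  obtain ⟨v, hv | hv | hv | hv⟩ := O_units _ u le_rfl hn
  · exact ⟨1, by decide, v * A, by rw [← hu, hv]; ring⟩
  · exact ⟨-1, by decide, v * A, by rw [← hu, hv]; ring⟩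
  · exact ⟨phi, by decide, v * A, by rw [← hu, hv]; ring⟩
  · exact ⟨-phi, by decide, v * A, by rw [← hu, hv]; ring⟩

lemma system9 (r p m n : ℤ) (hmn : IsCoprime m n) (hm : 2 ∣ m) (h3 : ¬ 3 ∣ n) (h5 : ¬ 5 ∣ n)
    (hr : r ^ 2 = n ^ 4 - 45 * m ^ 4) (hp : p ^ 2 = n ^ 4 - 30 * m ^ 2 * n ^ 2 + 45 * m ^ 4) :
    m = 0 := by
  by_contra hm0
  obtain ⟨k, m', hm', hk⟩ := WfDvdMonoid.max_power_factor' hm0 Int.prime_two.not_isUnit
  obtain ⟨k, rfl⟩ : ∃ j, k = j + 1 := by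
    rcases k with _ | k
    · exact absurd (by simpa [hk] using hm) hm'
    · exact ⟨k, rfl⟩
  have n2 : IsCoprime n 2 := (hmn.of_isCoprime_of_dvd_left hm).symm
  have n3 : IsCoprime n 3 := (Int.prime_three.coprime_iff_not_dvd.2 h3).symm
  have n5 : IsCoprime n 5 := (prime5.coprime_iff_not_dvd.2 h5).symm
  have n60 : IsCoprime (n ^ 4) (60 * m ^ 2) := by
    rw [show 60 * m ^ 2 = 2 ^ 2 * 3 * 5 * m ^ 2 by ring]
    exact (((n2.pow_right.mul_right n3).mul_right n5).mul_right hmn.symm.pow_right).pow_left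
  obtain ⟨j, hj⟩ := hm
  have c60 : ∀ q e : ℤ, q = n ^ 4 + 30 * j ^ 2 * e → IsCoprime q (60 * m ^ 2) := by
    intro q e hq
    have h1 : IsCoprime (n ^ 4) (30 * j ^ 2) :=
      n60.of_isCoprime_of_dvd_right ⟨8, by rw [hj]; ring⟩
    have h2 : IsCoprime q (30 * j ^ 2) := hq ▸ h1.add_mul_left_left e
    have h4 : IsCoprime q 2 := h2.of_isCoprime_of_dvd_right ⟨15 * j ^ 2, by ring⟩
    rw [show 60 * m ^ 2 = 30 * j ^ 2 * 2 ^ 3 by rw [hj]; ring]
    exact h2.mul_right h4.pow_right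
  have D2 : IsCoprime (m' : O) 2 := by
    have := (Int.prime_two.coprime_iff_not_dvd.2 hm').symm.map (Int.castRingHom O)
    simpa using this
  have h8 : (8 : O) ∣ (n : O) ^ 2 - (m' : O) ^ 2 := by
    have : (8 : ℤ) ∣ n ^ 2 - m' ^ 2 := by
      have hn : ¬ 2 ∣ n := fun h => Int.prime_two.not_isUnit (n2.isUnit_of_dvd' h dvd_rfl)
      have e1 := sq8 n hn
      have e2 := sq8 m' hm'
      omega
    obtain ⟨w, hw⟩ := this
    exact ⟨w, by exact_mod_cast hw⟩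
  have hE : (m : O) = 2 ^ (k + 1) * m' := by rw [hk]; push_cast; rfl
  have one : ∀ (c c' e : O) (q f : ℤ), (c - star c) * e = 60 →
      c + 1 = 2 * c' → ((n : O) ^ 2 - c * m ^ 2) * (n ^ 2 - star c * m ^ 2) = (q : O) ^ 2 →
      q ^ 2 = n ^ 4 + 30 * j ^ 2 * f → 3 ∣ c → ∃ B : O, (n : O) ^ 2 - B ^ 2 = c * m ^ 2 := by
    intro c c' e q f h1 h2 h4 h6 h7
    obtain ⟨u, v, huv⟩ := (c60 _ _ h6).map (Int.castRingHom O)
    simp only [eq_intCast, Int.cast_pow, Int.cast_mul, Int.cast_ofNat] at huv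
    obtain ⟨d, hd, B, hB⟩ := sq_class _ _ _ ⟨u * (n ^ 2 - star c * m ^ 2) - v * e, v * e,
      by linear_combination huv + u * h4 + v * m ^ 2 * h1⟩ h4
    obtain ⟨D', g1, g2⟩ := near k ((n : O) ^ 2) m' c c' D2 h8 h2
    rw [← hE, hB] at g2
    rcases loc1 d B D' hd g1 g2 with rfl | rfl
    · exact ⟨B, by linear_combination hB⟩
    · exfalso
      obtain ⟨c, rfl⟩ := h7
      have g3 : (3 : O) ∣ n := three_prime.dvd_of_dvd_pow (n := 2)
        ⟨c * m ^ 2 - B ^ 2, by linear_combination hB⟩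
      have g4 := n3.map (Int.castRingHom O)
      simp only [eq_intCast, Int.cast_ofNat] at g4
      exact three_prime.not_isUnit (g4.isUnit_of_dvd' g3 dvd_rfl)
  obtain ⟨B, hB⟩ := one ra ⟨2, -3⟩ ⟨2, -4⟩ r (-24 * j ^ 2) (by decide) (by decide)
    (by
      have h1 : ra + star ra = 0 := by decide
      have h2 : ra * star ra = -45 := by decide
      have h3 := congrArg (Int.cast : ℤ → O) hr
      push_cast at h3
      linear_combination -h3 - (n : O) ^ 2 * m ^ 2 * h1 + (m : O) ^ 4 * h2)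
    (by rw [hr, hj]; ring) ⟨⟨1, -2⟩, by decide⟩
  obtain ⟨C, hC⟩ := one rb ⟨5, 6⟩ ⟨-1, 2⟩ p (24 * j ^ 2 - 4 * n ^ 2) (by decide) (by decide)
    (by
      have h1 : rb + star rb = 30 := by decide
      have h2 : rb * star rb = 45 := by decide
      have h3 := congrArg (Int.cast : ℤ → O) hp
      push_cast at h3
      linear_combination -h3 - (n : O) ^ 2 * m ^ 2 * h1 + (m : O) ^ 4 * h2)
    (by rw [hp, hj]; ring) ⟨⟨3, 4⟩, by decide⟩
  exact desc9 k n B C m' D2 h8 (by rw [hB, hE]) (by rw [hC, hE])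

lemma quartic9 (r p q : ℤ) (hpq : IsCoprime p q) (hrq : IsCoprime r q) (h2 : ¬ 2 ∣ r)
    (h3 : ¬ 3 ∣ r) (h5 : ¬ 5 ∣ r) (he : 2 ∣ p * q)
    (h : r ^ 4 = p ^ 4 + 15 * p ^ 2 * q ^ 2 + 45 * q ^ 4) : q = 0 := by
  have h4 : 4 ∣ q ∧ ¬ 2 ∣ p := by
    have g1 := congrArg (Int.cast : ℤ → ZMod 16) h
    push_cast at g1
    have g2 : (8 : ZMod 16) * r ≠ 0 := fun g => h2 (by
      have := (dvd_iff 16 (8 * r)).1 (by push_cast; exact g)
      omega)
    have g3 : (8 : ZMod 16) * (p * q) = 0 := by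
      obtain ⟨w, hw⟩ := he
      have := (dvd_iff 16 (8 * (p * q))).2 ⟨w, by rw [hw]; push_cast; ring⟩
      exact_mod_cast this
    have : ∀ r : ZMod 16, 8 * r ≠ 0 → r ^ 4 = 1 := by decide
    rw [this _ g2] at g1
    have : ∀ p q : ZMod 16, 1 = p ^ 4 + 15 * p ^ 2 * q ^ 2 + 45 * q ^ 4 → 8 * (p * q) = 0 →
      4 * q = 0 ∧ 8 * p ≠ 0 := by decide +kernel
    obtain ⟨g4, g5⟩ := this _ _ g1 g3
    refine ⟨?_, fun ⟨w, hw⟩ => g5 ?_⟩
    · have := (dvd_iff 16 (4 * q)).1 (by push_cast; exact g4)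
      omega
    · have := (dvd_iff 16 (8 * p)).2 ⟨w, by rw [hw]; push_cast; ring⟩
      exact_mod_cast this
  obtain ⟨⟨j, rfl⟩, hp2⟩ := h4
  have e1 := sq8 r h2
  have e2 := sq8 p hp2
  obtain ⟨A, hA⟩ : 2 ∣ p ^ 2 + 120 * j ^ 2 - r ^ 2 := by omega
  have hc : IsCoprime (r ^ 2) (45 * (2 * j) ^ 4) := by
    rw [show (45 : ℤ) = 3 ^ 2 * 5 by norm_num]
    exact (((Int.prime_three.coprime_iff_not_dvd.2 h3).symm.pow_right.mul_right
      (prime5.coprime_iff_not_dvd.2 h5).symm).mul_right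
      (hrq.of_isCoprime_of_dvd_right ⟨2, by ring⟩).pow_right).pow_left
  have hAB : A * (A + r ^ 2) = 45 * (2 * j) ^ 4 := by
    have : 2 * A * (2 * A + 2 * r ^ 2) = 4 * (45 * (2 * j) ^ 4) := by
      rw [← hA]; linear_combination -h
    linarith
  have hcop : IsCoprime A (A + r ^ 2) := by
    have := (hc.of_isCoprime_of_dvd_right ⟨_, hAB.symm⟩).symm.add_mul_left_right 1
    rwa [mul_one, add_comm] at this
  have hB : (A + r ^ 2) % 4 = 1 := by omega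
  have hB0 : 0 ≤ A + r ^ 2 := by nlinarith [sq_nonneg p, sq_nonneg j, sq_nonneg r]
  obtain ⟨m, n, σ, hσ, ht, hmn, hcase⟩ := split45 _ _ _ hcop hAB
  have n4 : 0 ≤ n ^ 4 := by positivity
  have hn : ¬ 2 ∣ n := by
    rintro ⟨n, rfl⟩
    rcases hcase with ⟨-, g⟩ | ⟨-, g⟩ | ⟨-, g⟩ | ⟨-, g⟩ <;> rw [g, mul_pow] at hB <;>
      rcases hσ with rfl | rfl <;> omega
  have hm : 2 ∣ m := by
    have : 2 ∣ m * n := Int.prime_two.dvd_of_dvd_pow (n := 2) ⟨2 * j ^ 2, by linarith⟩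
    exact (Int.prime_two.dvd_or_dvd this).resolve_right hn
  have n8 : n ^ 4 % 8 = 1 := by
    rw [show n ^ 4 = (n ^ 2) ^ 2 by ring]
    exact sq8 _ fun h => hn (Int.prime_two.dvd_of_dvd_pow h)
  have m8 : m ^ 4 % 8 = 0 := by
    obtain ⟨w, rfl⟩ := hm
    rw [mul_pow]; omega
  obtain rfl : σ = 1 := by
    refine hσ.resolve_right ?_
    rintro rfl
    rcases hcase with ⟨-, g⟩ | ⟨-, g⟩ | ⟨-, g⟩ | ⟨-, g⟩ <;> omega
  rcases hcase with ⟨g1, g⟩ | ⟨g1, g⟩ | ⟨g1, g⟩ | ⟨g1, g⟩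
  · omega
  · have hr : r ^ 2 = n ^ 4 - 45 * m ^ 4 := by linarith
    have : m = 0 := system9 r p m n hmn hm
      (fun ⟨w, hw⟩ => h3 (Int.prime_three.dvd_of_dvd_pow (n := 2)
        ⟨27 * w ^ 4 - 15 * m ^ 4, by rw [hr, hw]; ring⟩))
      (fun ⟨w, hw⟩ => h5 (prime5.dvd_of_dvd_pow (n := 2)
        ⟨125 * w ^ 4 - 9 * m ^ 4, by rw [hr, hw]; ring⟩)) hr (by linear_combination hA + g1 + g - 30 * ht)
    subst this
    have : j ^ 2 = 0 := by linarith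
    simpa using this
  · omega
  · exfalso
    have g2 : p ^ 2 = 5 * m ^ 4 + 9 * n ^ 4 - 30 * (m * n) ^ 2 := by
      linear_combination hA + g1 + g - 30 * ht
    have g3 := congrArg (Int.cast : ℤ → ZMod 3) g2
    push_cast at g3
    have : ∀ p m n : ZMod 3, p ^ 2 = 5 * m ^ 4 + 9 * n ^ 4 - 30 * (m * n) ^ 2 → m = 0 := by decide
    obtain ⟨w, hw⟩ := (dvd_iff 3 m).1 (this _ _ _ g3)
    push_cast at hw
    exact h3 (Int.prime_three.dvd_of_dvd_pow (n := 2)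
      ⟨3 * n ^ 4 - 135 * w ^ 4, by rw [hw] at g1; linear_combination g - g1⟩)

lemma quintic9 (a b y : ℤ) (hab : IsCoprime a b) (h2 : ¬ 2 ∣ a + b) (h3 : ¬ 3 ∣ a)
    (h : y ^ 2 = a * (a ^ 4 - 30 * a ^ 2 * b ^ 2 + 45 * b ^ 4)) : b = 0 := by
  have a3 : IsCoprime a 3 := (Int.prime_three.coprime_iff_not_dvd.2 h3).symm
  have g2 : (4 : ZMod 8) * (a + b) ≠ 0 := fun g => h2 (by
    have := (dvd_iff 8 (4 * (a + b))).1 (by push_cast; exact g)
    omega)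
  have g3 : (a : ZMod 3) ≠ 0 := fun g => h3 ((dvd_iff 3 a).1 g)
  by_cases h5 : 5 ∣ a
  · exfalso
    obtain ⟨a, rfl⟩ := h5
    obtain ⟨y, rfl⟩ : 5 ∣ y := prime5.dvd_of_dvd_pow (n := 2) ⟨_, by rw [h, mul_assoc]⟩
    have hc : IsCoprime (125 * a ^ 4 - 150 * a ^ 2 * b ^ 2 + 9 * b ^ 4) a := by
      rw [show 125 * a ^ 4 - 150 * a ^ 2 * b ^ 2 + 9 * b ^ 4 =
        3 ^ 2 * b ^ 4 + a * (125 * a ^ 3 - 150 * a * b ^ 2) by ring]
      exact (a3.of_mul_left_right.pow_right.mul_right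
        hab.of_mul_left_right.pow_right).symm.add_mul_left_left _
    obtain ⟨w, hw | hw⟩ := Int.sq_of_isCoprime (c := y) hc (by linarith)
    · have g := congrArg (Int.cast : ℤ → ZMod 3) hw
      push_cast at g g3
      revert g g3
      generalize (a : ZMod 3) = a; generalize (b : ZMod 3) = b; generalize (w : ZMod 3) = w
      revert a b w; decide
    · have g := congrArg (Int.cast : ℤ → ZMod 8) hw
      push_cast at g g2
      revert g g2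
      generalize (a : ZMod 8) = a; generalize (b : ZMod 8) = b; generalize (w : ZMod 8) = w
      revert a b w; decide +kernel
  have a45 : IsCoprime a (45 * b ^ 4) := by
    rw [show (45 : ℤ) = 3 ^ 2 * 5 by norm_num]
    exact (a3.pow_right.mul_right (prime5.coprime_iff_not_dvd.2 h5).symm).mul_right hab.pow_right
  have hc : IsCoprime a (a ^ 4 - 30 * a ^ 2 * b ^ 2 + 45 * b ^ 4) := by
    rw [show a ^ 4 - 30 * a ^ 2 * b ^ 2 + 45 * b ^ 4 =
      45 * b ^ 4 + a * (a ^ 3 - 30 * a * b ^ 2) by ring]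
    exact a45.add_mul_left_right _
  obtain ⟨w, hw⟩ := Int.sq_of_isCoprime hc.symm (by rw [mul_comm]; exact h.symm)
  have hw : a ^ 4 - 30 * a ^ 2 * b ^ 2 + 45 * b ^ 4 = w ^ 2 ∧ w ≠ 0 := by
    have key : ∀ a b w : ZMod 3, a ≠ 0 → a ^ 4 - 30 * a ^ 2 * b ^ 2 + 45 * b ^ 4 ≠ -w ^ 2 := by
      decide
    have key' : ∀ w : ℤ, a ^ 4 - 30 * a ^ 2 * b ^ 2 + 45 * b ^ 4 ≠ -w ^ 2 := fun w hw => by
      have g := congrArg (Int.cast : ℤ → ZMod 3) hw
      push_cast at g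
      exact key _ _ _ g3 g
    have := hw.resolve_right (key' w)
    exact ⟨this, by rintro rfl; exact key' 0 (by rw [this]; ring)⟩
  obtain ⟨hw, w0⟩ := hw
  obtain ⟨r, hr⟩ := Int.sq_of_isCoprime hc h.symm
  obtain rfl : a = r ^ 2 := by
    refine hr.resolve_right fun hr => ?_
    have r0 : r ≠ 0 := by rintro rfl; exact h3 (by simp [hr])
    rw [hw, hr] at h
    nlinarith [sq_nonneg y, mul_pos (sq_pos_of_ne_zero r0) (sq_pos_of_ne_zero w0)]
  have hr2 : ¬ 2 ∣ r := by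
    rintro ⟨r, rfl⟩
    have g := congrArg (Int.cast : ℤ → ZMod 8) hw
    push_cast at g g2
    revert g g2
    generalize (r : ZMod 8) = r; generalize (b : ZMod 8) = b; generalize (w : ZMod 8) = w
    revert r b w; decide +kernel
  have e1 := sq8 r hr2
  obtain ⟨j, hj⟩ : 2 ∣ b := by omega
  have e2 : (r ^ 2) ^ 2 % 8 = 1 := sq8 _ (by omega)
  have hw2 : ¬ 2 ∣ w := by
    rintro ⟨w, rfl⟩
    have e3 : ((r ^ 2) ^ 2) ^ 2 % 8 = 1 := sq8 _ (by omega)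
    have : ((r ^ 2) ^ 2) ^ 2 = 2 * (2 * w ^ 2 + 15 * (r ^ 2) ^ 2 * b ^ 2 - 360 * j ^ 4) := by
      rw [hj] at hw ⊢; linear_combination hw
    omega
  obtain ⟨A, hA⟩ : 2 ∣ (r ^ 2) ^ 2 - 15 * b ^ 2 - w := by
    rw [hj, mul_pow]; omega
  have hAB : A * (A + w) = 45 * b ^ 4 := by
    have : 2 * A * (2 * A + 2 * w) = 4 * (45 * b ^ 4) := by rw [← hA]; linear_combination hw
    linarith
  have hcop : IsCoprime A (A + w) := by
    have g1 : IsCoprime ((r ^ 2) ^ 2 - 15 * b ^ 2) (45 * b ^ 4) := by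
      have g4 : IsCoprime (r ^ 2) (15 * b ^ 2) := a45.of_isCoprime_of_dvd_right ⟨3 * b ^ 2, by ring⟩
      have g5 : IsCoprime ((r ^ 2) ^ 2 - 15 * b ^ 2) (15 * b ^ 2) := by
        have := (g4.pow_left (m := 2)).add_mul_left_left (-1)
        rwa [mul_neg_one, ← sub_eq_add_neg] at this
      exact (g5.pow_right (n := 2)).of_isCoprime_of_dvd_right ⟨5, by ring⟩
    have := (g1.of_isCoprime_of_dvd_right ⟨_, hAB.symm⟩).symm.add_mul_left_right (-1)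
    rwa [show (r ^ 2) ^ 2 - 15 * b ^ 2 + A * -1 = A + w by linarith] at this
  obtain ⟨m, n, σ, hσ, ht, hmn, hcase⟩ := split45 _ _ _ hcop hAB
  have hmn2 : 2 ∣ m * n := Int.prime_two.dvd_of_dvd_pow (n := 2) ⟨2 * j ^ 2, by rw [← ht, hj]; ring⟩
  have hrb : IsCoprime r (m * n) := by
    have := hab.pow_right (n := 2)
    rw [ht] at this
    exact (IsCoprime.pow_iff (by norm_num) (by norm_num)).1 this
  have r3 : ¬ 3 ∣ r := fun h => h3 (dvd_pow h two_ne_zero)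
  have r5 : ¬ 5 ∣ r := fun h => h5 (dvd_pow h two_ne_zero)
  have fin : ∀ m n : ℤ, b ^ 2 = (m * n) ^ 2 → IsCoprime m n → 2 ∣ m * n → IsCoprime r (m * n) →
      (r ^ 4 = 15 * (m * n) ^ 2 + σ * (m ^ 4 + 45 * n ^ 4) ∨
       r ^ 4 = 15 * (m * n) ^ 2 + σ * (9 * m ^ 4 + 5 * n ^ 4)) → b = 0 := by
    intro m n ht hmn hmn2 hrb hh
    have r3' : (r : ZMod 3) ≠ 0 := fun g => r3 ((dvd_iff 3 r).1 g)
    rcases hσ with rfl | rfl <;> rcases hh with hh | hh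
    · have := quartic9 r m n hmn hrb.of_mul_right_right hr2 r3 r5 hmn2 (by linarith)
      simpa [this] using ht
    · exfalso
      have g := congrArg (Int.cast : ℤ → ZMod 3) hh
      push_cast at g
      revert g r3'
      generalize (r : ZMod 3) = r; generalize (m : ZMod 3) = m; generalize (n : ZMod 3) = n
      revert r m n; decide
    · exfalso
      have g := congrArg (Int.cast : ℤ → ZMod 3) hh
      push_cast at g
      revert g r3'
      generalize (r : ZMod 3) = r; generalize (m : ZMod 3) = m; generalize (n : ZMod 3) = n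
      revert r m n; decide
    · exfalso
      have g := congrArg (Int.cast : ℤ → ZMod 8) hh
      have g4 : (4 : ZMod 8) * r ≠ 0 := fun g => hr2 (by
        have := (dvd_iff 8 (4 * r)).1 (by push_cast; exact g)
        omega)
      have g5 : (4 : ZMod 8) * (m * n) = 0 := by
        obtain ⟨w, hw⟩ := hmn2
        have := (dvd_iff 8 (4 * (m * n))).2 ⟨w, by rw [hw]; push_cast; ring⟩
        exact_mod_cast this
      push_cast at g
      revert g g4 g5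
      generalize (r : ZMod 8) = r; generalize (m : ZMod 8) = m; generalize (n : ZMod 8) = n
      revert r m n; decide +kernel
  rcases hcase with ⟨g1, g⟩ | ⟨g1, g⟩ | ⟨g1, g⟩ | ⟨g1, g⟩
  · exact fin m n ht hmn hmn2 hrb (Or.inl (by linear_combination hA + g1 + g + 15 * ht))
  · exact fin n m (by rw [ht]; ring) hmn.symm (by rwa [mul_comm]) (by rwa [mul_comm])
      (Or.inl (by linear_combination hA + g1 + g + 15 * ht))
  · exact fin m n ht hmn hmn2 hrb (Or.inr (by linear_combination hA + g1 + g + 15 * ht))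
  · exact fin n m (by rw [ht]; ring) hmn.symm (by rwa [mul_comm]) (by rwa [mul_comm])
      (Or.inr (by linear_combination hA + g1 + g + 15 * ht))

theorem E9 (x y z : ℤ) (hg : Int.gcd (Int.gcd x y) z = 1) (h : x ^ 5 + y ^ 4 + 3 * z ^ 2 = 0) :
    x = -1 ∧ (y = 1 ∨ y = -1) ∧ z = 0 := by
  have hp : ∀ p : ℤ, Prime p → p ∣ x → p ∣ y → ¬ p ∣ z := fun p hp h1 h2 h3 =>
    hp.not_isUnit (isUnit_of_dvd_one (by
      have := Int.dvd_coe_gcd (Int.dvd_coe_gcd h1 h2) h3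
      rwa [hg] at this))
  have hx3 : ¬ 3 ∣ x := by
    rintro ⟨x, rfl⟩
    obtain ⟨y, rfl⟩ : 3 ∣ y := Int.prime_three.dvd_of_dvd_pow (n := 4)
      ⟨-81 * x ^ 5 - z ^ 2, by linarith⟩
    exact hp 3 Int.prime_three ⟨x, rfl⟩ ⟨y, rfl⟩
      (Int.prime_three.dvd_of_dvd_pow (n := 2) ⟨-27 * x ^ 5 - 9 * y ^ 4, by linarith⟩)
  have hxy : IsCoprime x y := by
    refine isCoprime_of_prime_dvd (fun h0 => hx3 (by simp [h0.1])) fun p hp' p0 p1 => ?_
    have h1 : p ∣ 3 * z ^ 2 := by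
      rw [show 3 * z ^ 2 = -(x * x ^ 4 + y * y ^ 3) by linarith]
      exact ((p0.mul_right _).add (p1.mul_right _)).neg_right
    rcases hp'.dvd_or_dvd h1 with h2 | h2
    · exact hx3 (((Prime.dvd_prime_iff_associated hp' Int.prime_three).1 h2).symm.dvd.trans p0)
    · exact hp p hp' p0 p1 (hp'.dvd_of_dvd_pow h2)
  have hx2 : ¬ 2 ∣ x := by
    rintro ⟨x, rfl⟩
    have hy : ¬ 2 ∣ y := fun h => Int.prime_two.not_isUnit (hxy.isUnit_of_dvd' ⟨x, rfl⟩ h)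
    have e1 : (y ^ 2) ^ 2 % 8 = 1 := sq8 _ fun h => hy (Int.prime_two.dvd_of_dvd_pow h)
    have e2 : (y ^ 2) ^ 2 + 3 * z ^ 2 = 8 * (-4 * x ^ 5) := by linarith
    by_cases hz : 2 ∣ z
    · obtain ⟨z, rfl⟩ := hz
      rw [mul_pow 2 z] at e2; omega
    · have := sq8 z hz; omega
  obtain ⟨a, b, h1, h2, h3⟩ := fifth (-x) y z
    ((Int.prime_two.coprime_iff_not_dvd.2 hx2).symm.mul_right hxy).neg_left (by linarith)
  have hab : IsCoprime a b := by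
    refine isCoprime_of_prime_dvd (fun h0 => hx3 ?_) fun p hp' p0 p1 => ?_
    · rw [h0.1, h0.2] at h3
      simp at h3; simp [h3]
    · refine hp'.not_isUnit (hxy.isUnit_of_dvd' ?_ (hp'.dvd_of_dvd_pow (h1 ▸ p0.mul_right _)))
      rw [← dvd_neg, h3]
      exact (dvd_pow p0 two_ne_zero).add ((dvd_pow p1 two_ne_zero).mul_left _)
  have hb : b = 0 := quintic9 a b y hab
    (fun ⟨w, hw⟩ => hx2 ⟨a * b - b ^ 2 - 2 * w ^ 2, by
      linear_combination -h3 - (a + b + 2 * w) * hw⟩)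
    (fun ⟨w, hw⟩ => hx3 ⟨-3 * w ^ 2 - b ^ 2, by rw [hw] at h3; linarith⟩) h1
  subst hb
  rcases Int.isUnit_iff.1 (isCoprime_zero_right.1 hab) with rfl | rfl
  · refine ⟨by linarith, sq_eq_one_iff.1 (by linarith), by simpa using h2⟩
  · nlinarith [sq_nonneg y]

end Pool.Agent.Lib.MP_ab8df0_nt
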