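import Pool.Agent.Lib.MP_ab8df0_nt.Desc5
import Pool.Agent.Lib.MP_ab8df0_nt.E9

/-! The equation `2 x ^ 4 - y ^ 4 + z ^ 3 = 0`. -/

namespace Pool.Agent.Lib.MP_ab8df0_nt

open QuadraticAlgebra

namespace O3

lemma ncop (x : O3) (n : ℤ) (h : IsCoprime (N x) n) : IsCoprime x (n : O3) := by
  have := h.map (Int.castRingHom O3)
  simp only [eq_intCast] at this
  rw [← mul_adj] at this
  exact this.of_mul_left_left

lemma sq_unit (X Z Y : O3) (hc : IsCoprime X Z) (h : X * Z = Y ^ 2) :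
    ∃ e ∈ [1, -1, eta, -eta], ∃ A, X = e * A ^ 2 := by
  obtain ⟨A, u, hu⟩ := exists_associated_pow_of_mul_eq_pow' hc h
  obtain ⟨e, he, v, hv⟩ := units4 u
  exact ⟨e, he, v * A, by rw [← hu, hv]; ring⟩

lemma r8_mk (p q r : ℤ) : r8 ⟨p, q, r⟩ = ⟨p + r, q + 2 * r⟩ := by
  rw [r8, ev_mk]; ext <;> simp [pow_two]; ring

/-- reduction modulo the cube of `tt` -/
def q8 : O3 →+* ZMod 8 := ev 6 (by decide)

lemma quartic_id {R : Type*} [CommRing R] (A B q w a b : R) (h1 : q ^ 2 = A + B)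
    (hw : w ^ 2 = A * a ^ 4 + B * b ^ 4) :
    2 * (q * (A * a ^ 3 + B * b ^ 3) + w * (A * a + B * b)) ^ 2 =
      (q * w + A * a ^ 2 + B * b ^ 2) * ((q * w + A * a ^ 2 + B * b ^ 2) ^ 2 - A * B * (a - b) ^ 4) := by
  obtain rfl : B = q ^ 2 - A := by linear_combination -h1
  linear_combination (-q ^ 3 * w + 2 * (A * a + (q ^ 2 - A) * b) ^ 2 -
    3 * (A * a ^ 2 + (q ^ 2 - A) * b ^ 2) * q ^ 2) * hw

lemma squares5 (a b x y σ : ℤ) (hab : IsCoprime a b) (ha : ¬ 2 ∣ a) (hσ : σ = 1 ∨ σ = -1)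
    (hF : σ * (a ^ 3 + 6 * a ^ 2 * b + 6 * a * b ^ 2 + 4 * b ^ 3) = y ^ 2)
    (hG : a ^ 3 + 3 * a ^ 2 * b + 6 * a * b ^ 2 + 2 * b ^ 3 = x ^ 2) :
    8 ∣ b ∧ IsCoprime (⟨a + b, -b, 0⟩ : O3) ss ∧ ∃ A B : O3, ⟨a + 4 * b, b, b⟩ = A ^ 2 ∧
      ⟨a + b, -b, 0⟩ = B ^ 2 := by
  have nF : N ⟨a + 4 * b, b, b⟩ = a ^ 3 + 6 * a ^ 2 * b + 6 * a * b ^ 2 + 4 * b ^ 3 := by
    simp only [N, F]; ring
  have nG : N ⟨a + b, -b, 0⟩ = a ^ 3 + 3 * a ^ 2 * b + 6 * a * b ^ 2 + 2 * b ^ 3 := by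
    simp only [N, F]; ring
  have n3 : ¬ (3 * (a : ZMod 9) = 0 ∧ 3 * (b : ZMod 9) = 0) := by
    rintro ⟨h1, h2⟩
    obtain ⟨u, v, huv⟩ := hab
    have h3 := congrArg (Int.cast : ℤ → ZMod 9) huv
    push_cast at h3
    have : (3 : ZMod 9) = 0 := by linear_combination (u : ZMod 9) * h1 + (v : ZMod 9) * h2 - 3 * h3
    revert this; decide
  have y3 : ¬ 3 ∣ y := by
    rintro ⟨y, rfl⟩
    have g := congrArg (Int.cast : ℤ → ZMod 9) hF
    push_cast at g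
    revert g n3
    generalize (a : ZMod 9) = a; generalize (b : ZMod 9) = b; generalize (y : ZMod 9) = y
    rcases hσ with rfl | rfl <;> push_cast <;> revert a b y <;> decide +kernel
  have x3 : ¬ 3 ∣ x := by
    rintro ⟨y, rfl⟩
    have g := congrArg (Int.cast : ℤ → ZMod 9) hG
    push_cast at g
    revert g n3
    generalize (a : ZMod 9) = a; generalize (b : ZMod 9) = b; generalize (y : ZMod 9) = y
    revert a b y; decide +kernel
  have a2 : IsCoprime a 2 := (Int.prime_two.coprime_iff_not_dvd.2 ha).symm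
  have c1 : IsCoprime (N ⟨a + 4 * b, b, b⟩) (12 * b ^ 2) := by
    rw [show 12 * b ^ 2 = (2 * b) ^ 2 * 3 by ring]
    refine IsCoprime.mul_right (IsCoprime.pow_right ?_) ?_
    · rw [nF, show a ^ 3 + 6 * a ^ 2 * b + 6 * a * b ^ 2 + 4 * b ^ 3 =
        a ^ 3 + 2 * b * (3 * a ^ 2 + 3 * a * b + 2 * b ^ 2) by ring]
      exact (a2.mul_right hab).pow_left.add_mul_left_left _
    · have := (Int.prime_three.coprime_iff_not_dvd.2 y3).symm.pow_left (m := 2)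
      rw [← hF, ← nF] at this
      exact this.of_mul_left_right
  have σ2 : σ ^ 2 = 1 := by rcases hσ with rfl | rfl <;> norm_num
  obtain ⟨e1, he1, A, hA⟩ := sq_unit ⟨a + 4 * b, b, b⟩ (σ * adj ⟨a + 4 * b, b, b⟩) y (by
      refine IsCoprime.mul_right ?_ ?_
      · exact ⟨0, σ, by rw [zero_mul, zero_add, ← Int.cast_mul, ← pow_two, σ2, Int.cast_one]⟩
      · rw [show adj ⟨a + 4 * b, b, b⟩ = ⟨18, 0, 6⟩ * (b : O3) ^ 2 +
          ⟨a + 4 * b, b, b⟩ * ⟨a - 2 * b, -2 * b, -2 * b⟩ by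
            simp only [intCast_eq, adj, pow_two]; ext <;> simp <;> ring]
        refine ((ncop _ _ c1).of_isCoprime_of_dvd_right ⟨tt, ?_⟩).add_mul_left_right _
        have : (12 : O3) = ⟨18, 0, 6⟩ * tt := by decide +kernel
        push_cast
        linear_combination (b : O3) ^ 2 * this)
    (by rw [mul_left_comm, mul_adj, nF, ← Int.cast_mul, hF]; push_cast; rfl)
  have eL : (⟨a + b, -b, 0⟩ : O3) = a - ss * b := by
    simp only [intCast_eq, ss]; ext <;> simp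
  have cs : IsCoprime (⟨a + b, -b, 0⟩ : O3) ss := by
    obtain ⟨k, rfl⟩ : ∃ k, a = 2 * k + 1 := ⟨a / 2, by omega⟩
    refine ⟨1, b - lam * ss * k, ?_⟩
    rw [eL]; push_cast
    linear_combination (k : O3) * two_eq
  obtain ⟨e2, he2, B, hB⟩ := sq_unit ⟨a + b, -b, 0⟩ (adj ⟨a + b, -b, 0⟩) x (by
      rw [show adj ⟨a + b, -b, 0⟩ = ⟨3, 0, 3⟩ * (b : O3) ^ 2 +
          ⟨a + b, -b, 0⟩ * ⟨a + b, 2 * b, 0⟩ by
            simp only [intCast_eq, adj, pow_two]; ext <;> simp <;> ring]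
      refine (IsCoprime.mul_right ?_ (IsCoprime.pow_right ?_)).add_mul_left_right _
      · have c3 := ncop ⟨a + b, -b, 0⟩ 3 (by
          rw [nG, hG]; exact (Int.prime_three.coprime_iff_not_dvd.2 x3).symm.pow_left)
        exact (c3.mul_right (cs.pow_right (n := 3))).of_isCoprime_of_dvd_right
          ⟨⟨-1, 1, 1⟩, by decide +kernel⟩
      · have := hab.map (Int.castRingHom O3)
        simp only [eq_intCast] at this
        rw [eL, show (a : O3) - ss * b = a + b * (-ss) by ring]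
        exact this.add_mul_left_left _)
    (by rw [mul_adj, nG, hG]; push_cast; rfl)
  have he2' : e2 ∈ [1, eta] := by
    have h1 := congrArg N hB
    rw [nG, hG, N_mul, pow_two B, N_mul] at h1
    have h2 : N B ≠ 0 := N_ne_zero (by rintro rfl; exact ne0 cs (by rw [hB]; ring))
    have h3 : 0 ≤ N e2 := by
      by_contra hc
      nlinarith [sq_nonneg x, mul_self_pos.2 h2]
    revert h3 he2
    generalize e2 = e
    revert e; decide
  have key : ∀ a b : ZMod 8, 4 * a ≠ 0 → ∀ e1 ∈ [1, -1, eta, -eta],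
      (∃ u : ZMod 8, a + 46 * b = q8 e1 * (u * u)) →
      (∃ u v : ZMod 8, (⟨a + 4 * b + b, b + 2 * b⟩ : S8) = r8 e1 * (⟨u, v⟩ * ⟨u, v⟩)) →
      ∀ e2 ∈ [1, eta], (∃ u : ZMod 8, a - 5 * b = q8 e2 * (u * u)) →
      (∃ u v : ZMod 8, (⟨a + b, -b⟩ : S8) = r8 e2 * (⟨u, v⟩ * ⟨u, v⟩)) →
      e1 = 1 ∧ e2 = 1 ∧ b = 0 := by decide +kernel
  obtain ⟨rfl, rfl, hb⟩ := key a b
    (fun g => ha (by
      have := (dvd_iff 8 (4 * a)).1 (by push_cast; exact g)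
      omega)) e1 he1
    ⟨q8 A, by rw [← map_mul, ← map_mul, ← pow_two, ← hA, q8, ev_mk]; push_cast; ring⟩
    ⟨(r8 A).re, (r8 A).im, by
      rw [mk_eta, ← map_mul, ← map_mul, ← pow_two, ← hA, r8_mk]; push_cast; rfl⟩ e2 he2'
    ⟨q8 B, by rw [← map_mul, ← map_mul, ← pow_two, ← hB, q8, ev_mk]; push_cast; ring⟩
    ⟨(r8 B).re, (r8 B).im, by
      rw [mk_eta, ← map_mul, ← map_mul, ← pow_two, ← hB, r8_mk]; push_cast; simp⟩
  exact ⟨(dvd_iff 8 b).1 hb, cs, A, B, by rw [hA, one_mul], by rw [hB, one_mul]⟩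

lemma twist5 (a b x y σ : ℤ) (hab : IsCoprime a b) (ha : ¬ 2 ∣ a) (hσ : σ = 1 ∨ σ = -1)
    (hF : σ * (a ^ 3 + 6 * a ^ 2 * b + 6 * a * b ^ 2 + 4 * b ^ 3) = y ^ 2)
    (hG : a ^ 3 + 3 * a ^ 2 * b + 6 * a * b ^ 2 + 2 * b ^ 3 = x ^ 2) : b = 0 := by
  by_contra b0
  obtain ⟨⟨c, hc⟩, cs, A, B, hA, hB⟩ := squares5 a b x y σ hab ha hσ hF hG
  obtain ⟨k, b', hb', hk⟩ := WfDvdMonoid.max_power_factor' b0 Int.prime_two.not_isUnit
  obtain ⟨j, rfl⟩ : ∃ j, k = j + 1 := by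
    rcases k with _ | k
    · exact absurd ⟨4 * c, by linarith⟩ hb'
    · exact ⟨k, rfl⟩
  have cb : IsCoprime (b' : O3) ss := by
    have := (Int.prime_two.coprime_iff_not_dvd.2 hb').symm.map (Int.castRingHom O3)
    simp only [eq_intCast, Int.cast_ofNat] at this
    rw [two_eq] at this
    exact (IsCoprime.pow_right_iff two_pos).1 this.of_mul_right_right
  have hb1 : (b : O3) = (lam * ss ^ 2) ^ (j + 1) * b' := by rw [hk, ← two_eq]; push_cast; rfl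
  have hb2 : (b : O3) = (lam * ss ^ 2) ^ 3 * c := by rw [hc, ← two_eq]; push_cast; norm_num
  have cB : IsCoprime B ss := (IsCoprime.pow_left_iff two_pos).1 (hB ▸ cs)
  obtain ⟨κ, hκ⟩ : ∃ κ : O3, κ = ⟨-349, -62, -104⟩ := ⟨_, rfl⟩
  have cκ : IsCoprime κ ss := ⟨-eta ^ 2, 0, by rw [hκ]; decide +kernel⟩
  have e1 : A ^ 2 - B ^ 2 = ss ^ 5 * κ * b := by
    rw [← hA, ← hB, hκ, show ss ^ 5 * ⟨-349, -62, -104⟩ = ⟨3, 2, 1⟩ by decide +kernel, intCast_eq]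
    ext <;> simp <;> ring
  have e2 : adj A ^ 2 = (a : O3) ^ 2 + ⟨2, -1, -1⟩ * a * b + ⟨2, -2, 0⟩ * b ^ 2 := by
    rw [show adj A ^ 2 = adj (A ^ 2) by simp only [adj, pow_two]; ext <;> simp <;> ring, ← hA]
    simp only [intCast_eq, adj, pow_two]; ext <;> simp <;> ring
  have e3 : B ^ 2 = a - ss * b := by rw [← hB]; simp only [intCast_eq, ss]; ext <;> simp
  have e4 : ss ^ 6 * adj A ^ 2 = eta ^ 3 * A ^ 4 + tt * pp ^ 3 * B ^ 4 := by
    rw [e2, show A ^ 4 = (A ^ 2) ^ 2 by ring, show B ^ 4 = (B ^ 2) ^ 2 by ring, ← hA, ← hB,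
      show ss ^ 6 = ⟨1, 18, -33⟩ by decide +kernel, show eta ^ 3 = ⟨25, -33, -15⟩ by decide +kernel,
      show tt * pp ^ 3 = ⟨-24, 51, -18⟩ by decide +kernel]
    simp only [intCast_eq, pow_two]; ext <;> simp <;> ring
  obtain ⟨U, V, g1, g2, g3, g4⟩ := halfs B A (ss * κ * b) cB (by rw [e1]; ring)
  obtain ⟨U', V', g5, -, -, g6⟩ := halfs (B ^ 2) (adj A) (lam ^ 3 * ss ^ 2 * c *
    ((⟨2, -1, -1⟩ + 2 * ss) * a + (⟨2, -2, 0⟩ - ss ^ 2) * b)) cB.pow_left (by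
      rw [e2, e3]
      linear_combination ((⟨2, -1, -1⟩ + 2 * ss) * a + (⟨2, -2, 0⟩ - ss ^ 2) * b : O3) * hb2)
  obtain ⟨δ, rfl⟩ : ss ^ (2 * j + 3) ∣ V := g1.symm.pow_left.dvd_of_dvd_mul_left
    ⟨κ * lam ^ (j + 1) * b', by rw [g3, hb1]; ring⟩
  have g7 : U * δ = κ * lam ^ (j + 1) * b' :=
    mul_left_cancel₀ (pow_ne_zero (2 * j + 3) ss_prime.ne_zero) (by
      rw [hb1] at g3; linear_combination g3)
  have cδ : IsCoprime δ ss :=
    ((cκ.mul_left lam_cop.pow_left).mul_left cb).of_isCoprime_of_dvd_left ⟨U, by rw [← g7]; ring⟩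
  have fin : ∀ α γ : O3, α ^ 2 = A ^ 2 → γ ^ 2 = adj A ^ 2 → α + B = ss ^ 2 * U →
      γ + B ^ 2 = ss ^ 2 * U' → False := by
    intro α γ f1 f2 f3 f4
    have f5 : ss ^ 6 = eta ^ 3 + tt * pp ^ 3 := by decide +kernel
    have f6 : D1 * eta ^ 4 = -(lam ^ 2 * (eta ^ 3 * (tt * pp ^ 3))) := by decide +kernel
    have id := quartic_id (eta ^ 3) (tt * pp ^ 3) (ss ^ 3) (ss ^ 3 * γ) α B (by rw [← f5]; ring)
      (by rw [mul_pow, f2, show α ^ 4 = (α ^ 2) ^ 2 by ring, f1]; linear_combination e4)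
    have f7 : α - B = ss ^ 5 * (ss ^ (2 * j) * δ) := by
      linear_combination f3 + ss ^ 2 * g2 - B * two_eq
    have f8 : ss ^ 3 * (ss ^ 3 * γ) + eta ^ 3 * α ^ 2 + tt * pp ^ 3 * B ^ 2 =
        ss ^ 8 * (U' + ss * (eta ^ 3 * κ * lam ^ 3 * ss ^ 2 * c)) := by
      linear_combination ss ^ 6 * f4 - B ^ 2 * f5 + eta ^ 3 * f1 + eta ^ 3 * e1 +
        eta ^ 3 * ss ^ 5 * κ * hb2
    rw [f7, f8, two_eq] at id
    have cM := g5.add_mul_left_left (eta ^ 3 * κ * lam ^ 3 * ss ^ 2 * c)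
    generalize U' + ss * (eta ^ 3 * κ * lam ^ 3 * ss ^ 2 * c) = M at id cM
    generalize ss ^ 3 * (eta ^ 3 * α ^ 3 + tt * pp ^ 3 * B ^ 3) +
      ss ^ 3 * γ * (eta ^ 3 * α + tt * pp ^ 3 * B) = H at id
    obtain ⟨Y, -, hY⟩ := sq_div (ss ^ 11)
      (lam * M * ((lam * M) ^ 2 + D1 * (ss ^ (2 * j + 1) * (eta * δ)) ^ 4)) (lam ^ 2 * H)
      (pow_ne_zero _ ss_prime.ne_zero) (mul_left_cancel₀ (pow_ne_zero 2 ss_prime.ne_zero) (by
        linear_combination (-lam ^ 3) * id + ss ^ 28 * lam * M * (ss ^ (2 * j) * δ) ^ 4 * f6))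
    exact desc5 j ⟨lam * M, eta * δ, Y, lam_cop.mul_left cM,
      IsCoprime.mul_left ⟨1, -⟨2, 0, 1⟩, by decide +kernel⟩ cδ, hY.symm⟩
  rcases g4 with g4 | g4 <;> rcases g6 with g6 | g6
  · exact fin A (adj A) rfl rfl g4 g6
  · exact fin A (-adj A) rfl (by ring) g4 g6
  · exact fin (-A) (adj A) (by ring) rfl g4 g6
  · exact fin (-A) (-adj A) (by ring) (by ring) g4 g6

end O3

abbrev R2 := QuadraticAlgebra ℤ 2 0

lemma R2_norm_zero : ∀ (n : ℕ) (z : R2), z.re.natAbs + z.im.natAbs ≤ n → z.norm = 0 → z = 0 := by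
  intro n
  induction n with
  | zero => intro z h _; ext <;> simp <;> omega
  | succ n ih =>
    rintro ⟨x, y⟩ h h0
    simp only [norm_def] at h h0
    obtain ⟨x, rfl⟩ : 2 ∣ x := Int.prime_two.dvd_of_dvd_pow (n := 2) ⟨y * y, by linarith⟩
    obtain ⟨y, rfl⟩ : 2 ∣ y := Int.prime_two.dvd_of_dvd_pow (n := 2) ⟨x * x, by linarith⟩
    by_cases hz : x = 0 ∧ y = 0
    · obtain ⟨rfl, rfl⟩ := hz; ext <;> simp
    · have := ih ⟨x, y⟩ (by simp only; omega) (by simp only [norm_def]; linarith)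
      exact absurd ⟨congrArg re this, congrArg im this⟩ hz

instance : IsDomain R2 := quad_domain 2 0 fun z => R2_norm_zero _ z le_rfl

instance : IsPrincipalIdealRing R2 := quad_pid 2 0 (fun z => R2_norm_zero _ z le_rfl) (by
  intro x y hx hy
  obtain ⟨h1, h2⟩ := abs_le.1 hx
  obtain ⟨h3, h4⟩ := abs_le.1 hy
  push_cast
  rw [abs_lt]
  constructor <;> nlinarith [mul_nonneg (sub_nonneg.2 h1) (sub_nonneg.2 h2),
    mul_nonneg (sub_nonneg.2 h3) (sub_nonneg.2 h4), sq_nonneg x, sq_nonneg y])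

lemma R2_units : ∀ (n : ℕ) (z : R2), z.re.natAbs + z.im.natAbs ≤ n → z.norm ^ 2 = 1 →
    ∃ v : R2, z = v ^ 3 ∨ z = ⟨1, 1⟩ * v ^ 3 ∨ z = ⟨-1, 1⟩ * v ^ 3 := by
  intro n
  have hp : (⟨1, 1⟩ : R2) * ⟨-1, 1⟩ = 1 := by decide
  have up : ∀ e f z : R2, e * f = 1 → (∃ v : R2, z = v ^ 3 ∨ z = e * v ^ 3 ∨ z = f * v ^ 3) →
      ∃ v : R2, e * z = v ^ 3 ∨ e * z = e * v ^ 3 ∨ e * z = f * v ^ 3 := by
    rintro e f z h ⟨v, rfl | rfl | rfl⟩
    · exact ⟨v, Or.inr (Or.inl rfl)⟩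
    · exact ⟨e * v, Or.inr (Or.inr (by linear_combination (-e ^ 2 * v ^ 3) * h))⟩
    · exact ⟨v, Or.inl (by linear_combination v ^ 3 * h)⟩
  induction n with
  | zero =>
    rintro ⟨x, y⟩ h h0
    obtain rfl : x = 0 := by simp only at h; omega
    obtain rfl : y = 0 := by simp only at h; omega
    simp [norm_def] at h0
  | succ n ih =>
    rintro ⟨x, y⟩ h h0
    simp only [norm_def] at h h0
    have h1 : x * x - 2 * (y * y) = 1 ∨ x * x - 2 * (y * y) = -1 := by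
      rcases sq_eq_one_iff.1 h0 with h | h
      · left; linarith
      · right; linarith
    rcases eq_or_ne y 0 with rfl | hy
    · have : x = 1 ∨ x = -1 :=
        mul_self_eq_one_iff.1 (by rcases h1 with h | h <;> nlinarith [mul_self_nonneg x])
      rcases this with rfl | rfl
      · exact ⟨1, by decide⟩
      · exact ⟨-1, by decide⟩
    have h2 : |y| ≤ |x| ∧ |x| < 2 * |y| := by
      have a1 := abs_mul_abs_self x
      have a2 := abs_mul_abs_self y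
      have a3 : 1 ≤ |y| := Int.one_le_abs hy
      have a4 := abs_nonneg x
      constructor <;> by_contra hc <;> push Not at hc <;> rcases h1 with h | h <;> nlinarith
    rw [Int.abs_eq_natAbs, Int.abs_eq_natAbs] at h2
    by_cases hs : (0 < x ∧ 0 < y) ∨ (x < 0 ∧ y < 0)
    · have := up _ _ _ hp (ih ⟨2 * y - x, x - y⟩ (by simp only; omega)
        (by simp only [norm_def]; linear_combination h0))
      rwa [show (⟨1, 1⟩ : R2) * ⟨2 * y - x, x - y⟩ = ⟨x, y⟩ by ext <;> simp <;> ring] at this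
    · obtain ⟨v, hv⟩ := ih ⟨x + 2 * y, x + y⟩ (by simp only; omega)
        (by simp only [norm_def]; linear_combination h0)
      obtain ⟨w, hw⟩ := up _ _ _ (by rw [mul_comm]; exact hp) ⟨v, hv.imp_right Or.symm⟩
      rw [show (⟨-1, 1⟩ : R2) * ⟨x + 2 * y, x + y⟩ = ⟨x, y⟩ by ext <;> simp <;> ring] at hw
      exact ⟨w, hw.imp_right Or.symm⟩

lemma third (x y z : ℤ) (hc : IsCoprime z (2 * y)) (h : y ^ 4 - 2 * x ^ 4 = z ^ 3) :
    ∃ a b : ℤ, (y ^ 2 = a * (a ^ 2 + 6 * b ^ 2) ∧ x ^ 2 = b * (3 * a ^ 2 + 2 * b ^ 2)) ∨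
      ∃ σ : ℤ, (σ = 1 ∨ σ = -1) ∧
        σ * (a ^ 3 + 6 * a ^ 2 * b + 6 * a * b ^ 2 + 4 * b ^ 3) = y ^ 2 ∧
        a ^ 3 + 3 * a ^ 2 * b + 6 * a * b ^ 2 + 2 * b ^ 3 = x ^ 2 := by
  obtain ⟨u, v, huv⟩ : IsCoprime (z ^ 3) (2 * y ^ 2) :=
    (hc.of_mul_right_left.mul_right hc.of_mul_right_right.pow_right).pow_left
  have hcop : IsCoprime (⟨y ^ 2, x ^ 2⟩ : R2) ⟨y ^ 2, -x ^ 2⟩ := by
    refine ⟨⟨u, 0⟩ * ⟨y ^ 2, -x ^ 2⟩ + ⟨v, 0⟩, ⟨v, 0⟩, ?_⟩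
    ext <;> simp
    · linear_combination huv + u * h
    · ring
  obtain ⟨d, e, he⟩ := exists_associated_pow_of_mul_eq_pow' (c := ⟨z, 0⟩) (k := 3) hcop
    (by ext <;> simp [pow_succ] <;> linarith)
  have hn : (e : R2).norm ^ 2 = 1 := by
    rcases Int.isUnit_iff.1 (isUnit_iff_norm_isUnit.1 e.isUnit) with h | h <;> rw [h] <;> norm_num
  obtain ⟨w, hw⟩ := R2_units _ e le_rfl hn
  have h3 : (⟨y ^ 2, x ^ 2⟩ : R2) = (w * d) ^ 3 ∨ (⟨y ^ 2, x ^ 2⟩ : R2) = ⟨1, 1⟩ * (w * d) ^ 3 ∨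
      (⟨y ^ 2, x ^ 2⟩ : R2) = ⟨-1, 1⟩ * (w * d) ^ 3 := by
    rw [← he]
    rcases hw with hw | hw | hw <;> rw [hw]
    · left; ring
    · right; left; ring
    · right; right; ring
  generalize w * d = g at h3
  obtain ⟨a, b⟩ := g
  rcases h3 with h3 | h3 | h3 <;> have e1 := congrArg re h3 <;> have e2 := congrArg im h3 <;>
    simp only [pow_succ, pow_zero, one_mul, re_mul, im_mul] at e1 e2
  · exact ⟨a, b, Or.inl ⟨by linarith, by linarith⟩⟩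
  · exact ⟨a, b, Or.inr ⟨1, Or.inl rfl, by linarith, by linarith⟩⟩
  · exact ⟨a, -b, Or.inr ⟨-1, Or.inr rfl, by linarith, by linarith⟩⟩

lemma split2 (p q : ℤ) (i j : ℕ) (hp : Prime p) (hq : Prime q) (A B t : ℤ) (hc : IsCoprime A B)
    (h : A * B = p ^ i * q ^ j * t ^ 4) :
    ∃ m n σ : ℤ, (σ = 1 ∨ σ = -1) ∧ t ^ 2 = (m * n) ^ 2 ∧ IsCoprime m n ∧
      ((A = σ * m ^ 4 ∧ B = p ^ i * q ^ j * (σ * n ^ 4)) ∨
       (A = p ^ i * q ^ j * (σ * m ^ 4) ∧ B = σ * n ^ 4) ∨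
       (A = p ^ i * (σ * m ^ 4) ∧ B = q ^ j * (σ * n ^ 4)) ∨
       (A = q ^ j * (σ * m ^ 4) ∧ B = p ^ i * (σ * n ^ 4))) := by
  have pp : ∀ (p : ℤ) (k : ℕ) (A B : ℤ), Prime p → IsCoprime A B → p ^ k ∣ A * B →
      p ^ k ∣ A ∨ p ^ k ∣ B := by
    intro p k A B hp hc h
    by_cases h1 : p ∣ A
    · exact Or.inl ((hc.of_isCoprime_of_dvd_left h1).pow_left.dvd_of_dvd_mul_right h)
    · exact Or.inr ((hp.coprime_iff_not_dvd.2 h1).pow_left.dvd_of_dvd_mul_left h)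
  have fin : ∀ A B : ℤ, IsCoprime A B → p ^ i * q ^ j * (A * B) = p ^ i * q ^ j * t ^ 4 →
      ∃ m n σ : ℤ, (σ = 1 ∨ σ = -1) ∧
      t ^ 2 = (m * n) ^ 2 ∧ IsCoprime m n ∧ A = σ * m ^ 4 ∧ B = σ * n ^ 4 := by
    intro A B hc h
    obtain ⟨m, n, σ, h1, rfl, rfl, h2⟩ := fourth A B t hc
      (mul_left_cancel₀ (mul_ne_zero (pow_ne_zero i hp.ne_zero) (pow_ne_zero j hq.ne_zero)) h)
    exact ⟨m, n, σ, h1, h2, (IsCoprime.pow_iff (by norm_num) (by norm_num)).1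
      hc.of_mul_left_right.of_mul_right_right, rfl, rfl⟩
  have p0 := pow_ne_zero i hp.ne_zero
  rcases pp p i A B hp hc ⟨q ^ j * t ^ 4, by linarith⟩ with ⟨A, rfl⟩ | ⟨B, rfl⟩
  · have hc := hc.of_mul_left_right
    rcases pp q j A B hq hc ⟨t ^ 4, mul_left_cancel₀ p0 (by linarith)⟩ with ⟨A, rfl⟩ | ⟨B, rfl⟩
    · obtain ⟨m, n, σ, h1, h2, h3, rfl, rfl⟩ := fin A B hc.of_mul_left_right (by linarith)
      exact ⟨m, n, σ, h1, h2, h3, Or.inr (Or.inl ⟨by ring, rfl⟩)⟩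
    · obtain ⟨m, n, σ, h1, h2, h3, rfl, rfl⟩ := fin A B hc.of_mul_right_right (by linarith)
      exact ⟨m, n, σ, h1, h2, h3, Or.inr (Or.inr (Or.inl ⟨by ring, by ring⟩))⟩
  · have hc := hc.of_mul_right_right
    rcases pp q j A B hq hc ⟨t ^ 4, mul_left_cancel₀ p0 (by linarith)⟩ with ⟨A, rfl⟩ | ⟨B, rfl⟩
    · obtain ⟨m, n, σ, h1, h2, h3, rfl, rfl⟩ := fin A B hc.of_mul_left_right (by linarith)
      exact ⟨m, n, σ, h1, h2, h3, Or.inr (Or.inr (Or.inr ⟨by ring, by ring⟩))⟩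
    · obtain ⟨m, n, σ, h1, h2, h3, rfl, rfl⟩ := fin A B hc.of_mul_right_right (by linarith)
      exact ⟨m, n, σ, h1, h2, h3, Or.inl ⟨rfl, by ring⟩⟩

lemma quartic6 : ∀ (k : ℕ) (r s v : ℤ), s.natAbs ≤ k → IsCoprime r s → ¬ 2 ∣ r → ¬ 3 ∣ r →
    v ^ 2 = r ^ 4 + 6 * s ^ 4 → s = 0 := by
  intro k
  induction k with
  | zero => intro r s v h _ _ _ _; omega
  | succ k ih =>
  intro r s v hk hrs h2 h3 h
  have c6 : ∀ r s : ℤ, IsCoprime r s → ¬ 2 ∣ r → ¬ 3 ∣ r → ∀ i : ℕ,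
      IsCoprime (r ^ 2) (2 ^ i * 3 ^ 1 * s ^ 4) := fun r s h h2 h3 i =>
    (((Int.prime_two.coprime_iff_not_dvd.2 h2).symm.pow_right.mul_right
      (Int.prime_three.coprime_iff_not_dvd.2 h3).symm.pow_right).mul_right h.pow_right).pow_left
  have s4 : ∀ r : ℤ, ¬ 2 ∣ r → r ^ 4 % 8 = 1 := fun r h => by
    rw [show r ^ 4 = (r ^ 2) ^ 2 by ring]
    exact sq8 _ fun h' => h (Int.prime_two.dvd_of_dvd_pow h')
  have m3 : ∀ r m n : ℤ, r ^ 2 = -m ^ 4 + 3 * n → 3 ∣ r := fun r m n h => by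
    have g := congrArg (Int.cast : ℤ → ZMod 3) h
    push_cast at g
    refine (dvd_iff 3 r).1 ?_
    revert g
    generalize (r : ZMod 3) = r; generalize (m : ZMod 3) = m; generalize (n : ZMod 3) = n
    revert r m n; decide
  have e1 := s4 r h2
  have e2 := sq8 r h2
  have hv : ¬ 2 ∣ v := by
    rintro ⟨v, rfl⟩
    rw [mul_pow] at h; omega
  have e3 := sq8 v hv
  obtain ⟨s, rfl⟩ : 2 ∣ s := by
    by_contra hs
    have := s4 s hs
    omega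
  obtain ⟨A, hA⟩ : 2 ∣ v - r ^ 2 := by omega
  have hAB : A * (A + r ^ 2) = 2 ^ 3 * 3 ^ 1 * s ^ 4 := by
    have : 2 * A * (2 * A + 2 * r ^ 2) = 96 * s ^ 4 := by rw [← hA]; linear_combination h
    linarith
  have hcop : IsCoprime A (A + r ^ 2) := by
    have := ((c6 r s hrs.of_mul_right_right h2 h3 3).of_isCoprime_of_dvd_right
      ⟨_, hAB.symm⟩).symm.add_mul_left_right 1
    rwa [mul_one, add_comm] at this
  obtain ⟨m, n, σ, hσ, ht, hmn, hcase⟩ :=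
    split2 2 3 3 1 Int.prime_two Int.prime_three _ _ _ hcop hAB
  have fin : ∀ m n : ℤ, s ^ 2 = (m * n) ^ 2 → IsCoprime m n → r ^ 2 = n ^ 4 - 24 * m ^ 4 →
      2 * s = 0 := by
    intro m n ht hmn hr
    have n2 : ¬ 2 ∣ n := by
      rintro ⟨n, rfl⟩
      rw [mul_pow] at hr; omega
    have n3 : ¬ 3 ∣ n := fun ⟨w, hw⟩ => h3 (Int.prime_three.dvd_of_dvd_pow (n := 2)
      ⟨27 * w ^ 4 - 8 * m ^ 4, by rw [hr, hw]; ring⟩)
    have e4 := sq8 n n2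
    obtain ⟨C, hC⟩ : 2 ∣ n ^ 2 - r := by omega
    have hCD : C * (n ^ 2 - C) = 2 ^ 1 * 3 ^ 1 * m ^ 4 := by
      have : 2 * C * (2 * n ^ 2 - 2 * C) = 24 * m ^ 4 := by rw [← hC]; linear_combination -hr
      linarith
    have hcop : IsCoprime C (n ^ 2 - C) := by
      have := ((c6 n m hmn.symm n2 n3 1).of_isCoprime_of_dvd_right
        ⟨_, hCD.symm⟩).symm.add_mul_left_right (-1)
      rwa [mul_neg_one, ← sub_eq_add_neg] at this
    obtain ⟨p, q, τ, hτ, hu, hpq, hcase⟩ :=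
      split2 2 3 1 1 Int.prime_two Int.prime_three _ _ _ hcop hCD
    have p4 : 0 ≤ p ^ 4 := by positivity
    have q4 : 0 ≤ q ^ 4 := by positivity
    have n0 : 0 < n ^ 2 := by have := sq_nonneg n; omega
    have fin2 : ∀ p q : ℤ, m ^ 2 = (p * q) ^ 2 → IsCoprime p q → n ^ 2 = p ^ 4 + 6 * q ^ 4 →
        2 * s = 0 := by
      intro p q hu hpq hn
      have p2 : ¬ 2 ∣ p := by
        rintro ⟨p, rfl⟩
        rw [mul_pow] at hn; omega
      have p3 : ¬ 3 ∣ p := fun ⟨w, hw⟩ => n3 (Int.prime_three.dvd_of_dvd_pow (n := 2)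
        ⟨27 * w ^ 4 + 2 * q ^ 4, by rw [hn, hw]; ring⟩)
      have e5 : s ^ 2 = (q * (p * n)) ^ 2 := by rw [ht, mul_pow, hu]; ring
      have e6 : s.natAbs = q.natAbs * (p * n).natAbs := by
        rw [← Int.natAbs_mul]; exact Int.natAbs_eq_iff_sq_eq.2 e5
      have e7 : 0 < (p * n).natAbs := Int.natAbs_pos.2
        (mul_ne_zero (by rintro rfl; simp at p2) (by rintro rfl; simp at n2))
      have e8 : q.natAbs ≤ s.natAbs := e6 ▸ Nat.le_mul_of_pos_right _ e7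
      by_contra s0
      obtain rfl := ih p q n (by omega) hpq p2 p3 hn
      simp at e6
      omega
    rcases hτ with rfl | rfl <;> rcases hcase with ⟨g1, g⟩ | ⟨g1, g⟩ | ⟨g1, g⟩ | ⟨g1, g⟩
    · exact fin2 p q hu hpq (by linarith)
    · exact fin2 q p (by rw [hu]; ring) hpq.symm (by linarith)
    · exact absurd (m3 n p (p ^ 4 + q ^ 4) (by linarith)) n3
    · exact absurd (m3 n q (p ^ 4 + q ^ 4) (by linarith)) n3
    all_goals linarith
  have m8 : ∀ m n : ℤ, r ^ 2 ≠ 3 * n ^ 4 - 8 * m ^ 4 := fun m n g => by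
    by_cases hn : 2 ∣ n
    · obtain ⟨n, rfl⟩ := hn
      rw [mul_pow] at g; omega
    · have := s4 n hn; omega
  rcases hσ with rfl | rfl <;> rcases hcase with ⟨g1, g⟩ | ⟨g1, g⟩ | ⟨g1, g⟩ | ⟨g1, g⟩
  · exact absurd (m3 r m (8 * n ^ 4) (by linarith)) h3
  · exact fin m n ht hmn (by linarith)
  · exact absurd (by linarith) (m8 m n)
  · exact absurd (m3 r n (3 * n ^ 4 - m ^ 4) (by linarith)) h3
  · exact fin n m (by rw [ht]; ring) hmn.symm (by linarith)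
  · exact absurd (m3 r n (8 * m ^ 4) (by linarith)) h3
  · exact absurd (m3 r m (3 * m ^ 4 - n ^ 4) (by linarith)) h3
  · exact absurd (by linarith) (m8 n m)

lemma plain5 (a b x y : ℤ) (hab : IsCoprime a b) (ha : ¬ 2 ∣ a)
    (hy : y ^ 2 = a * (a ^ 2 + 6 * b ^ 2)) (hx : x ^ 2 = b * (3 * a ^ 2 + 2 * b ^ 2)) : b = 0 := by
  have a2 : IsCoprime a 2 := (Int.prime_two.coprime_iff_not_dvd.2 ha).symm
  have a0 : 0 < a ^ 2 := sq_pos_of_ne_zero (by rintro rfl; simp at ha)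
  have k3 : ∀ a b w : ℤ, a ≠ 0 → ¬ 3 ∣ b →
      ¬ (3 * a ^ 2 + 2 * b ^ 2 = w ^ 2 ∨ 3 * a ^ 2 + 2 * b ^ 2 = -w ^ 2) := by
    rintro a b w a0 hb (h | h)
    · have g := congrArg (Int.cast : ℤ → ZMod 3) h
      push_cast at g
      refine hb ((dvd_iff 3 b).1 ?_)
      revert g
      generalize (a : ZMod 3) = a; generalize (b : ZMod 3) = b; generalize (w : ZMod 3) = w
      revert a b w; decide
    · nlinarith [sq_nonneg b, sq_nonneg w, sq_pos_of_ne_zero a0]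
  have h3 : ¬ 3 ∣ a := by
    rintro ⟨a, rfl⟩
    obtain ⟨y, rfl⟩ : 3 ∣ y := Int.prime_three.dvd_of_dvd_pow (n := 2) ⟨_, by rw [hy, mul_assoc]⟩
    have hc : IsCoprime (3 * a ^ 2 + 2 * b ^ 2) a := by
      rw [show 3 * a ^ 2 + 2 * b ^ 2 = 2 * b ^ 2 + a * (3 * a) by ring]
      exact (a2.mul_right hab.pow_right).of_mul_left_right.symm.add_mul_left_left _
    obtain ⟨w, hw⟩ := Int.sq_of_isCoprime (c := y) hc (by linarith)
    exact k3 a b w (by rintro rfl; simp at ha)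
      (fun h => Int.prime_three.not_isUnit (hab.isUnit_of_dvd' ⟨a, rfl⟩ h)) hw
  have a3 : IsCoprime a 3 := (Int.prime_three.coprime_iff_not_dvd.2 h3).symm
  obtain ⟨b, rfl⟩ : 3 ∣ b := by
    by_contra hb
    have hc : IsCoprime (3 * a ^ 2 + 2 * b ^ 2) b := by
      rw [show 3 * a ^ 2 + 2 * b ^ 2 = 3 * a ^ 2 + b * (2 * b) by ring]
      exact ((Int.prime_three.coprime_iff_not_dvd.2 hb).mul_left hab.pow_left).add_mul_left_left _
    obtain ⟨w, hw⟩ := Int.sq_of_isCoprime (c := x) hc (by linarith)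
    exact k3 a b w (by rintro rfl; simp at ha) hb hw
  obtain ⟨x, rfl⟩ : 3 ∣ x := Int.prime_three.dvd_of_dvd_pow (n := 2) ⟨_, by rw [hx, mul_assoc]⟩
  have hc : IsCoprime a (a ^ 2 + 6 * (3 * b) ^ 2) := by
    rw [show a ^ 2 + 6 * (3 * b) ^ 2 = 2 * 3 * (3 * b) ^ 2 + a * a by ring]
    exact ((a2.mul_right a3).mul_right hab.pow_right).add_mul_left_right _
  obtain ⟨r, hr⟩ := Int.sq_of_isCoprime hc hy.symm
  have hr4 : a ^ 2 = r ^ 4 := by rcases hr with rfl | rfl <;> ring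
  have hd : IsCoprime (a ^ 2 + 6 * b ^ 2) b := by
    rw [show a ^ 2 + 6 * b ^ 2 = a ^ 2 + b * (6 * b) by ring]
    exact hab.of_mul_right_right.pow_left.add_mul_left_left _
  obtain ⟨v, hv⟩ := Int.sq_of_isCoprime (c := x) hd (by linarith)
  obtain ⟨s, hs⟩ := Int.sq_of_isCoprime (c := x) hd.symm (by linarith)
  have hs4 : b ^ 2 = s ^ 4 := by rcases hs with rfl | rfl <;> ring
  have hv := hv.resolve_right fun h => by nlinarith [sq_nonneg b, sq_nonneg v]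
  have cc : ∀ t : ℤ, IsCoprime a t → IsCoprime r t := fun t h =>
    (IsCoprime.pow_left_iff (by norm_num : 0 < 4)).1 (hr4 ▸ h.pow_left)
  have := quartic6 _ r s v le_rfl ((IsCoprime.pow_right_iff (by norm_num : 0 < 4)).1
      (hs4 ▸ (cc b hab.of_mul_right_right).pow_right))
    (Int.prime_two.coprime_iff_not_dvd.1 (cc 2 a2).symm)
    (Int.prime_three.coprime_iff_not_dvd.1 (cc 3 a3).symm) (by rw [← hv, hr4, hs4])
  subst this
  simpa using hs4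

theorem E5 (x y z : ℤ) (hg : Int.gcd (Int.gcd x y) z = 1) (h : 2 * x ^ 4 - y ^ 4 + z ^ 3 = 0) :
    (y = 1 ∨ y = -1) ∧ ((x = 0 ∧ z = 1) ∨ ((x = 1 ∨ x = -1) ∧ z = -1)) := by
  have hp : ∀ p : ℤ, Prime p → p ∣ x → p ∣ y → ¬ p ∣ z := fun p hp h1 h2 h3 =>
    hp.not_isUnit (isUnit_of_dvd_one (by
      have := Int.dvd_coe_gcd (Int.dvd_coe_gcd h1 h2) h3
      rwa [hg] at this))
  have hy2 : ¬ 2 ∣ y := by
    rintro ⟨y, rfl⟩
    obtain ⟨z, rfl⟩ : 2 ∣ z := Int.prime_two.dvd_of_dvd_pow (n := 3) ⟨8 * y ^ 4 - x ^ 4, by linarith⟩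
    exact hp 2 Int.prime_two (Int.prime_two.dvd_of_dvd_pow (n := 4)
      ⟨4 * y ^ 4 - 2 * z ^ 3, by linarith⟩) ⟨y, rfl⟩ ⟨z, rfl⟩
  have hz2 : ¬ 2 ∣ z := by
    rintro ⟨z, rfl⟩
    exact hy2 (Int.prime_two.dvd_of_dvd_pow (n := 4) ⟨x ^ 4 + 4 * z ^ 3, by linarith⟩)
  have hzy : IsCoprime z y := by
    refine isCoprime_of_prime_dvd (fun h0 => hy2 (by simp [h0.2])) fun p hp' p0 p1 => ?_
    have h1 : p ∣ 2 * x ^ 4 := by
      rw [show 2 * x ^ 4 = y * y ^ 3 - z * z ^ 2 by linarith]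
      exact (p1.mul_right _).sub (p0.mul_right _)
    rcases hp'.dvd_or_dvd h1 with h2 | h2
    · exact hy2 (((Prime.dvd_prime_iff_associated hp' Int.prime_two).1 h2).symm.dvd.trans p1)
    · exact hp p hp' (hp'.dvd_of_dvd_pow h2) p1 p0
  have hxy : ∀ p : ℤ, Prime p → p ∣ x ^ 2 → ¬ p ∣ y ^ 2 := fun p hp' p0 p1 =>
    hp p hp' (hp'.dvd_of_dvd_pow p0) (hp'.dvd_of_dvd_pow p1) (hp'.dvd_of_dvd_pow (n := 3) (by
      rw [show z ^ 3 = y ^ 2 * y ^ 2 - x ^ 2 * (2 * x ^ 2) by linarith]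
      exact (p1.mul_right _).sub (p0.mul_right _)))
  have cube : ∀ t : ℤ, z ^ 3 = t ^ 3 → z = t := fun t => (Odd.pow_inj (n := 3) (by decide)).1
  have y0 : y ^ 2 ≠ 0 := fun h0 => hy2 (by simp [pow_eq_zero_iff two_ne_zero |>.1 h0])
  obtain ⟨a, b, ⟨h1, h2⟩ | ⟨σ, hσ, h1, h2⟩⟩ := third x y z
    ((Int.prime_two.coprime_iff_not_dvd.2 hz2).symm.mul_right hzy) (by linarith)
  · have hab : IsCoprime a b := isCoprime_of_prime_dvd (fun h0 => y0 (by rw [h1, h0.1]; ring))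
      fun p hp' p0 p1 => hxy p hp' (h2 ▸ p1.mul_right _) (h1 ▸ p0.mul_right _)
    obtain rfl := plain5 a b x y hab
      (fun h => hy2 (Int.prime_two.dvd_of_dvd_pow (h1 ▸ h.mul_right _))) h1 h2
    obtain rfl : x = 0 := by simpa using h2
    rcases Int.isUnit_iff.1 (isCoprime_zero_right.1 hab) with rfl | rfl
    · have h3 : y ^ 2 = 1 := by linarith
      exact ⟨sq_eq_one_iff.1 h3, Or.inl ⟨rfl, cube 1 (by linear_combination h + (y ^ 2 + 1) * h3)⟩⟩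
    · nlinarith [sq_nonneg y]
  · have hab : IsCoprime a b := by
      refine isCoprime_of_prime_dvd (fun h0 => y0 (by rw [← h1, h0.1, h0.2]; ring))
        fun p hp' p0 p1 => ?_
      obtain ⟨a, rfl⟩ := p0
      obtain ⟨b, rfl⟩ := p1
      exact hxy p hp' ⟨p ^ 2 * (a ^ 3 + 3 * a ^ 2 * b + 6 * a * b ^ 2 + 2 * b ^ 3), by
        rw [← h2]; ring⟩ ⟨σ * p ^ 2 * (a ^ 3 + 6 * a ^ 2 * b + 6 * a * b ^ 2 + 4 * b ^ 3), by
        rw [← h1]; ring⟩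
    obtain rfl := O3.twist5 a b x y σ hab (fun ⟨w, hw⟩ => hy2 (Int.prime_two.dvd_of_dvd_pow (n := 2)
      ⟨σ * (4 * w ^ 3 + 12 * w ^ 2 * b + 6 * w * b ^ 2 + 2 * b ^ 3), by rw [← h1, hw]; ring⟩)) hσ h1 h2
    rcases Int.isUnit_iff.1 (isCoprime_zero_right.1 hab) with rfl | rfl
    · have h3 : x ^ 2 = 1 := by linarith
      have h4 : y ^ 2 = 1 := by rcases hσ with rfl | rfl <;> nlinarith [sq_nonneg y]
      exact ⟨sq_eq_one_iff.1 h4, Or.inr ⟨sq_eq_one_iff.1 h3, cube (-1) (by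
        linear_combination h + (y ^ 2 + 1) * h4 - 2 * (x ^ 2 + 1) * h3)⟩⟩
    · nlinarith [sq_nonneg x]

end Pool.Agent.Lib.MP_ab8df0_nt
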