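import Pool.Agent.Lib.MP_ab8df0_nt.O3

/-! A descent on the curve `y ^ 2 = x ^ 3 - 3 (t ^ 2 + 4) x` over the cubic field of
discriminant `-216`, at the ramified prime above two. -/

namespace Pool.Agent.Lib.MP_ab8df0_nt

section PID

variable {R : Type*} [CommRing R] [IsDomain R] [IsPrincipalIdealRing R]

lemma sq_div (c Z H : R) (hc : c ≠ 0) (h : c ^ 2 * Z = H ^ 2) : ∃ Y, H = c * Y ∧ Z = Y ^ 2 := by
  obtain ⟨Y, rfl⟩ : c ∣ H := (IsIntegrallyClosed.pow_dvd_pow_iff two_ne_zero).1 ⟨Z, h.symm⟩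
  exact ⟨Y, rfl, mul_left_cancel₀ (pow_ne_zero 2 hc) (by rw [h]; ring)⟩

lemma reduce' (b : R) (D : R) : ∀ X Y : R, D ≠ 0 → Y ^ 2 = X * (X ^ 2 + b * D ^ 4) →
    ∃ g X' D' Y', X = g ^ 2 * X' ∧ D = g * D' ∧ IsCoprime X' D' ∧
      Y' ^ 2 = X' * (X' ^ 2 + b * D' ^ 4) := by
  induction D using (wellFounded_dvdNotUnit (α := R)).induction with
  | _ D ih =>
  intro X Y hD h
  by_cases hc : IsCoprime X D
  · exact ⟨1, X, D, Y, by ring, by ring, hc, h⟩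
  obtain ⟨p, hp, ⟨X, rfl⟩, ⟨D, rfl⟩⟩ : ∃ p : R, Prime p ∧ p ∣ X ∧ p ∣ D := by
    by_contra hn
    exact hc (isCoprime_of_prime_dvd (fun h => hD h.2) fun p hp h1 h2 => hn ⟨p, hp, h1, h2⟩)
  have p0 := hp.ne_zero
  obtain ⟨Y, -, h1⟩ := sq_div p (p * (X * (X ^ 2 + b * p ^ 2 * D ^ 4))) Y p0 (by rw [h]; ring)
  obtain ⟨Y, rfl⟩ : p ∣ Y := hp.dvd_of_dvd_pow (n := 2) ⟨_, h1.symm⟩
  have h2 : p * Y ^ 2 = X * (X ^ 2 + b * p ^ 2 * D ^ 4) :=
    mul_left_cancel₀ p0 (by linear_combination -h1)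
  obtain ⟨X, rfl⟩ : p ∣ X := hp.dvd_of_dvd_pow (n := 3)
    ⟨Y ^ 2 - b * p * D ^ 4 * X, by linear_combination -h2⟩
  obtain ⟨Y, -, h4⟩ := sq_div p (X * (X ^ 2 + b * D ^ 4)) Y p0
    (mul_left_cancel₀ p0 (by linear_combination -h2))
  have D0 : D ≠ 0 := right_ne_zero_of_mul hD
  obtain ⟨g, X', D', Y', rfl, rfl, h5, h6⟩ :=
    ih D ⟨D0, p, hp.not_isUnit, mul_comm _ _⟩ X Y D0 h4.symm
  exact ⟨p * g, X', D', Y', by ring, by ring, h5, h6⟩

end PID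

namespace O3

/-- the unramified prime above two -/
def tt : O3 := ⟨0, 1, 0⟩
/-- the ramified prime above two -/
def ss : O3 := ⟨-1, 1, 0⟩
/-- the prime above three -/
def pp : O3 := ⟨-1, 2, 0⟩
/-- two over the square of `ss` -/
def lam : O3 := ⟨10, 2, 3⟩
/-- the coefficient of the curve -/
def D1 : O3 := ⟨-12, 0, -3⟩
/-- the class of `D1` -/
def d0 : O3 := ⟨2, 2, -9⟩
/-- the square root of `D1 / d0` -/
def kap : O3 := ⟨40, 7, 12⟩

lemma copr (p : O3) (q r : ℤ) (hq : Prime q) (h1 : p ∣ (q : O3)) (h2 : p ∣ tt - r) (x : O3)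
    (hx : ¬ p ∣ x) : IsCoprime x p := by
  have e : x = ((x.a + x.b * r + x.c * r ^ 2 : ℤ) : O3) + (tt - r) * (x.b + x.c * (tt + r)) := by
    simp only [intCast_eq, tt]; ext <;> simp <;> ring
  obtain ⟨w, hw⟩ := h2
  generalize x.a + x.b * r + x.c * r ^ 2 = n at e
  have hn : ¬ q ∣ n := by
    rintro ⟨m, rfl⟩
    refine hx ?_
    rw [e, hw, mul_assoc]; push_cast
    exact (h1.mul_right _).add (dvd_mul_right _ _)
  have h3 := (hq.coprime_iff_not_dvd.2 hn).symm.map (Int.castRingHom O3)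
  simp only [eq_intCast] at h3
  rw [e, hw, mul_assoc]
  exact (h3.of_isCoprime_of_dvd_right h1).add_mul_left_left _

lemma copt (x : O3) (hx : ¬ tt ∣ x) : IsCoprime x tt :=
  copr tt 2 0 Int.prime_two ⟨⟨3, 0, 1⟩, by decide⟩ ⟨1, by decide⟩ x hx
lemma cops (x : O3) (hx : ¬ ss ∣ x) : IsCoprime x ss :=
  copr ss 2 1 Int.prime_two ⟨⟨-4, -1, -1⟩, by decide⟩ ⟨1, by decide⟩ x hx
lemma copp (x : O3) (hx : ¬ pp ∣ x) : IsCoprime x pp :=
  copr pp 3 (-1) Int.prime_three ⟨⟨13, 2, 4⟩, by decide⟩ ⟨⟨7, 1, 2⟩, by decide⟩ x hx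

lemma N_unit {x : O3} (h : IsUnit x) : N x = 1 ∨ N x = -1 := by
  obtain ⟨u, rfl⟩ := h
  exact Int.eq_one_or_neg_one_of_mul_eq_one (v := N ((u⁻¹ : O3ˣ) : O3))
    (by rw [← N_mul, Units.mul_inv, N_one])

lemma mk_prime (p : O3) (h0 : p ≠ 0) (h1 : ¬ (N p = 1 ∨ N p = -1))
    (cp : ∀ x, ¬ p ∣ x → IsCoprime x p) : Prime p :=
  ⟨h0, fun h => h1 (N_unit h), fun a b h => by
    by_cases h1 : p ∣ a
    · exact Or.inl h1
    · exact Or.inr ((cp a h1).symm.dvd_of_dvd_mul_left h)⟩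

lemma tt_prime : Prime tt := mk_prime _ (by decide) (by decide) copt
lemma ss_prime : Prime ss := mk_prime _ (by decide) (by decide) cops
lemma pp_prime : Prime pp := mk_prime _ (by decide) (by decide) copp

lemma ne0 {x : O3} (h : IsCoprime x ss) : x ≠ 0 := by
  rintro rfl
  exact ss_prime.not_isUnit (isCoprime_zero_left.1 h)

lemma two_eq : (2 : O3) = lam * ss ^ 2 := by decide
lemma lam_cop : IsCoprime lam ss := ⟨1, ⟨23, 4, 7⟩, by decide⟩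

lemma units4 (u : O3ˣ) : ∃ e ∈ [1, -1, eta, -eta], ∃ v, (u : O3) = e * v ^ 2 := by
  rcases N_unit u.isUnit with h | h
  · obtain ⟨v, hv | hv⟩ := unit_cases u h
    · exact ⟨1, by simp, v, by rw [hv]; ring⟩
    · exact ⟨eta, by simp, v, hv⟩
  · obtain ⟨v, hv | hv⟩ := unit_cases (-u) (by rw [N_neg, h]; rfl)
    · exact ⟨-1, by simp, v, by linear_combination -hv⟩
    · exact ⟨-eta, by simp, v, by linear_combination -hv⟩

/-- representatives of classes modulo squares -/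
def M16 : List O3 := [⟨1, 0, 0⟩, ⟨-1, 2, 0⟩, ⟨0, 1, 0⟩, ⟨0, -1, 2⟩, ⟨1, -1, -1⟩, ⟨-5, 9, -1⟩,
  ⟨-2, 4, -1⟩, ⟨-2, -2, 9⟩, ⟨-1, 0, 0⟩, ⟨1, -2, 0⟩, ⟨0, -1, 0⟩, ⟨0, 1, -2⟩, ⟨-1, 1, 1⟩, ⟨5, -9, 1⟩,
  ⟨2, -4, 1⟩, ⟨2, 2, -9⟩]

lemma clsM (X Z Y W c E : O3) (h2 : IsCoprime X ss) (hE : IsCoprime X E) (h : X * Z = Y ^ 2)
    (hZ : Z = X * W + c * E) (hc : c ∣ (tt * ss * pp) ^ 5) : ∃ d ∈ M16, ∃ A, X = d * A ^ 2 := by
  obtain ⟨u, A, hu⟩ := cls tt pp tt_prime.not_isUnit pp_prime.not_isUnit copt copp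
    X Z Y W (c * E) (ne0 h2) h hZ fun x hx h3 h5 =>
      IsCoprime.mul_right (IsCoprime.of_isCoprime_of_dvd_right
        (((h3.mul_right (h2.of_isCoprime_of_dvd_left hx)).mul_right h5).pow_right) hc)
        (hE.of_isCoprime_of_dvd_left hx)
  have key : ∀ e ∈ [1, -1, eta, -eta], ∀ p ∈ [1, tt, pp, tt * pp], e * p ∈ M16 := by decide
  have h3 : ∃ p ∈ [1, tt, pp, tt * pp], X = u * p * A ^ 2 := by
    rcases hu with hu | hu | hu | hu
    · exact ⟨1, by simp, by rw [hu]; ring⟩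
    · exact ⟨tt, by simp, hu⟩
    · exact ⟨pp, by simp, hu⟩
    · exact ⟨tt * pp, by simp, hu⟩
  obtain ⟨e, he, v, h1⟩ := units4 u
  obtain ⟨p, hp, h3⟩ := h3
  exact ⟨e * p, key e he p hp, v * A, by rw [h3, h1]; ring⟩

abbrev S8 := QuadraticAlgebra (ZMod 8) 1 2
abbrev S16 := QuadraticAlgebra (ZMod 16) 9 2

/-- reduction modulo the sixth power of `ss` -/
def r8 : O3 →+* S8 := ev ⟨0, 1⟩ (by decide)
/-- reduction modulo the eighth power of `ss` -/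
def r16 : O3 →+* S16 := ev ⟨0, 1⟩ (by decide)
/-- reduction modulo `pp` -/
def r3 : O3 →+* ZMod 3 := ev (-1) (by decide)

lemma inv_r {S : Type*} [CommRing S] (r : O3 →+* S) (n : ℕ) (h : r ss ^ n = 0) (x : O3)
    (hx : IsCoprime x ss) : ∃ e, e * r x = 1 := by
  obtain ⟨u, v, huv⟩ := hx.pow_right (n := n)
  have := congrArg r huv
  rw [map_add, map_mul, map_mul, map_pow, h, mul_zero, add_zero, map_one] at this
  exact ⟨_, this⟩

lemma r8_ss : r8 ss ^ 6 = 0 := by decide +kernel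
lemma r16_ss : r16 ss ^ 8 = 0 := by decide +kernel
lemma r3_pp : r3 pp = 0 := by decide +kernel

lemma r3_sq (x : O3) (hx : ¬ pp ∣ x) : r3 x ^ 2 = 1 := by
  obtain ⟨u, v, huv⟩ := copp x hx
  have := congrArg r3 huv
  rw [map_add, map_mul, map_mul, r3_pp, mul_zero, add_zero, map_one] at this
  revert this
  generalize r3 u = a; generalize r3 x = b
  revert a b; decide

lemma two_nsq (g : ZMod 3) : g ^ 2 ≠ 2 := by revert g; decide

lemma locA (d A Y W : O3) (hd : d ∈ M16) (hA : IsCoprime (d * A ^ 2) ss)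
    (h : Y ^ 2 = d * A ^ 2 * ((d * A ^ 2) ^ 2 + ss ^ 6 * W)) : d = 1 ∨ d = d0 := by
  obtain ⟨e, he⟩ := inv_r r8 6 r8_ss (A * (d * A ^ 2))
    (((IsCoprime.pow_left_iff two_pos).1 hA.of_mul_left_right).mul_left hA)
  have h1 := congrArg r8 h
  simp only [map_mul, map_add, map_pow, r8_ss] at h1 he
  have : ∀ d ∈ M16, ∀ x y : ZMod 8, r8 d = ⟨x, y⟩ * ⟨x, y⟩ → d = 1 ∨ d = d0 := by decide +kernel
  refine this d hd (r8 Y * e).re (r8 Y * e).im ?_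
  rw [QuadraticAlgebra.mk_eta]
  linear_combination (-e ^ 2) * h1 - r8 d * (e * (r8 A * (r8 d * r8 A ^ 2)) + 1) * he

lemma locB (d A Y W : O3) (hd : d ∈ M16) (hA : IsCoprime (d * A ^ 2) ss) (hW : IsCoprime W ss)
    (h : Y ^ 2 = d * A ^ 2 * ((d * A ^ 2) ^ 2 + ss ^ 4 * W)) : d = eta * tt ∨ d = -pp := by
  have hA' := (IsCoprime.pow_left_iff two_pos).1 hA.of_mul_left_right
  obtain ⟨e, he⟩ := inv_r r8 6 r8_ss (A * (d * A ^ 2)) (hA'.mul_left hA)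
  obtain ⟨f, hf⟩ := inv_r r8 6 r8_ss (W * A ^ 2) (hW.mul_left hA'.pow_left)
  have h1 := congrArg r8 h
  have h4 : r8 ss ^ 4 = 4 := by decide +kernel
  simp only [map_mul, map_add, map_pow, h4] at h1 he hf
  have : ∀ p q : ZMod 8, (∃ z w : ZMod 8, (⟨p, q⟩ * ⟨z, w⟩ : S8) = 1) → ∀ d ∈ M16, ∀ x y : ZMod 8,
      r8 d * (1 + 4 * ⟨p, q⟩) = ⟨x, y⟩ * ⟨x, y⟩ → d = eta * tt ∨ d = -pp := by decide +kernel
  refine this (r8 W * r8 A ^ 2 * e ^ 2).re (r8 W * r8 A ^ 2 * e ^ 2).im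
    ⟨(f * (r8 A * (r8 d * r8 A ^ 2)) ^ 2).re, (f * (r8 A * (r8 d * r8 A ^ 2)) ^ 2).im, ?_⟩
    d hd (r8 Y * e).re (r8 Y * e).im ?_ <;> simp only [QuadraticAlgebra.mk_eta]
  · linear_combination hf + f * (r8 W * r8 A ^ 2) * (e * (r8 A * (r8 d * r8 A ^ 2)) + 1) * he
  · linear_combination (-e ^ 2) * h1 - r8 d * (e * (r8 A * (r8 d * r8 A ^ 2)) + 1) * he

lemma locC (d A B W : O3) (hd : d ∈ M16) (hA : IsCoprime A ss)
    (h : (d * B ^ 2) ^ 2 = d0 * A ^ 4 + ss ^ 8 * W) : d = 1 ∨ d = -1 ∨ d = d0 ∨ d = -d0 := by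
  obtain ⟨e, he⟩ := inv_r r16 8 r16_ss A hA
  have h1 := congrArg r16 h
  simp only [map_mul, map_add, map_pow, r16_ss] at h1
  have : ∀ d ∈ M16, ∀ x y : ZMod 16, r16 d * (⟨x, y⟩ * ⟨x, y⟩) * (r16 d * (⟨x, y⟩ * ⟨x, y⟩)) =
      r16 d0 → d = 1 ∨ d = -1 ∨ d = d0 ∨ d = -d0 := by decide +kernel
  refine this d hd (r16 B * e).re (r16 B * e).im ?_
  rw [QuadraticAlgebra.mk_eta]
  linear_combination e ^ 4 * h1 + r16 d0 * (e * r16 A + 1) * ((e * r16 A) ^ 2 + 1) * he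

lemma exists_emb : ∃ σ : O3 →+* ℝ, (∀ x, x ≠ 0 → 0 < σ x ^ 2) ∧ σ d0 < 0 ∧ 0 < σ kap ∧
    σ D1 < 0 := by
  obtain ⟨t, ht, t1, t2⟩ := exists_root
  refine ⟨ev t ht, fun x hx => sq_pos_of_ne_zero fun h0 => N_ne_zero hx ?_, ?_, ?_, ?_⟩
  · have := (ev_adj t ht x).1
    rw [h0, zero_mul] at this
    exact_mod_cast this.symm
  · rw [d0, ev_mk]; push_cast; nlinarith
  · rw [kap, ev_mk]; push_cast; nlinarith
  · rw [D1, ev_mk]; push_cast; nlinarith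

/-- a point whose abscissa has a pole of order `2 n` at `ss` -/
def Pt (c : O3) (n : ℕ) : Prop := ∃ X E Y : O3, IsCoprime X ss ∧ IsCoprime E ss ∧
  Y ^ 2 = X * (X ^ 2 + c * (ss ^ n * E) ^ 4)

lemma Pt.red {c : O3} {n : ℕ} (h : Pt c n) (hc : c ∣ (tt * ss * pp) ^ 5) :
    ∃ d ∈ M16, ∃ A E Y : O3, IsCoprime (d * A ^ 2) ss ∧ IsCoprime E ss ∧
      IsCoprime (d * A ^ 2) (ss ^ n * E) ∧
      Y ^ 2 = d * A ^ 2 * ((d * A ^ 2) ^ 2 + c * (ss ^ n * E) ^ 4) := by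
  obtain ⟨X, E, Y, h1, h2, h3⟩ := h
  obtain ⟨g, X, E, Y, rfl, rfl, h4, h5⟩ := reduce' (c * (ss ^ n) ^ 4) E X Y (ne0 h2)
    (by rw [h3]; ring)
  have h1 := h1.of_mul_left_right
  have h6 : IsCoprime X (ss ^ n * E) := h1.pow_right.mul_right h4
  obtain ⟨d, hd, A, rfl⟩ := clsM X (X ^ 2 + c * (ss ^ n * E) ^ 4) Y X c _ h1
    (h6.pow_right (n := 4)) (by rw [h5]; ring) (by ring) hc
  exact ⟨d, hd, A, E, Y, h1, h2.of_mul_left_right, h6, by rw [h5]; ring⟩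

lemma base5 : ¬ Pt D1 1 := by
  intro h
  obtain ⟨d, hd, A, E, Y, h1, h2, h3, h4⟩ := h.red ⟨⟨-79828, 125836, 13568⟩, by decide +kernel⟩
  have hD : IsCoprime D1 ss := cops _ fun h => by
    obtain ⟨w, hw⟩ := h
    have := congrArg (ev (1 : ZMod 2) (by decide)) hw
    rw [map_mul, show ev (1 : ZMod 2) (by decide) ss = 0 by decide, zero_mul] at this
    revert this; decide
  have hl := locB d A Y (D1 * E ^ 4) hd h1 (hD.mul_left h2.pow_left) (by rw [h4]; ring)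
  have A0 : A ≠ 0 := by rintro rfl; exact ne0 h1 (by ring)
  generalize ss ^ 1 * E = G at h3 h4
  have e1 : D1 = pp ^ 3 * ⟨-1520, -270, -453⟩ := by decide +kernel
  have p0 := pp_prime.ne_zero
  have hG : pp ∣ A → r3 G ^ 2 = 1 := fun hp => r3_sq G fun h => pp_prime.not_isUnit
    (h3.isUnit_of_dvd' ((dvd_pow hp two_ne_zero).mul_left _) h)
  obtain ⟨Y, -, h5⟩ := sq_div A (d * ((d * A ^ 2) ^ 2 + D1 * G ^ 4)) Y A0 (by rw [h4]; ring)
  have e3 : r3 ⟨-1520, -270, -453⟩ = 1 := by decide +kernel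
  rcases hl with rfl | rfl
  · have e2 : r3 (eta * tt) = 2 := by decide +kernel
    generalize eta * tt = d at h5 e2
    by_cases hp : pp ∣ A
    · have hG' := hG hp
      obtain ⟨A, rfl⟩ := hp
      obtain ⟨Y, -, h6⟩ := sq_div pp (pp * (d * (pp * (d * A ^ 2) ^ 2 +
        ⟨-1520, -270, -453⟩ * G ^ 4))) Y p0 (by rw [← h5, e1]; ring)
      obtain ⟨Y, rfl⟩ : pp ∣ Y := pp_prime.dvd_of_dvd_pow (n := 2) ⟨_, h6.symm⟩
      have h7 : d * (pp * (d * A ^ 2) ^ 2 + ⟨-1520, -270, -453⟩ * G ^ 4) = pp * Y ^ 2 :=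
        mul_left_cancel₀ p0 (by linear_combination h6)
      have h8 := congrArg r3 h7
      simp only [map_mul, map_add, map_pow, r3_pp, e2, e3] at h8
      have : (2 : ZMod 3) = 0 := by linear_combination h8 - 2 * (r3 G ^ 2 + 1) * hG'
      revert this; decide
    · have h8 := congrArg r3 h5
      have hA := r3_sq A hp
      rw [e1] at h8
      simp only [map_mul, map_add, map_pow, r3_pp, e2] at h8
      refine two_nsq (r3 Y) ?_
      have : (6 : ZMod 3) = 0 := by decide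
      linear_combination -h8 + 8 * (r3 A ^ 2 + 1) * hA + this
  · obtain ⟨Y, -, h6⟩ := sq_div pp (-pp * (A ^ 4 + pp * ⟨-1520, -270, -453⟩ * G ^ 4)) Y p0
      (by rw [← h5, e1]; ring)
    obtain ⟨Y, rfl⟩ : pp ∣ Y := pp_prime.dvd_of_dvd_pow (n := 2) ⟨-_, by rw [← h6, neg_mul, mul_neg]⟩
    have h7 : -(A ^ 4 + pp * ⟨-1520, -270, -453⟩ * G ^ 4) = pp * Y ^ 2 :=
      mul_left_cancel₀ p0 (by linear_combination h6)
    have hp : pp ∣ A := pp_prime.dvd_of_dvd_pow (n := 4)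
      ⟨-Y ^ 2 - ⟨-1520, -270, -453⟩ * G ^ 4, by linear_combination -h7⟩
    have hG' := hG hp
    obtain ⟨A, rfl⟩ := hp
    have h8 : -(pp ^ 3 * A ^ 4 + ⟨-1520, -270, -453⟩ * G ^ 4) = Y ^ 2 :=
      mul_left_cancel₀ p0 (by linear_combination h7)
    have h9 := congrArg r3 h8
    simp only [map_mul, map_add, map_pow, map_neg, r3_pp, e3] at h9
    refine two_nsq (r3 Y) ?_
    have : (3 : ZMod 3) = 0 := by decide
    linear_combination -h9 - (r3 G ^ 2 + 1) * hG' - this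

lemma piX (A B W G : O3) (A0 : A ≠ 0) (hc : IsCoprime A G) (h1 : B ^ 2 - W = 2 * kap * G ^ 2)
    (h2 : B ^ 2 * W = d0 * A ^ 4) : False := by
  have e1 : kap = pp * ⟨208, 37, 62⟩ := by decide +kernel
  have e2 : d0 = pp * ⟨2, -4, 1⟩ := by decide +kernel
  have e3 : r3 ⟨208, 37, 62⟩ = 2 := by decide +kernel
  have e4 : r3 ⟨2, -4, 1⟩ = 1 := by decide +kernel
  have p0 := pp_prime.ne_zero
  generalize (⟨208, 37, 62⟩ : O3) = k at e1 e3
  generalize (⟨2, -4, 1⟩ : O3) = d at e2 e4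
  rw [e1] at h1; rw [e2] at h2
  obtain ⟨B, rfl⟩ : pp ∣ B := by
    rcases pp_prime.dvd_or_dvd (show pp ∣ B ^ 2 * W from ⟨_, by rw [h2, mul_assoc]⟩) with h | ⟨w, h⟩
    · exact pp_prime.dvd_of_dvd_pow h
    · exact pp_prime.dvd_of_dvd_pow (n := 2) ⟨w + 2 * k * G ^ 2, by linear_combination h1 + h⟩
  have h3 : (pp * B) ^ 2 * (pp * B ^ 2 - 2 * k * G ^ 2) = d * A ^ 4 :=
    mul_left_cancel₀ p0 (by linear_combination h2 + (pp * B) ^ 2 * h1)
  have hd : ¬ pp ∣ d := by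
    rintro ⟨w, rfl⟩
    rw [map_mul, r3_pp, zero_mul] at e4
    revert e4; decide
  have hA : pp ∣ A := pp_prime.dvd_of_dvd_pow ((pp_prime.dvd_or_dvd (show pp ∣ d * A ^ 4 from
    ⟨pp * B ^ 2 * (pp * B ^ 2 - 2 * k * G ^ 2), by rw [← h3]; ring⟩)).resolve_left hd)
  have hG := r3_sq G fun h => pp_prime.not_isUnit (hc.isUnit_of_dvd' hA h)
  have B0 : pp * B ≠ 0 := fun h => by
    rw [h] at h3
    exact mul_ne_zero (fun h : d = 0 => hd (h ▸ dvd_zero _)) (pow_ne_zero 4 A0) (by rw [← h3]; ring)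
  obtain ⟨Y, -, h4⟩ := sq_div (pp * B) (d * (pp * B ^ 2 - 2 * k * G ^ 2)) (d * A ^ 2) B0
    (by linear_combination d * h3)
  have h5 := congrArg r3 h4
  simp only [map_mul, map_sub, map_pow, map_ofNat, r3_pp, e3, e4] at h5
  refine two_nsq (r3 Y) ?_
  have : (6 : ZMod 3) = 0 := by decide
  linear_combination -h5 - 4 * hG - this

lemma halfs (X m c : O3) (hX : IsCoprime X ss) (h : m ^ 2 - X ^ 2 = ss ^ 4 * c) :
    ∃ U V, IsCoprime U ss ∧ U - V = lam * X ∧ U * V = c ∧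
      (m + X = ss ^ 2 * U ∨ -m + X = ss ^ 2 * U) := by
  have s0 := ss_prime.ne_zero
  obtain ⟨u, hu⟩ : ss ∣ m + X := ss_prime.dvd_of_dvd_pow (n := 2)
    ⟨ss ^ 3 * c + lam * ss * X * (m + X), by linear_combination h + X * (m + X) * two_eq⟩
  obtain ⟨U, rfl⟩ : ss ∣ u := ss_prime.dvd_of_dvd_pow (n := 2) ⟨ss * c + lam * X * u,
    mul_left_cancel₀ (pow_ne_zero 2 s0) (by
      linear_combination h + X * (m + X) * two_eq - (m + X + ss * u - lam * ss ^ 2 * X) * hu)⟩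
  have h2 : U * (U - lam * X) = c := mul_left_cancel₀ (pow_ne_zero 4 s0) (by
    linear_combination h + X * (m + X) * two_eq - (m + X + ss ^ 2 * U - lam * ss ^ 2 * X) * hu)
  by_cases hU : ss ∣ U
  · refine ⟨lam * X - U, -U, cops _ fun h => ?_, by ring, by linear_combination h2,
      Or.inr (by linear_combination -hu + X * two_eq)⟩
    exact ss_prime.not_isUnit ((lam_cop.mul_left hX).isUnit_of_dvd'
      (by simpa using h.add hU) dvd_rfl)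
  · exact ⟨U, U - lam * X, cops _ hU, by ring, h2, Or.inl (by rw [hu]; ring)⟩

lemma step1 (n : ℕ) (h : Pt D1 (n + 3)) : Pt (-4 * D1) (n + 1) := by
  obtain ⟨d, hd, A, E, Y, h1, h2, h3, h4⟩ := h.red ⟨⟨-79828, 125836, 13568⟩, by decide +kernel⟩
  have A0 : A ≠ 0 := by rintro rfl; exact ne0 h1 (by ring)
  rcases locA d A Y (D1 * ss ^ 6 * (ss ^ n * E) ^ 4) hd h1 (by rw [h4]; ring) with rfl | rfl
  · obtain ⟨m, -, h5⟩ := sq_div A ((1 * A ^ 2) ^ 2 + D1 * (ss ^ (n + 3) * E) ^ 4) Y A0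
      (by rw [h4]; ring)
    obtain ⟨U, V, g1, g2, g3, -⟩ := halfs _ m (D1 * ss ^ 4 * (ss ^ (n + 1) * E) ^ 4) h1
      (by rw [← h5]; ring)
    refine ⟨lam * U, E, lam ^ 2 * A * U, lam_cop.mul_left g1, h2, ?_⟩
    generalize ss ^ (n + 1) * E = G at g3
    linear_combination (-(lam ^ 3 * U ^ 2)) * g2 - lam ^ 3 * U * g3 +
      lam * U * D1 * G ^ 4 * (2 + lam * ss ^ 2) * two_eq
  · exfalso
    have e1 : D1 = d0 * kap ^ 2 := by decide +kernel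
    have hA : IsCoprime A ss := (IsCoprime.pow_left_iff two_pos).1 h1.of_mul_left_right
    have hd0 : IsCoprime d0 ss := h1.of_mul_left_left
    obtain ⟨G, hG⟩ : ∃ G, G = ss ^ (n + 3) * E := ⟨_, rfl⟩
    rw [← hG] at h3 h4
    obtain ⟨Y, -, h5⟩ := sq_div (d0 * A) (d0 * A ^ 4 + kap ^ 2 * G ^ 4) Y
      (mul_ne_zero (ne0 hd0) A0) (by rw [h4, e1]; ring)
    have hUV : (Y + kap * G ^ 2) * (Y - kap * G ^ 2) = d0 * A ^ 4 := by linear_combination -h5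
    have hAG : IsCoprime A G := (IsCoprime.pow_left_iff two_pos).1 h3.of_mul_left_right
    obtain ⟨e, he, B, hB⟩ := clsM (Y + kap * G ^ 2) (d0 * (Y - kap * G ^ 2)) (d0 * A ^ 2) d0
      (-2 * (kap * d0)) (G ^ 2)
      ((hd0.mul_left (hA.pow_left (m := 4))).of_isCoprime_of_dvd_left ⟨_, hUV.symm⟩)
      ((h3.of_mul_left_left.mul_left (hAG.pow_left (m := 4))).of_isCoprime_of_dvd_left
        ⟨_, hUV.symm⟩).pow_right
      (by linear_combination d0 * hUV) (by ring) ⟨⟨-8448, 7374, 11406⟩, by decide +kernel⟩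
    have hl := locC e A B (e * B ^ 2 * kap * lam * (ss ^ n * E) ^ 2) he hA (by
      rw [← hB]
      linear_combination hUV + (Y + kap * G ^ 2) * kap * G ^ 2 * two_eq +
        (Y + kap * G ^ 2) * kap * lam * ss ^ 2 * (G + ss ^ (n + 3) * E) * hG)
    obtain ⟨σ, hne, s1, s2, -⟩ := exists_emb
    have pA := hne A A0
    have hpos : 0 < σ (e * B ^ 2) := by
      have h6 := congrArg σ hUV
      rw [← hB]
      simp only [map_mul, map_add, map_sub, map_pow] at h6 ⊢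
      have h7 : σ d0 * σ A ^ 4 < 0 := by nlinarith [mul_pos pA pA]
      by_contra hc
      nlinarith [mul_nonneg s2.le (sq_nonneg (σ G))]
    rw [map_mul, map_pow] at hpos
    rcases hl with rfl | rfl | rfl | rfl
    · exact piX A B (Y - kap * G ^ 2) G A0 hAG (by linear_combination -hB)
        (by rw [← hUV, hB]; ring)
    · rw [map_neg, map_one] at hpos; nlinarith [sq_nonneg (σ B)]
    · nlinarith [sq_nonneg (σ B)]
    · have B0 : B ≠ 0 := by rintro rfl; simp at hpos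
      obtain ⟨C, -, hC⟩ := sq_div B (-(Y - kap * G ^ 2)) (A ^ 2) B0
        (mul_left_cancel₀ (ne0 hd0) (by linear_combination hUV - (Y - kap * G ^ 2) * hB))
      exact piX A C (-(Y + kap * G ^ 2)) G A0 hAG (by linear_combination -hC)
        (by rw [← hC, ← hUV]; ring)

lemma step2 (n : ℕ) (h : Pt (-4 * D1) (n + 1)) : Pt D1 (n + 1) := by
  obtain ⟨d, hd, A, E, Y, h1, h2, h3, h4⟩ := h.red ⟨⟨19957, -31459, -3392⟩, by decide +kernel⟩
  have A0 : A ≠ 0 := by rintro rfl; exact ne0 h1 (by ring)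
  have e4 : (4 : O3) = lam ^ 2 * ss ^ 4 := by decide +kernel
  rcases locA d A Y (-(lam ^ 2 * D1 * ss ^ 2 * (ss ^ n * E) ^ 4)) hd h1
    (by rw [h4, neg_mul, e4]; ring) with rfl | rfl
  · obtain ⟨m, -, h5⟩ := sq_div A ((1 * A ^ 2) ^ 2 + -4 * D1 * (ss ^ (n + 1) * E) ^ 4) Y A0
      (by rw [h4]; ring)
    obtain ⟨U, V, g1, g2, g3, -⟩ := halfs _ m (-(lam ^ 2 * D1 * (ss ^ (n + 1) * E) ^ 4)) h1
      (by rw [← h5, neg_mul, e4]; ring)
    refine ⟨lam * U, lam * E, lam ^ 2 * A * U, lam_cop.mul_left g1, lam_cop.mul_left h2, ?_⟩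
    linear_combination (-(lam ^ 3 * U ^ 2)) * g2 - lam ^ 3 * U * g3
  · exfalso
    obtain ⟨σ, hne, s1, -, s3⟩ := exists_emb
    have pA := hne A A0
    have h6 := congrArg σ h4
    generalize ss ^ (n + 1) * E = G at h6
    simp only [map_mul, map_add, map_pow, map_neg, map_ofNat] at h6
    have p1 : 0 < -(σ d0 * σ A ^ 2) := by nlinarith
    have p2 : 0 ≤ σ G ^ 4 := by positivity
    have p3 : 0 < (σ d0 * σ A ^ 2) ^ 2 + -4 * σ D1 * σ G ^ 4 := by nlinarith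
    nlinarith [mul_pos p1 p3, sq_nonneg (σ Y)]

theorem desc5 : ∀ j : ℕ, ¬ Pt D1 (2 * j + 1) := by
  intro j
  induction j with
  | zero => exact base5
  | succ j ih => exact fun h => ih (step2 _ (step1 _ h))

end O3

end Pool.Agent.Lib.MP_ab8df0_nt
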