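import Pool.Agent.Lib.MP_ab8df0_nt.Phi

/-! A two-adic descent on the curve `y ^ 2 = x (x - a) (x - b)`, where `a = -3 s`, `b = 15 + 6 s`,
`s ^ 2 = 5`. -/

namespace Pool.Agent.Lib.MP_ab8df0_nt

open QuadraticAlgebra

/-- the second root -/
def ra : O := ⟨3, -6⟩
/-- the third root -/
def rb : O := ⟨9, 12⟩

lemma odd_of_cong {X D : O} (hD : IsCoprime D 2) (h : 2 ∣ X - D) : IsCoprime X 2 := by
  obtain ⟨w, hw⟩ := h
  rw [show X = D + 2 * w by linear_combination hw]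
  exact hD.add_mul_left_left _

lemma ne_zero_of_odd {X : O} (h : IsCoprime X 2) : X ≠ 0 := by
  rintro rfl
  exact two_prime.not_isUnit (isCoprime_zero_left.1 h)

lemma classes (X E Y : O) (hXE : IsCoprime X E)
    (h : Y ^ 2 = X * (X - ra * E ^ 2) * (X - rb * E ^ 2)) :
    (IsCoprime X 2 → ∃ d ∈ L16, ∃ A, X = d * A ^ 2) ∧
    (IsCoprime (X - ra * E ^ 2) 2 → ∃ d ∈ L16, ∃ A, X - ra * E ^ 2 = d * A ^ 2) ∧
    (IsCoprime (X - rb * E ^ 2) 2 → ∃ d ∈ L16, ∃ A, X - rb * E ^ 2 = d * A ^ 2) := by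
  have c : ∀ r : O, IsCoprime (X - r * E ^ 2) (E ^ 4) := fun r => by
    rw [show X - r * E ^ 2 = X + E * (-r * E) by ring]
    exact (hXE.add_mul_left_left _).pow_right
  refine ⟨fun h2 => ?_, fun h2 => ?_, fun h2 => ?_⟩
  · exact cls16 X ((X - ra * E ^ 2) * (X - rb * E ^ 2)) Y (X - (ra + rb) * E ^ 2) (ra * rb) (E ^ 4)
      h2 hXE.pow_right (by rw [h]; ring) (by ring) ⟨⟨12, -8⟩, by decide⟩
  · exact cls16 _ (X * (X - rb * E ^ 2)) Y (X + (ra - rb) * E ^ 2) (ra * (ra - rb)) (E ^ 4)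
      h2 (c ra) (by rw [h]; ring) (by ring) ⟨⟨4, -2⟩, by decide⟩
  · exact cls16 _ (X * (X - ra * E ^ 2)) Y (X + (rb - ra) * E ^ 2) (rb * (rb - ra)) (E ^ 4)
      h2 (c rb) (by rw [h]; ring) (by ring) ⟨⟨-16, 10⟩, by decide⟩

lemma reduce8 (a b c X D Y : O) (hD : IsCoprime D 2) (h8 : 8 ∣ X - c * D ^ 2)
    (h : Y ^ 2 = X * (X - a * D ^ 2) * (X - b * D ^ 2)) :
    ∃ X' D' Y', IsCoprime D' 2 ∧ 8 ∣ X' - c * D' ^ 2 ∧ IsCoprime X' D' ∧
      Y' ^ 2 = X' * (X' - a * D' ^ 2) * (X' - b * D' ^ 2) := by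
  obtain ⟨g, X', D', Y', rfl, rfl, h1, h2⟩ := reduce a b D X Y (ne_zero_of_odd hD) h
  refine ⟨X', D', Y', hD.of_mul_left_right, ?_, h1, h2⟩
  have h3 : IsCoprime (8 : O) (g ^ 2) := by
    rw [show (8 : O) = 2 ^ 3 by norm_num]
    exact hD.of_mul_left_left.symm.pow
  exact h3.dvd_of_dvd_mul_left (by convert h8 using 1; ring)

lemma base0 (X D Y : O) (hD : IsCoprime D 2) (h8 : 8 ∣ X - ⟨2, 5⟩ * D ^ 2)
    (h : Y ^ 2 = X * (X - ra * D ^ 2) * (X - rb * D ^ 2)) : False := by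
  obtain ⟨X, D, Y, hD, ⟨w, hw⟩, hXD, h⟩ := reduce8 _ _ _ X D Y hD h8 h
  obtain ⟨c1, -, c3⟩ := classes X D Y hXD h
  have hphi : IsCoprime phi 2 := cop2 _ fun h => by
    have := (qred_eq_zero 1 1 2 phi).2 (by exact_mod_cast h)
    revert this; decide
  have e1 : (⟨2, 5⟩ : O) = phi + 2 * ⟨1, 2⟩ := by decide
  have e2 : (⟨2, 5⟩ : O) - rb = phi ^ 2 - 8 * ⟨1, 1⟩ := by decide
  have o1 : IsCoprime X 2 := odd_of_cong (hphi.mul_left (hD.pow_left (m := 2)))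
    ⟨4 * w + ⟨1, 2⟩ * D ^ 2, by linear_combination hw + D ^ 2 * e1⟩
  have h3 : 8 ∣ X - rb * D ^ 2 - (phi * D) ^ 2 :=
    ⟨w - ⟨1, 1⟩ * D ^ 2, by linear_combination hw + D ^ 2 * e2⟩
  have o3 : IsCoprime (X - rb * D ^ 2) 2 :=
    odd_of_cong ((hphi.mul_left hD).pow_left (m := 2)) (Dvd.dvd.trans ⟨4, by norm_num⟩ h3)
  obtain ⟨d1, hd1, A, hA⟩ := c1 o1
  obtain ⟨d3, hd3, C, hC⟩ := c3 o3
  have l1 := loc2 d1 A D hd1 hD ⟨w, by rw [← hA, hw]⟩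
  have l3 := loc1 d3 C _ hd3 (hphi.mul_left hD) (by rw [← hC]; exact h3)
  have A0 : A ≠ 0 := by rintro rfl; exact ne_zero_of_odd o1 (by rw [hA]; ring)
  have C0 : C ≠ 0 := by rintro rfl; exact ne_zero_of_odd o3 (by rw [hC]; ring)
  obtain ⟨σ, τ, hne, s, t, s1, s2, t1, t2, hs, ht⟩ := exists_embs
  obtain ⟨pA, qA⟩ := hne A A0
  obtain ⟨pC, qC⟩ := hne C C0
  obtain ⟨pD, qD⟩ := hne D (ne_zero_of_odd hD)
  rcases l1 with rfl | rfl
  · rcases l3 with rfl | rfl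
    · have h4 : (⟨2, 1⟩ : O) * A ^ 2 - C ^ 2 = 3 * (⟨3, 4⟩ * D ^ 2) := by
        have : rb = 3 * ⟨3, 4⟩ := by decide
        linear_combination -hA + hC + D ^ 2 * this
      have h5 := (qred_eq_zero 1 1 3 _).2 ⟨_, by exact_mod_cast h4⟩
      simp only [map_sub, map_mul, pow_two] at h5
      have : ∀ x y z w : ZMod 3, qred 1 1 3 ⟨2, 1⟩ * (⟨x, y⟩ * ⟨x, y⟩) - ⟨z, w⟩ * ⟨z, w⟩ = 0 →
        (⟨x, y⟩ : QuadraticAlgebra (ZMod 3) ((1 : ℤ) : ZMod 3) ((1 : ℤ) : ZMod 3)) = 0 ∧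
          (⟨z, w⟩ : QuadraticAlgebra (ZMod 3) ((1 : ℤ) : ZMod 3) ((1 : ℤ) : ZMod 3)) = 0 := by
        decide +kernel
      obtain ⟨h6, h7⟩ := this _ _ _ _ h5
      obtain ⟨A, rfl⟩ := (qred_eq_zero 1 1 3 A).1 h6
      obtain ⟨C, rfl⟩ := (qred_eq_zero 1 1 3 C).1 h7
      push_cast at hA h4
      have h9 : (3 : O) ∣ ⟨3, 4⟩ * D ^ 2 := ⟨⟨2, 1⟩ * A ^ 2 - C ^ 2,
        mul_left_cancel₀ three_prime.ne_zero (by linear_combination -h4)⟩
      rcases three_prime.dvd_or_dvd h9 with h10 | h10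
      · have := (qred_eq_zero 1 1 3 _).2 (by exact_mod_cast h10)
        revert this; decide
      · exact three_prime.not_isUnit (hXD.isUnit_of_dvd' ⟨⟨2, 1⟩ * 3 * A ^ 2, by rw [hA]; ring⟩
          (three_prime.dvd_of_dvd_pow h10))
    · have h4 := congrArg σ h
      rw [hC, hA] at h4
      simp only [map_mul, map_sub, map_pow, map_neg, map_ofNat, ra, hs 2 1, hs 3 (-6)] at h4
      push_cast at h4
      have p1 : 0 < (2 + 1 * s) * σ A ^ 2 := mul_pos (by linarith) pA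
      have p2 : 0 < (2 + 1 * s) * σ A ^ 2 - (3 + -6 * s) * σ D ^ 2 := by nlinarith
      nlinarith [mul_pos (mul_pos p1 p2) pC, sq_nonneg (σ Y)]
  · have h4 := congrArg τ h
    rw [hA] at h4
    simp only [map_mul, map_sub, map_pow, ra, rb, ht (-6) (-3), ht 3 (-6), ht 9 12] at h4
    push_cast at h4
    have p1 : 0 < -((-6 + -3 * t) * τ A ^ 2) := by nlinarith
    have p2 : 0 < -((-6 + -3 * t) * τ A ^ 2 - (3 + -6 * t) * τ D ^ 2) := by nlinarith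
    have p3 : 0 < -((-6 + -3 * t) * τ A ^ 2 - (9 + 12 * t) * τ D ^ 2) := by nlinarith
    nlinarith [mul_pos (mul_pos p1 p2) p3, sq_nonneg (τ Y)]

lemma halves (A B c : O) (h : A ^ 2 - B ^ 2 = 4 * c) : ∃ U V, U + V = A ∧ U * V = c := by
  obtain ⟨U, hU⟩ : 2 ∣ A + B := two_prime.dvd_of_dvd_pow (n := 2)
    ⟨2 * c + A * B + B ^ 2, by linear_combination h⟩
  refine ⟨U, A - U, by ring, mul_left_cancel₀ (pow_ne_zero 2 two_prime.ne_zero) ?_⟩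
  linear_combination h + (B - A + 2 * U) * hU

lemma base1 (A B C D : O) (hD : IsCoprime D 2) (h8 : 8 ∣ A ^ 2 - D ^ 2)
    (hB : A ^ 2 - B ^ 2 = ra * (2 * D) ^ 2) (hC : A ^ 2 - C ^ 2 = rb * (2 * D) ^ 2) : False := by
  obtain ⟨U, V, h1, h2⟩ := halves A B (ra * D ^ 2) (by linear_combination hB)
  obtain ⟨U', V', h3, h4⟩ := halves A C (rb * D ^ 2) (by linear_combination hC)
  have fin : ∀ U V U' V' : O, U + V = A → U * V = ra * D ^ 2 → U' + V' = A →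
      U' * V' = rb * D ^ 2 → ¬ 8 ∣ U * U' - ⟨2, 5⟩ * D ^ 2 := by
    intro U V U' V' h1 h2 h3 h4 h5
    refine base0 (U * U') D (U * U' * (U + U' - A)) hD h5 ?_
    rw [← h2, ← h4, show V = A - U by linear_combination h1, show V' = A - U' by linear_combination h3]
    ring
  obtain ⟨e, he⟩ := inv8 D hD
  have key : ∀ x y : ZMod 8, (⟨x, y⟩ * ⟨x, y⟩ : R8) = 1 → ∀ z w : ZMod 8,
      (⟨z, w⟩ * (⟨x, y⟩ - ⟨z, w⟩) : R8) = qred 1 1 8 ra → ∀ p q : ZMod 8,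
      (⟨p, q⟩ * (⟨x, y⟩ - ⟨p, q⟩) : R8) = qred 1 1 8 rb →
      (⟨z, w⟩ * ⟨p, q⟩ : R8) = qred 1 1 8 ⟨2, 5⟩ ∨
      (⟨z, w⟩ * (⟨x, y⟩ - ⟨p, q⟩) : R8) = qred 1 1 8 ⟨2, 5⟩ ∨
      ((⟨x, y⟩ - ⟨z, w⟩) * ⟨p, q⟩ : R8) = qred 1 1 8 ⟨2, 5⟩ ∨
      ((⟨x, y⟩ - ⟨z, w⟩) * (⟨x, y⟩ - ⟨p, q⟩) : R8) = qred 1 1 8 ⟨2, 5⟩ := by decide +kernel
  have g0 := (qred_eq_zero 1 1 8 _).2 (by exact_mod_cast h8)
  have g1 := congrArg (qred 1 1 8) h1
  have g2 := congrArg (qred 1 1 8) h2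
  have g3 := congrArg (qred 1 1 8) h3
  have g4 := congrArg (qred 1 1 8) h4
  simp only [map_add, map_sub, map_mul, map_pow] at g0 g1 g2 g3 g4
  have back : ∀ U U' : O, qred 1 1 8 U * e * (qred 1 1 8 U' * e) = qred 1 1 8 ⟨2, 5⟩ →
      8 ∣ U * U' - ⟨2, 5⟩ * D ^ 2 := by
    intro U U' h
    have := (qred_eq_zero 1 1 8 (U * U' - ⟨2, 5⟩ * D ^ 2)).1 (by
      simp only [map_sub, map_mul, map_pow]
      linear_combination qred 1 1 8 D ^ 2 * h -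
        qred 1 1 8 U * qred 1 1 8 U' * (e * qred 1 1 8 D + 1) * he)
    exact_mod_cast this
  have := key (qred 1 1 8 A * e).re (qred 1 1 8 A * e).im
    (by rw [mk_eta]; linear_combination e ^ 2 * g0 + (e * qred 1 1 8 D + 1) * he)
    (qred 1 1 8 U * e).re (qred 1 1 8 U * e).im
    (by simp only [mk_eta]; linear_combination e ^ 2 * g2 - e ^ 2 * qred 1 1 8 U * g1 +
      qred 1 1 8 ra * (e * qred 1 1 8 D + 1) * he)
    (qred 1 1 8 U' * e).re (qred 1 1 8 U' * e).im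
    (by simp only [mk_eta]; linear_combination e ^ 2 * g4 - e ^ 2 * qred 1 1 8 U' * g3 +
      qred 1 1 8 rb * (e * qred 1 1 8 D + 1) * he)
  simp only [mk_eta] at this
  have e1 : qred 1 1 8 A * e - qred 1 1 8 U * e = qred 1 1 8 V * e := by linear_combination -e * g1
  have e2 : qred 1 1 8 A * e - qred 1 1 8 U' * e = qred 1 1 8 V' * e := by
    linear_combination -e * g3
  rw [e1, e2] at this
  rcases this with h | h | h | h
  · exact fin U V U' V' h1 h2 h3 h4 (back _ _ h)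
  · exact fin U V V' U' h1 h2 (by rw [add_comm, h3]) (by rw [mul_comm, h4]) (back _ _ h)
  · exact fin V U U' V' (by rw [add_comm, h1]) (by rw [mul_comm, h2]) h3 h4 (back _ _ h)
  · exact fin V U V' U' (by rw [add_comm, h1]) (by rw [mul_comm, h2]) (by rw [add_comm, h3])
      (by rw [mul_comm, h4]) (back _ _ h)

lemma near (k : ℕ) (X D r r' : O) (hD : IsCoprime D 2) (h8 : 8 ∣ X - D ^ 2) (hr : r + 1 = 2 * r') :
    ∃ D', IsCoprime D' 2 ∧ 8 ∣ X - r * (2 ^ (k + 1) * D) ^ 2 - D' ^ 2 := by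
  obtain ⟨w, hw⟩ := h8
  rcases k with _ | k
  · have h5 : s5 ^ 2 = 5 := by decide
    have : IsCoprime s5 2 := odd_of_cong isCoprime_one_left ⟨⟨-1, 1⟩, by decide⟩
    exact ⟨s5 * D, this.mul_left hD, w - r' * D ^ 2,
      by linear_combination hw - D ^ 2 * h5 - 4 * D ^ 2 * hr⟩
  · exact ⟨D, hD, w - 2 * r * (2 ^ k * D) ^ 2, by linear_combination hw⟩

lemma toSq (k : ℕ) (X D Y : O) (hD : IsCoprime D 2) (h8 : 8 ∣ X - D ^ 2)
    (h : Y ^ 2 = X * (X - ra * (2 ^ (k + 1) * D) ^ 2) * (X - rb * (2 ^ (k + 1) * D) ^ 2)) :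
    ∃ A B C D : O, IsCoprime D 2 ∧ 8 ∣ A ^ 2 - D ^ 2 ∧ A ^ 2 - B ^ 2 = ra * (2 ^ (k + 1) * D) ^ 2 ∧
      A ^ 2 - C ^ 2 = rb * (2 ^ (k + 1) * D) ^ 2 := by
  obtain ⟨X, D, Y, hD, h8, hXD, h⟩ := reduce8 (ra * (2 ^ (k + 1)) ^ 2) (rb * (2 ^ (k + 1)) ^ 2) 1
    X D Y hD (by rwa [one_mul]) (by rw [h]; ring)
  rw [one_mul] at h8
  have two8 : (2 : O) ∣ 8 := ⟨4, by norm_num⟩
  have o1 : IsCoprime X 2 := odd_of_cong (hD.pow_left (m := 2)) (two8.trans h8)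
  obtain ⟨D2, hD2, h2⟩ := near k X D ra ⟨2, -3⟩ hD h8 (by decide)
  obtain ⟨D3, hD3, h3⟩ := near k X D rb ⟨5, 6⟩ hD h8 (by decide)
  have o2 := odd_of_cong (hD2.pow_left (m := 2)) (two8.trans h2)
  have o3 := odd_of_cong (hD3.pow_left (m := 2)) (two8.trans h3)
  have E0 : 2 ^ (k + 1) * D ≠ 0 :=
    mul_ne_zero (pow_ne_zero _ two_prime.ne_zero) (ne_zero_of_odd hD)
  have h' : Y ^ 2 = X * (X - ra * (2 ^ (k + 1) * D) ^ 2) * (X - rb * (2 ^ (k + 1) * D) ^ 2) := by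
    rw [h]; ring
  obtain ⟨c1, c2, c3⟩ := classes X (2 ^ (k + 1) * D) Y (o1.pow_right.mul_right hXD) h'
  obtain ⟨d1, hd1, A, hA⟩ := c1 o1
  obtain ⟨d2, hd2, B, hB⟩ := c2 o2
  obtain ⟨d3, hd3, C, hC⟩ := c3 o3
  have l1 := loc1 d1 A D hd1 hD (by rw [← hA]; exact h8)
  have l2 := loc1 d2 B D2 hd2 hD2 (by rw [← hB]; exact h2)
  have l3 := loc1 d3 C D3 hd3 hD3 (by rw [← hC]; exact h3)
  have A0 : A ≠ 0 := by rintro rfl; exact ne_zero_of_odd o1 (by rw [hA]; ring)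
  have B0 : B ≠ 0 := by rintro rfl; exact ne_zero_of_odd o2 (by rw [hB]; ring)
  have C0 : C ≠ 0 := by rintro rfl; exact ne_zero_of_odd o3 (by rw [hC]; ring)
  obtain ⟨σ, τ, hne, s, t, s1, s2, t1, t2, hs, ht⟩ := exists_embs
  obtain ⟨pA, qA⟩ := hne A A0
  obtain ⟨pB, qB⟩ := hne B B0
  obtain ⟨pC, qC⟩ := hne C C0
  obtain ⟨pE, qE⟩ := hne _ E0
  suffices hh : A ^ 2 = X ∧ B ^ 2 = X - ra * (2 ^ (k + 1) * D) ^ 2 ∧
      C ^ 2 = X - rb * (2 ^ (k + 1) * D) ^ 2 from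
    ⟨A, B, C, D, hD, hh.1 ▸ h8, by linear_combination hh.1 - hh.2.1,
      by linear_combination hh.1 - hh.2.2⟩
  generalize 2 ^ (k + 1) * D = E at *
  have e1 : d1 = 1 := by
    refine l1.resolve_right ?_
    rintro rfl
    have h4 := congrArg τ h'
    rw [hA] at h4
    simp only [map_mul, map_sub, map_pow, map_neg, map_ofNat, ra, rb, ht 3 (-6), ht 9 12] at h4
    push_cast at h4
    have p2 : 0 < -(-3 * τ A ^ 2 - (3 + -6 * t) * τ E ^ 2) := by nlinarith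
    have p3 : 0 < -(-3 * τ A ^ 2 - (9 + 12 * t) * τ E ^ 2) := by nlinarith
    nlinarith [mul_pos (mul_pos qA p2) p3, sq_nonneg (τ Y)]
  subst e1
  have e2 : d2 = 1 := by
    refine l2.resolve_right ?_
    rintro rfl
    have h4 := congrArg σ hB
    rw [hA] at h4
    simp only [map_mul, map_sub, map_pow, map_neg, map_ofNat, map_one, ra, hs 3 (-6)] at h4
    push_cast at h4
    nlinarith
  subst e2
  have e3 : d3 = 1 := by
    refine l3.resolve_right ?_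
    rintro rfl
    have h4 := congrArg σ h'
    rw [hB, hC, hA] at h4
    simp only [map_mul, map_pow, map_neg, map_ofNat, map_one] at h4
    nlinarith [mul_pos (mul_pos pA pB) pC, sq_nonneg (σ Y)]
  subst e3
  exact ⟨by rw [hA, one_mul], by rw [hB, one_mul], by rw [hC, one_mul]⟩

lemma halves' (k : ℕ) (A B c : O) (hA : IsCoprime A 2)
    (h : A ^ 2 - B ^ 2 = 4 * ((2 ^ (k + 1)) ^ 2 * c)) :
    ∃ U V, U + (2 ^ (k + 1)) ^ 2 * V = A ∧ U * V = c := by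
  obtain ⟨U, V, h1, h2⟩ := halves A B _ h
  have key : ∀ U V : O, U + V = A → U * V = (2 ^ (k + 1)) ^ 2 * c → ¬ 2 ∣ U →
      ∃ U V, U + (2 ^ (k + 1)) ^ 2 * V = A ∧ U * V = c := by
    intro U V h1 h2 h3
    obtain ⟨V, rfl⟩ : (2 ^ (k + 1)) ^ 2 ∣ V :=
      (cop2 U h3).symm.pow_left.pow_left.dvd_of_dvd_mul_left ⟨_, h2⟩
    exact ⟨U, V, h1, mul_left_cancel₀ (pow_ne_zero 2 (pow_ne_zero (k + 1) two_prime.ne_zero))
      (by linear_combination h2)⟩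
  by_cases hU : 2 ∣ U
  · refine key V U (by rw [add_comm, h1]) (by rw [mul_comm, h2]) fun hV => ?_
    exact two_prime.not_isUnit (hA.isUnit_of_dvd' (h1 ▸ hU.add hV) dvd_rfl)
  · exact key U V h1 h2 hU

theorem desc9 : ∀ (k : ℕ) (A B C D : O), IsCoprime D 2 → 8 ∣ A ^ 2 - D ^ 2 →
    A ^ 2 - B ^ 2 = ra * (2 ^ (k + 1) * D) ^ 2 → A ^ 2 - C ^ 2 = rb * (2 ^ (k + 1) * D) ^ 2 →
    False := by
  intro k
  induction k with
  | zero => intro A B C D h1 h2 h3 h4; exact base1 A B C D h1 h2 (by simpa using h3) (by simpa using h4)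
  | succ k ih =>
    intro A B C D hD h8 hB hC
    have hA : IsCoprime A 2 := (IsCoprime.pow_left_iff two_pos).1
      (odd_of_cong (hD.pow_left (m := 2)) (Dvd.dvd.trans ⟨4, by norm_num⟩ h8))
    obtain ⟨U, V, h1, h2⟩ := halves' k A B (ra * D ^ 2) hA (by linear_combination hB)
    obtain ⟨U', V', h3, h4⟩ := halves' k A C (rb * D ^ 2) hA (by linear_combination hC)
    have hab : ra - rb = 2 * ⟨-3, -9⟩ := by decide
    obtain ⟨z, hz⟩ : 2 ∣ V - V' := hA.symm.dvd_of_dvd_mul_left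
      ⟨⟨-3, -9⟩ * D ^ 2 + 2 * (2 ^ k) ^ 2 * (V ^ 2 - V' ^ 2),
        by linear_combination h2 - h4 + D ^ 2 * hab - V * h1 + V' * h3⟩
    obtain ⟨w, hw⟩ := h8
    obtain ⟨A', B', C', D', g1, g2, g3, g4⟩ := toSq k (U * U') D (U * U' * (U + U' - A)) hD
      ⟨w - (2 ^ k) ^ 2 * A * (z + V') + 2 * (2 ^ k) ^ 4 * V * V', by
        rw [show U = A - (2 ^ (k + 1)) ^ 2 * V by linear_combination h1,
          show U' = A - (2 ^ (k + 1)) ^ 2 * V' by linear_combination h3]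
        linear_combination hw - 4 * (2 ^ k) ^ 2 * A * hz⟩
      (by
        have e1 : U * U' - ra * (2 ^ (k + 1) * D) ^ 2 = U * (U + U' - A) := by
          linear_combination (2 ^ (k + 1)) ^ 2 * h2 - U * h1
        have e2 : U * U' - rb * (2 ^ (k + 1) * D) ^ 2 = U' * (U + U' - A) := by
          linear_combination (2 ^ (k + 1)) ^ 2 * h4 - U' * h3
        rw [e1, e2]; ring)
    exact ih A' B' C' D' g1 g2 g3 g4

end Pool.Agent.Lib.MP_ab8df0_nt
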