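import Pool.Agent.Lib.MP_ab8df0_nt.Z3

/-! The equation `x ^ 4 + 4 y ^ 3 + z ^ 3 = 0`. -/

namespace Pool.Agent.Lib.MP_ab8df0_nt

open Z3

lemma conic (b0 b1 b2 : ℤ) (hc : IsCoprime b0 b1) (h : b0 * b1 + b2 ^ 2 = 0) (h0 : 0 < b0) :
    ∃ s t : ℤ, IsCoprime s t ∧ b0 = s ^ 2 ∧ b1 = -t ^ 2 ∧ b2 = s * t := by
  obtain ⟨s, hs⟩ := Int.sq_of_isCoprime (c := b2) hc.neg_right (by linarith)
  obtain ⟨t, ht⟩ := Int.sq_of_isCoprime (c := b2) hc.neg_right.symm (by linarith)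
  have hs : b0 = s ^ 2 := by
    rcases hs with hs | hs
    · exact hs
    · nlinarith [sq_nonneg s]
  have ht : b1 = -t ^ 2 := by
    rcases ht with ht | ht
    · linarith
    · have h1 : b1 = t ^ 2 := by linarith
      have : b1 = 0 := by nlinarith [sq_nonneg t, sq_nonneg b2]
      rw [← h1, this]; simp
  have hst : IsCoprime s t := by
    rw [hs, ht, IsCoprime.neg_right_iff] at hc
    exact (IsCoprime.pow_iff (by norm_num) (by norm_num)).1 hc
  have : (b2 - s * t) * (b2 + s * t) = 0 := by rw [hs, ht] at h; linarith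
  rcases mul_eq_zero.1 this with h2 | h2
  · exact ⟨s, t, hst, hs, ht, by linarith⟩
  · exact ⟨s, -t, hst.neg_right, hs, by rw [ht]; ring, by linarith⟩

lemma param (P Q W : ℤ) (hPQ : IsCoprime P Q) (hP : ¬ 2 ∣ P) (h3 : ¬ 3 ∣ W)
    (h : P ^ 3 + 4 * Q ^ 3 = W ^ 2) : ∃ s t : ℤ, IsCoprime s t ∧ P = s * (s ^ 3 - 4 * t ^ 3) ∧
      Q = t * (t ^ 3 + 2 * s ^ 3) := by
  have hP2 : IsCoprime P 2 := (Int.prime_two.coprime_iff_not_dvd.2 hP).symm
  have hPW : IsCoprime P (W ^ 2) := by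
    rw [← h, show P ^ 3 + 4 * Q ^ 3 = 2 ^ 2 * Q ^ 3 + P * P ^ 2 by ring]
    exact (hP2.pow_right.mul_right hPQ.pow_right).add_mul_left_right _
  have h3W : IsCoprime 3 (W ^ 2) := (Int.prime_three.coprime_iff_not_dvd.2 h3).pow_right
  obtain ⟨u, v, huv⟩ := h3W.mul_left (hPW.pow_left (m := 2))
  have hcop : IsCoprime (⟨P, 0, Q⟩ : Z3) (adj ⟨P, 0, Q⟩) := by
    refine ⟨⟨v, 0, 0⟩ * adj ⟨P, 0, Q⟩ - ⟨u, 0, 0⟩ * ⟨-2 * P, 0, Q⟩, ⟨u, 0, 0⟩, ?_⟩
    ext <;> simp [adj]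
    · linear_combination huv + v * h
    · ring
    · ring
  obtain ⟨d, e, he⟩ := exists_associated_pow_of_mul_eq_pow' (c := ⟨W, 0, 0⟩) (k := 2) hcop
    (by rw [mul_adj]; ext <;> simp [N, pow_two]; linear_combination h)
  have hW : W ≠ 0 := fun h0 => h3 (by simp [h0])
  have hNe : N (e : Z3) = 1 := by
    have h1 : N (e : Z3) * N ((e⁻¹ : Z3ˣ) : Z3) = 1 := by rw [← N_mul, Units.mul_inv, N_one]
    have h2 := congrArg N he
    rw [N_mul, pow_two, N_mul] at h2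
    have h4 : N ⟨P, 0, Q⟩ = W ^ 2 := by simp [N]; linear_combination h
    rcases Int.eq_one_or_neg_one_of_mul_eq_one h1 with h5 | h5
    · exact h5
    · rw [h5, h4] at h2
      nlinarith [mul_self_nonneg (N d), sq_pos_of_ne_zero hW]
  have main : ∀ b : Z3, 0 < b.a → b ^ 2 = ⟨P, 0, Q⟩ → ∃ s t : ℤ, IsCoprime s t ∧
      P = s * (s ^ 3 - 4 * t ^ 3) ∧ Q = t * (t ^ 3 + 2 * s ^ 3) := by
    rintro ⟨b0, b1, b2⟩ h0 hb
    have e0 := congrArg Z3.a hb; have e1 := congrArg Z3.b hb; have e2 := congrArg Z3.c hb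
    simp only [pow_two, mul_a, mul_b, mul_c] at h0 e0 e1 e2
    have hc : IsCoprime b0 b1 := by
      refine isCoprime_of_prime_dvd (fun h => by omega) fun p hp p0 p1 => ?_
      refine hp.not_isUnit (hPQ.isUnit_of_dvd' ?_ ?_)
      · rw [← e0, show b0 * b0 + 2 * (b1 * b2 + b2 * b1) = b0 * b0 + b1 * (4 * b2) by ring]
        exact (p0.mul_right _).add (p1.mul_right _)
      · rw [← e2, show b0 * b2 + b1 * b1 + b2 * b0 = b0 * (2 * b2) + b1 * b1 by ring]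
        exact (p0.mul_right _).add (p1.mul_right _)
    obtain ⟨s, t, hst, rfl, rfl, rfl⟩ := conic b0 b1 b2 hc (by linarith) h0
    exact ⟨s, t, hst, by rw [← e0]; ring, by rw [← e2]; ring⟩
  obtain ⟨w, hw | hw⟩ := unit_cases e hNe
  · have hb : (d * w) ^ 2 = ⟨P, 0, Q⟩ := by rw [← he, hw]; ring
    rcases lt_trichotomy 0 (d * w).a with h0 | h0 | h0
    · exact main _ h0 hb
    · exfalso
      have e0 := congrArg Z3.a hb
      generalize d * w = b at e0 h0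
      simp only [pow_two, mul_a] at e0
      exact hP ⟨b.b * b.c + b.c * b.b, by rw [← e0, ← h0]; ring⟩
    · exact main (-(d * w)) (by simp only [neg_a]; omega) (by rw [← hb]; ring)
  · exfalso
    have hb : eps * (d * w) ^ 2 = ⟨P, 0, Q⟩ := by rw [← he, hw]; ring
    have e0 := congrArg Z3.a hb; have e1 := congrArg Z3.b hb
    generalize d * w = b at e0 e1
    simp only [pow_two, mul_a, mul_b, mul_c, eps] at e0 e1
    exact hP ⟨-(b.a * b.b + b.c * b.c) + (2 * b.a * b.c + b.b * b.b), by linear_combination -e0 - e1⟩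

/-- the curve `y ^ 2 = x ^ 3 - 32` has no rational points -/
lemma curve32 : ∀ (n : ℕ) (X Y D : ℤ), D.natAbs ≤ n → IsCoprime X D →
    Y ^ 2 = X ^ 3 - 32 * D ^ 6 → D = 0 := by
  intro n
  induction n with
  | zero => intro X Y D h _ _; omega
  | succ n ih =>
    intro X Y D hn hc h
    by_contra hD
    have ev : ∀ (k : ℕ) (u : ℤ), 2 ∣ u ^ k → 2 ∣ u := fun k u hu => Int.prime_two.dvd_of_dvd_pow hu
    have hX : ¬ 2 ∣ X := by
      rintro ⟨X, rfl⟩
      obtain ⟨Y, rfl⟩ := ev 2 Y ⟨4 * X ^ 3 - 16 * D ^ 6, by linear_combination h⟩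
      obtain ⟨Y, rfl⟩ := ev 2 Y ⟨X ^ 3 - 4 * D ^ 6, by linarith⟩
      obtain ⟨X, rfl⟩ := ev 3 X ⟨Y ^ 2 + 2 * D ^ 6, by linarith⟩
      obtain ⟨Y, rfl⟩ := ev 2 Y ⟨2 * X ^ 3 - D ^ 6, by linarith⟩
      have := ev 6 D ⟨X ^ 3 - Y ^ 2, by linarith⟩
      exact Int.prime_two.not_isUnit (hc.isUnit_of_dvd' ⟨2 * X, rfl⟩ this)
    have hY : ¬ 3 ∣ Y := by
      rintro ⟨Y, rfl⟩
      obtain ⟨u, v, huv⟩ := hc
      have h1 := congrArg (Int.cast : ℤ → ZMod 9) h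
      have h2 := congrArg (Int.cast : ℤ → ZMod 9) huv
      push_cast at h1 h2
      have : ∀ x d y : ZMod 9, (3 * y) ^ 2 = x ^ 3 - 32 * d ^ 6 → 3 * x = 0 ∧ 3 * d = 0 := by decide
      obtain ⟨h3, h4⟩ := this _ _ _ h1
      have : (3 : ZMod 9) = 0 := by linear_combination (u : ZMod 9) * h3 + (v : ZMod 9) * h4 - 3 * h2
      revert this; decide
    have hc2 : IsCoprime X (-2 * D ^ 2) :=
      (Int.prime_two.coprime_iff_not_dvd.2 hX).symm.neg_right.mul_right hc.pow_right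
    obtain ⟨s, t, hst, h1, h2⟩ := param X (-2 * D ^ 2) Y hc2 hX hY (by linarith)
    have hs : ¬ 2 ∣ s := fun h => hX (h1 ▸ h.mul_right _)
    obtain ⟨t, rfl⟩ := ev 4 t ⟨-D ^ 2 - t * s ^ 3, by linarith⟩
    obtain ⟨D, rfl⟩ := ev 2 D ⟨-(t * (4 * t ^ 3 + s ^ 3)), by linarith⟩
    have ht : 2 ∣ t := by
      have : 2 ∣ t * s ^ 3 := ⟨-D ^ 2 - 2 * t ^ 4, by linarith⟩
      exact (Int.prime_two.dvd_or_dvd this).resolve_right fun h => hs (ev 3 s h)
    obtain ⟨f, rfl⟩ := ht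
    have hsf : IsCoprime s f := hst.of_mul_right_right.of_mul_right_right
    have hcf : IsCoprime f (-(32 * f ^ 3 + s ^ 3)) := by
      rw [IsCoprime.neg_right_iff, show 32 * f ^ 3 + s ^ 3 = s ^ 3 + f * (32 * f ^ 2) by ring]
      exact hsf.symm.pow_right.add_mul_left_right _
    have hprod : f * (-(32 * f ^ 3 + s ^ 3)) = D ^ 2 := by linarith
    have hD0 : D ≠ 0 := fun h => hD (by simp [h])
    have hD2 : 0 < D ^ 2 := by positivity
    obtain ⟨e, he⟩ := Int.sq_of_isCoprime hcf hprod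
    obtain ⟨g, hg⟩ := Int.sq_of_isCoprime hcf.symm (by rw [mul_comm]; exact hprod)
    have fin : ∀ X' : ℤ, IsCoprime X' e → g ^ 2 = X' ^ 3 - 32 * e ^ 6 → (e * g) ^ 2 = D ^ 2 →
        False := by
      intro X' c1 c2 c3
      have hg0 : g ≠ 0 := by rintro rfl; simp at c3; exact hD0 (by simpa using c3.symm)
      have he0 : e ≠ 0 := by rintro rfl; simp at c3; exact hD0 (by simpa using c3.symm)
      have h5 : (e * g).natAbs = D.natAbs := Int.natAbs_eq_iff_sq_eq.2 c3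
      rw [Int.natAbs_mul] at h5
      have h6 : e.natAbs ≤ D.natAbs := by
        rw [← h5]; exact Nat.le_mul_of_pos_right _ (Int.natAbs_pos.2 hg0)
      exact he0 (ih X' g e (by omega) c1 c2)
    rcases he with rfl | rfl <;> rcases hg with hg | hg <;> rw [hg] at hprod
    · exact fin (-s) ((IsCoprime.pow_right_iff (by norm_num)).1 hsf).neg_left (by linarith)
        (by linarith)
    · nlinarith [sq_nonneg (e * g)]
    · nlinarith [sq_nonneg (e * g)]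
    · exact fin s ((IsCoprime.pow_right_iff (by norm_num)).1 ((IsCoprime.neg_right_iff _ _).1 hsf)) (by linarith)
        (by linarith)

lemma sixth (A B t : ℤ) (hc : IsCoprime A B) (h : A * B = t ^ 6) :
    ∃ m n σ τ : ℤ, (σ = 1 ∨ σ = -1) ∧ (τ = 1 ∨ τ = -1) ∧ A = σ * m ^ 6 ∧ B = σ * n ^ 6 ∧
      t = τ * (m * n) := by
  obtain ⟨m, hm⟩ := exists_associated_pow_of_mul_eq_pow' hc h
  obtain ⟨n, hn⟩ := exists_associated_pow_of_mul_eq_pow' hc.symm (by rw [mul_comm]; exact h)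
  have key : ∀ m n : ℤ, t ^ 6 = (m * n) ^ 6 → ∃ τ : ℤ, (τ = 1 ∨ τ = -1) ∧ t = τ * (m * n) := by
    intro m n h6
    rcases (pow_eq_pow_iff_of_ne_zero (by norm_num)).1 h6 with h7 | h7
    · exact ⟨1, Or.inl rfl, by rw [h7]; ring⟩
    · exact ⟨-1, Or.inr rfl, by rw [h7.1]; ring⟩
  have z : ∀ m n : ℤ, t ^ 6 = -(m * n) ^ 6 → t ^ 6 = (m * n) ^ 6 ∧ (m = 0 ∨ n = 0) := by
    intro m n h6
    have h1 : 0 ≤ t ^ 6 := by positivity
    have h2 : 0 ≤ (m * n) ^ 6 := by positivity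
    have h3 : (m * n) ^ 6 = 0 := by linarith
    exact ⟨by linarith, mul_eq_zero.1 (pow_eq_zero_iff (by norm_num) |>.1 h3)⟩
  rcases Int.associated_iff.1 hm with hm | hm <;> rcases Int.associated_iff.1 hn with hn | hn
  · obtain ⟨τ, h1, h2⟩ := key m n (by rw [← h, ← hm, ← hn]; ring)
    exact ⟨m, n, 1, τ, Or.inl rfl, h1, by linarith, by linarith, h2⟩
  · obtain ⟨h3, h4⟩ := z m n (by rw [← h, mul_pow, hm, hn]; ring)
    obtain ⟨τ, h1, h2⟩ := key m n h3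
    rcases h4 with rfl | rfl
    · exact ⟨0, n, -1, τ, Or.inr rfl, h1, by linarith, by linarith, h2⟩
    · exact ⟨m, 0, 1, τ, Or.inl rfl, h1, by linarith, by linarith, h2⟩
  · obtain ⟨h3, h4⟩ := z m n (by rw [← h, mul_pow, hm, hn]; ring)
    obtain ⟨τ, h1, h2⟩ := key m n h3
    rcases h4 with rfl | rfl
    · exact ⟨0, n, 1, τ, Or.inl rfl, h1, by linarith, by linarith, h2⟩
    · exact ⟨m, 0, -1, τ, Or.inr rfl, h1, by linarith, by linarith, h2⟩
  · obtain ⟨τ, h1, h2⟩ := key m n (by rw [← h, mul_pow, hm, hn]; ring)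
    exact ⟨m, n, -1, τ, Or.inr rfl, h1, by linarith, by linarith, h2⟩

lemma cop (A B t S u v k : ℤ) (hc : IsCoprime S t) (h : A * B = t ^ 6)
    (h2 : u * A + v * B = S + k * t) : IsCoprime A B := by
  refine isCoprime_of_prime_dvd (fun h0 => ?_) fun p hp p0 p1 => ?_
  · obtain ⟨rfl, rfl⟩ := h0
    have ht : t = 0 := pow_eq_zero_iff (n := 6) (by norm_num) |>.1 (by linarith)
    have hS : S = 0 := by rw [ht] at h2; linarith
    rw [ht, hS] at hc
    exact not_isCoprime_zero_zero hc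
  · have h3 : p ∣ t := hp.dvd_of_dvd_pow (h ▸ p0.mul_right _)
    have h4 : p ∣ S + k * t := h2 ▸ (p0.mul_left _).add (p1.mul_left _)
    exact hp.not_isUnit (hc.isUnit_of_dvd' ((dvd_add_left (h3.mul_left _)).1 h4) h3)

lemma core (s t x : ℤ) (hst : IsCoprime s t) (hs : ¬ 2 ∣ s)
    (h : x ^ 2 = s ^ 6 + 10 * s ^ 3 * t ^ 3 - 2 * t ^ 6) (hA : ¬ 3 ∣ s ^ 3 + 5 * t ^ 3 - x) :
    t = 0 := by
  have hAB : (s ^ 3 + 5 * t ^ 3 - x) * (s ^ 3 + 5 * t ^ 3 + x) = 3 ^ 3 * t ^ 6 := by linarith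
  obtain ⟨B, hB⟩ : (3 : ℤ) ^ 3 ∣ s ^ 3 + 5 * t ^ 3 + x :=
    (Int.prime_three.coprime_iff_not_dvd.2 hA).pow_left.dvd_of_dvd_mul_left ⟨_, hAB⟩
  obtain ⟨A, hA'⟩ : ∃ A, A = s ^ 3 + 5 * t ^ 3 - x := ⟨_, rfl⟩
  rw [← hA'] at hA hAB
  have h1 : A * B = t ^ 6 := by rw [hB] at hAB; linarith
  have h2 : A + 27 * B = 2 * s ^ 3 + 10 * t ^ 3 := by linarith
  clear hAB hB hA' h
  by_cases ht : 2 ∣ t
  · obtain ⟨t, rfl⟩ := ht
    have hst' : IsCoprime (s ^ 3) t := hst.of_mul_right_right.pow_left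
    have hs3 : ¬ 2 ∣ s ^ 3 := fun h => hs (Int.prime_two.dvd_of_dvd_pow h)
    have hA2 : 2 ∣ A := by
      have : 2 ∣ A * B := ⟨32 * t ^ 6, by linarith⟩
      rcases Int.prime_two.dvd_or_dvd this with h | ⟨B, rfl⟩
      · exact h
      · exact ⟨s ^ 3 + 40 * t ^ 3 - 27 * B, by linarith⟩
    obtain ⟨A, rfl⟩ := hA2
    obtain ⟨B, rfl⟩ : 2 ∣ B := ⟨s ^ 3 + 40 * t ^ 3 - A - 13 * B, by linarith⟩
    by_cases hA2 : 2 ∣ A
    · exfalso
      have hB2 : ¬ 2 ∣ B := by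
        rintro ⟨B, rfl⟩
        obtain ⟨A, rfl⟩ := hA2
        exact hs3 ⟨A + 27 * B - 20 * t ^ 3, by linarith⟩
      obtain ⟨A, rfl⟩ : (2 : ℤ) ^ 4 ∣ A :=
        (Int.prime_two.coprime_iff_not_dvd.2 hB2).pow_left.dvd_of_dvd_mul_right
          ⟨t ^ 6, by linarith⟩
      have h3 : A * B = t ^ 6 := by linarith
      obtain ⟨m, n, σ, τ, hσ, -, rfl, -, -⟩ := sixth A B t
        (cop A B t _ 16 27 (40 * t ^ 2) hst' h3 (by linarith)) h3
      have hm : ¬ 3 ∣ m := fun h => hA (((dvd_pow h (by norm_num)).mul_left _).mul_left _ |>.mul_left _)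
      have h4 : 16 * (σ * m ^ 6) + 27 * B = s ^ 3 + 40 * t ^ 3 := by linarith
      have h5 := congrArg (Int.cast : ℤ → ZMod 9) h4
      push_cast at h5
      have h6 : (3 : ZMod 9) * m ≠ 0 := by
        intro h7
        have : ((3 * m : ℤ) : ZMod 9) = 0 := by push_cast; exact h7
        rw [ZMod.intCast_zmod_eq_zero_iff_dvd] at this
        omega
      have h7 : (27 : ZMod 9) = 0 := by decide
      rw [h7, zero_mul, add_zero] at h5
      revert h5 h6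
      generalize (m : ZMod 9) = m; generalize (s : ZMod 9) = s; generalize (t : ZMod 9) = t
      rcases hσ with rfl | rfl <;> push_cast <;> revert m s t <;> decide
    · obtain ⟨B, rfl⟩ : (2 : ℤ) ^ 4 ∣ B :=
        (Int.prime_two.coprime_iff_not_dvd.2 hA2).pow_left.dvd_of_dvd_mul_left
          ⟨t ^ 6, by linarith⟩
      have h3 : A * B = t ^ 6 := by linarith
      obtain ⟨m, n, σ, τ, hσ, hτ, rfl, rfl, rfl⟩ := sixth A B t
        (cop A B t _ 1 432 (40 * t ^ 2) hst' h3 (by linarith)) h3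
      have hsn : IsCoprime s n :=
        hst.of_mul_right_right.of_mul_right_right.of_mul_right_right
      have hn : n = 0 := by
        rcases hσ with rfl | rfl <;> rcases hτ with rfl | rfl
        · exact curve32 _ s (m ^ 3 - 20 * n ^ 3) n le_rfl hsn (by linarith)
        · exact curve32 _ s (m ^ 3 + 20 * n ^ 3) n le_rfl hsn (by linarith)
        · exact curve32 _ (-s) (m ^ 3 + 20 * n ^ 3) n le_rfl hsn.neg_left (by linarith)
        · exact curve32 _ (-s) (m ^ 3 - 20 * n ^ 3) n le_rfl hsn.neg_left (by linarith)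
      simp [hn]
  · exfalso
    have hc : IsCoprime (2 * s ^ 3) t :=
      (Int.prime_two.coprime_iff_not_dvd.2 ht).mul_left hst.pow_left
    have hAB := cop A B t _ 1 27 (10 * t ^ 2) hc h1 (by linarith)
    obtain ⟨m, n, σ, τ, hσ, hτ, rfl, rfl, rfl⟩ := sixth A B t hAB h1
    obtain ⟨u, v, huv⟩ := hAB
    have h5 := congrArg (Int.cast : ℤ → ZMod 7) h2
    have h6 := congrArg (Int.cast : ℤ → ZMod 7) huv
    push_cast at h5 h6
    have h7 : ¬ ((m : ZMod 7) = 0 ∧ (n : ZMod 7) = 0) := by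
      rintro ⟨a, b⟩
      rw [a, b] at h6
      simp at h6
      revert h6; decide
    revert h5 h7
    generalize (m : ZMod 7) = m; generalize (s : ZMod 7) = s; generalize (n : ZMod 7) = n
    rcases hσ with rfl | rfl <;> rcases hτ with rfl | rfl <;> push_cast <;> revert m s n <;> decide

theorem E4 (x y z : ℤ) (hg : Int.gcd (Int.gcd x y) z = 1) (h : x ^ 4 + 4 * y ^ 3 + z ^ 3 = 0) :
    (x = 1 ∨ x = -1) ∧ y = 0 ∧ z = -1 := by
  have hp : ∀ p : ℤ, Prime p → p ∣ x → p ∣ y → ¬ p ∣ z := fun p hp h1 h2 h3 =>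
    hp.not_isUnit (isUnit_of_dvd_one (by
      have := Int.dvd_coe_gcd (Int.dvd_coe_gcd h1 h2) h3
      rwa [hg] at this))
  have hz : ¬ 2 ∣ z := by
    rintro ⟨z, rfl⟩
    obtain ⟨x, rfl⟩ : 2 ∣ x := Int.prime_two.dvd_of_dvd_pow (n := 4) ⟨-2 * y ^ 3 - 4 * z ^ 3, by linarith⟩
    exact hp 2 Int.prime_two ⟨x, rfl⟩
      (Int.prime_two.dvd_of_dvd_pow (n := 3) ⟨-2 * x ^ 4 - z ^ 3, by linarith⟩) ⟨z, rfl⟩
  have hzy : IsCoprime z y := by
    refine isCoprime_of_prime_dvd (fun h0 => hz (by simp [h0.1])) fun p hp' p0 p1 => ?_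
    refine hp p hp' (hp'.dvd_of_dvd_pow (n := 4) ?_) p1 p0
    rw [show x ^ 4 = -(y * (4 * y ^ 2) + z * z ^ 2) by linarith]
    exact ((p1.mul_right _).add (p0.mul_right _)).neg_right
  have hx : ¬ 3 ∣ x := by
    rintro ⟨x, rfl⟩
    obtain ⟨u, v, huv⟩ := hzy
    have h1 := congrArg (Int.cast : ℤ → ZMod 9) h
    have h2 := congrArg (Int.cast : ℤ → ZMod 9) huv
    push_cast at h1 h2
    have : ∀ x y z : ZMod 9, (3 * x) ^ 4 + 4 * y ^ 3 + z ^ 3 = 0 → 3 * z = 0 ∧ 3 * y = 0 := by decide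
    obtain ⟨h3, h4⟩ := this _ _ _ h1
    have : (3 : ZMod 9) = 0 := by linear_combination (u : ZMod 9) * h3 + (v : ZMod 9) * h4 - 3 * h2
    revert this; decide
  obtain ⟨s, t, hst, h1, h2⟩ := param (-z) (-y) (x ^ 2) hzy.neg_left.neg_right (by omega)
    (fun h => hx (Int.prime_three.dvd_of_dvd_pow h)) (by linarith)
  have hs : ¬ 2 ∣ s := fun h => hz (by rw [← dvd_neg, h1]; exact h.mul_right _)
  have hz' : z = -(s * (s ^ 3 - 4 * t ^ 3)) := by linarith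
  have hy' : y = -(t * (t ^ 3 + 2 * s ^ 3)) := by linarith
  have h3 : (x ^ 2 - (s ^ 6 + 10 * s ^ 3 * t ^ 3 - 2 * t ^ 6)) *
      (x ^ 2 + (s ^ 6 + 10 * s ^ 3 * t ^ 3 - 2 * t ^ 6)) = 0 := by
    rw [hz', hy'] at h; linear_combination h
  have h4 : x ^ 2 = s ^ 6 + 10 * s ^ 3 * t ^ 3 - 2 * t ^ 6 := by
    rcases mul_eq_zero.1 h3 with h4 | h4
    · linarith
    · exfalso
      have h5 := congrArg (Int.cast : ℤ → ZMod 3) h4
      push_cast at h5
      have : ∀ x s t : ZMod 3, x ^ 2 + (s ^ 6 + 10 * s ^ 3 * t ^ 3 - 2 * t ^ 6) = 0 → x = 0 := by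
        decide
      exact hx ((ZMod.intCast_zmod_eq_zero_iff_dvd x 3).1 (this _ _ _ h5))
  have ht : t = 0 := by
    by_cases hA : 3 ∣ s ^ 3 + 5 * t ^ 3 - x
    · refine core s t (-x) hst hs (by linarith) fun hB => hx ?_
      omega
    · exact core s t x hst hs h4 hA
  subst ht
  have hs1 : s ^ 2 = 1 := by
    rcases Int.isUnit_iff.1 (isCoprime_zero_right.1 hst) with rfl | rfl <;> norm_num
  have hx1 : (x - 1) * (x + 1) = 0 := by
    linear_combination h4 + (s ^ 4 + s ^ 2 + 1) * hs1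
  refine ⟨?_, by simpa using hy', by rw [hz']; linear_combination (-(s ^ 2) - 1) * hs1⟩
  rcases mul_eq_zero.1 hx1 with h | h
  · left; linarith
  · right; linarith

end Pool.Agent.Lib.MP_ab8df0_nt
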