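import Pool.Agent.Lib.MP_ab8df0_nt.C.Cub
import Pool.Agent.Lib.MP_ab8df0_nt.C.Red6
import Pool.Agent.Lib.MP_ab8df0_nt.C.Red7
import Pool.Agent.Lib.MP_ab8df0_nt.C.Red8
import Pool.Agent.Lib.MP_ab8df0_nt.E4
import Pool.Agent.Lib.MP_ab8df0_nt.E5
import Pool.Agent.Lib.MP_ab8df0_nt.E9

/-! The nine sets of primitive solutions, from the intermediate statements. -/

namespace Pool.Agent.Lib.MP_ab8df0_nt.Fin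

open C

theorem seteq {S : Set (ℤ × ℤ × ℤ)} {f : ℤ → ℤ → ℤ → ℤ}
    (h1 : ∀ x y z : ℤ, Int.gcd (Int.gcd x y) z = 1 → f x y z = 0 → (x, y, z) ∈ S)
    (h2 : ∀ p ∈ S, Int.gcd (Int.gcd p.1 p.2.1) p.2.2 = 1 ∧ f p.1 p.2.1 p.2.2 = 0) :
    {p : ℤ × ℤ × ℤ | Int.gcd (Int.gcd p.1 p.2.1) p.2.2 = 1 ∧ f p.1 p.2.1 p.2.2 = 0} = S :=
  Set.ext fun p => ⟨fun h => h1 p.1 p.2.1 p.2.2 h.1 h.2, h2 p⟩

theorem S1 (h0 : BB10) (h1 : BB11) (h2 : BB12) (h3 : BB13) :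
    {p : ℤ × ℤ × ℤ | Int.gcd (Int.gcd p.1 p.2.1) p.2.2 = 1 ∧
      p.1 ^ 4 + 2 * p.2.1 ^ 3 + p.2.2 ^ 3 = 0} =
    {(43, -203, 237), (-43, -203, 237), (1, -1, 1), (-1, -1, 1), (1, 0, -1), (-1, 0, -1)} :=
  seteq (f := fun x y z => x ^ 4 + 2 * y ^ 3 + z ^ 3)
    (E1_of (cubicK2 (A.gen_rt A.K2.fl)) (suK2 (A.gen_rt A.K2.fl)) h0 h1 h2 h3) (by
      rintro p (rfl | rfl | rfl | rfl | rfl | rfl) <;> decide)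

theorem S2 (h0 : BB20) (h1 : BB21) (h2 : BB22) (h3 : BB23) :
    {p : ℤ × ℤ × ℤ | Int.gcd (Int.gcd p.1 p.2.1) p.2.2 = 1 ∧
      p.1 ^ 4 + 3 * p.2.1 ^ 3 + p.2.2 ^ 3 = 0} =
    {(895, -6202, 4199), (-895, -6202, 4199), (1, 0, -1), (-1, 0, -1)} :=
  seteq (f := fun x y z => x ^ 4 + 3 * y ^ 3 + z ^ 3)
    (E2_of (cubicK3 (A.gen_rt A.K3.fl)) (suK3 (A.gen_rt A.K3.fl)) h0 h1 h2 h3) (by
      rintro p (rfl | rfl | rfl | rfl) <;> decide)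

theorem S3 (h0 : BB30) (h1 : BB31) (h2 : BB32) (h3 : BB33) :
    {p : ℤ × ℤ × ℤ | Int.gcd (Int.gcd p.1 p.2.1) p.2.2 = 1 ∧
      p.1 ^ 4 + 3 * p.2.1 ^ 3 + 2 * p.2.2 ^ 3 = 0} = {(1, -1, 1), (-1, -1, 1)} :=
  seteq (f := fun x y z => x ^ 4 + 3 * y ^ 3 + 2 * z ^ 3)
    (E3_of (cubicK12 (A.gen_rt A.K12.fl)) (suK12 (A.gen_rt A.K12.fl)) h0 h1 h2 h3) (by
      rintro p (rfl | rfl) <;> decide)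

theorem S4 :
    {p : ℤ × ℤ × ℤ | Int.gcd (Int.gcd p.1 p.2.1) p.2.2 = 1 ∧
      p.1 ^ 4 + 4 * p.2.1 ^ 3 + p.2.2 ^ 3 = 0} = {(1, 0, -1), (-1, 0, -1)} :=
  seteq (f := fun x y z => x ^ 4 + 4 * y ^ 3 + z ^ 3) (fun x y z h1 h2 => by
    obtain ⟨rfl | rfl, rfl, rfl⟩ := E4 x y z h1 h2 <;> simp) (by
    rintro p (rfl | rfl) <;> decide)

theorem S5 :
    {p : ℤ × ℤ × ℤ | Int.gcd (Int.gcd p.1 p.2.1) p.2.2 = 1 ∧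
      2 * p.1 ^ 4 - p.2.1 ^ 4 + p.2.2 ^ 3 = 0} =
    {(0, 1, 1), (0, -1, 1), (1, 1, -1), (1, -1, -1), (-1, 1, -1), (-1, -1, -1)} :=
  seteq (f := fun x y z => 2 * x ^ 4 - y ^ 4 + z ^ 3) (fun x y z h1 h2 => by
    obtain ⟨rfl | rfl, ⟨rfl, rfl⟩ | ⟨rfl | rfl, rfl⟩⟩ := E5 x y z h1 h2 <;> simp) (by
    rintro p (rfl | rfl | rfl | rfl | rfl | rfl) <;> decide)

theorem S6 (h0 : BB60) (h1 : BB61) (h2 : BB62) (h3 : BB63) (h4 : BB64) :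
    {p : ℤ × ℤ × ℤ | Int.gcd (Int.gcd p.1 p.2.1) p.2.2 = 1 ∧
      p.1 ^ 5 + 2 * p.2.1 ^ 3 + p.2.2 ^ 3 = 0} =
    {(1, -1, 1), (1, 0, -1), (-1, 0, 1), (-1, 1, -1)} :=
  seteq (f := fun x y z => x ^ 5 + 2 * y ^ 3 + z ^ 3) (E6_of h0 h1 h2 h3 h4) (by
    rintro p (rfl | rfl | rfl | rfl) <;> decide)

theorem S7 (h1 : BB71) (h2 : BB72) :
    {p : ℤ × ℤ × ℤ | Int.gcd (Int.gcd p.1 p.2.1) p.2.2 = 1 ∧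
      p.1 ^ 5 + p.2.1 ^ 4 - 2 * p.2.2 ^ 2 = 0} =
    {(-1, 1, 0), (-1, -1, 0), (1, 1, 1), (1, 1, -1), (1, -1, 1), (1, -1, -1)} :=
  seteq (f := fun x y z => x ^ 5 + y ^ 4 - 2 * z ^ 2) (E7_of bb70 h1 h2) (by
    rintro p (rfl | rfl | rfl | rfl | rfl | rfl) <;> decide)

theorem S8 (ha : BB8a) (hb : BB8b) (h1 : BB81) (h2 : BB82) :
    {p : ℤ × ℤ × ℤ | Int.gcd (Int.gcd p.1 p.2.1) p.2.2 = 1 ∧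
      p.1 ^ 5 + p.2.1 ^ 4 - 3 * p.2.2 ^ 2 = 0} =
    {(-1, 1, 0), (-1, -1, 0), (11, 29, 538), (11, 29, -538), (11, -29, 538), (11, -29, -538)} :=
  seteq (f := fun x y z => x ^ 5 + y ^ 4 - 3 * z ^ 2) (E8_of ha hb h1 h2) (by
    rintro p (rfl | rfl | rfl | rfl | rfl | rfl) <;> decide)

theorem S9 :
    {p : ℤ × ℤ × ℤ | Int.gcd (Int.gcd p.1 p.2.1) p.2.2 = 1 ∧
      p.1 ^ 5 + p.2.1 ^ 4 + 3 * p.2.2 ^ 2 = 0} = {(-1, 1, 0), (-1, -1, 0)} :=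
  seteq (f := fun x y z => x ^ 5 + y ^ 4 + 3 * z ^ 2) (fun x y z h1 h2 => by
    obtain ⟨rfl, rfl | rfl, rfl⟩ := E9 x y z h1 h2 <;> simp) (by
    rintro p (rfl | rfl) <;> decide)

end Pool.Agent.Lib.MP_ab8df0_nt.Fin
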