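import Pool.Agent.Lib.MP_ab8df0_nt.Quad

/-! The cubic ring `Z[t]`, `t ^ 3 + 3 t - 2 = 0`, of discriminant `-216`. -/

namespace Pool.Agent.Lib.MP_ab8df0_nt

@[ext] structure O3 where
  a : ℤ
  b : ℤ
  c : ℤ
deriving DecidableEq

namespace O3

instance : Zero O3 := ⟨⟨0, 0, 0⟩⟩
instance : One O3 := ⟨⟨1, 0, 0⟩⟩
instance : Add O3 := ⟨fun x y => ⟨x.a + y.a, x.b + y.b, x.c + y.c⟩⟩
instance : Neg O3 := ⟨fun x => ⟨-x.a, -x.b, -x.c⟩⟩
instance : Mul O3 := ⟨fun x y => ⟨x.a * y.a + 2 * (x.b * y.c + x.c * y.b),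
  x.a * y.b + x.b * y.a - 3 * (x.b * y.c + x.c * y.b) + 2 * x.c * y.c,
  x.a * y.c + x.b * y.b + x.c * y.a - 3 * x.c * y.c⟩⟩

@[simp] lemma zero_a : (0 : O3).a = 0 := rfl
@[simp] lemma zero_b : (0 : O3).b = 0 := rfl
@[simp] lemma zero_c : (0 : O3).c = 0 := rfl
@[simp] lemma one_a : (1 : O3).a = 1 := rfl
@[simp] lemma one_b : (1 : O3).b = 0 := rfl
@[simp] lemma one_c : (1 : O3).c = 0 := rfl
@[simp] lemma add_a (x y : O3) : (x + y).a = x.a + y.a := rfl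
@[simp] lemma add_b (x y : O3) : (x + y).b = x.b + y.b := rfl
@[simp] lemma add_c (x y : O3) : (x + y).c = x.c + y.c := rfl
@[simp] lemma neg_a (x : O3) : (-x).a = -x.a := rfl
@[simp] lemma neg_b (x : O3) : (-x).b = -x.b := rfl
@[simp] lemma neg_c (x : O3) : (-x).c = -x.c := rfl
@[simp] lemma mul_a (x y : O3) : (x * y).a = x.a * y.a + 2 * (x.b * y.c + x.c * y.b) := rfl
@[simp] lemma mul_b (x y : O3) : (x * y).b =
    x.a * y.b + x.b * y.a - 3 * (x.b * y.c + x.c * y.b) + 2 * x.c * y.c := rfl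
@[simp] lemma mul_c (x y : O3) : (x * y).c =
    x.a * y.c + x.b * y.b + x.c * y.a - 3 * x.c * y.c := rfl

instance : CommRing O3 := CommRing.ofMinimalAxioms
  (by intro x y z; ext <;> simp <;> ring) (by intro x; ext <;> simp)
  (by intro x; ext <;> simp) (by intro x y z; ext <;> simp <;> ring)
  (by intro x y; ext <;> simp <;> ring) (by intro x; ext <;> simp)
  (by intro x y z; ext <;> simp <;> ring)

@[simp] lemma sub_a (x y : O3) : (x - y).a = x.a - y.a := by simp [sub_eq_add_neg]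
@[simp] lemma sub_b (x y : O3) : (x - y).b = x.b - y.b := by simp [sub_eq_add_neg]
@[simp] lemma sub_c (x y : O3) : (x - y).c = x.c - y.c := by simp [sub_eq_add_neg]

lemma natCast_eq (n : ℕ) : (n : O3) = ⟨n, 0, 0⟩ := by
  induction n with
  | zero => rfl
  | succ n ih => rw [Nat.cast_succ, ih]; ext <;> simp

lemma intCast_eq (n : ℤ) : (n : O3) = ⟨n, 0, 0⟩ := by
  obtain ⟨n, rfl | rfl⟩ := Int.eq_nat_or_neg n
  · rw [Int.cast_natCast, natCast_eq]
  · rw [Int.cast_neg, Int.cast_natCast, natCast_eq]; ext <;> simp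

/-- the norm form -/
def F {R : Type*} [CommRing R] (a b c : R) : R :=
  a ^ 3 - 6 * a ^ 2 * c + 3 * a * b ^ 2 - 6 * a * b * c + 9 * a * c ^ 2 + 2 * b ^ 3 +
    6 * b * c ^ 2 + 4 * c ^ 3

/-- the norm -/
def N (x : O3) : ℤ := F x.a x.b x.c

/-- the product of the two other conjugates -/
def adj (x : O3) : O3 := ⟨x.a ^ 2 + 3 * x.b ^ 2 + 9 * x.c ^ 2 - 6 * x.a * x.c - 2 * x.b * x.c,
  2 * x.c ^ 2 - x.a * x.b, x.b ^ 2 + 3 * x.c ^ 2 - x.a * x.c⟩

lemma N_mul (x y : O3) : N (x * y) = N x * N y := by simp only [N, F, mul_a, mul_b, mul_c]; ring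
lemma N_one : N 1 = 1 := by simp [N, F]
lemma N_neg (x : O3) : N (-x) = -N x := by simp only [N, F, neg_a, neg_b, neg_c]; ring
lemma mul_adj (x : O3) : x * adj x = (N x : O3) := by
  rw [intCast_eq]; ext <;> simp [N, F, adj] <;> ring

lemma N_eq_zero : ∀ (n : ℕ) (x : O3), x.a.natAbs + x.b.natAbs + x.c.natAbs ≤ n → N x = 0 →
    x = 0 := by
  intro n
  induction n with
  | zero => intro x h _; ext <;> simp <;> omega
  | succ n ih =>
    rintro ⟨a, b, c⟩ h h0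
    simp only [N] at h h0
    have h1 := congrArg (Int.cast : ℤ → ZMod 7) h0
    simp only [F] at h1 h0
    push_cast at h1
    have : ∀ a b c : ZMod 7, a ^ 3 - 6 * a ^ 2 * c + 3 * a * b ^ 2 - 6 * a * b * c +
      9 * a * c ^ 2 + 2 * b ^ 3 + 6 * b * c ^ 2 + 4 * c ^ 3 = 0 → a = 0 ∧ b = 0 ∧ c = 0 := by
      decide +kernel
    obtain ⟨h2, h3, h4⟩ := this _ _ _ h1
    obtain ⟨a, rfl⟩ := (ZMod.intCast_zmod_eq_zero_iff_dvd a 7).1 h2
    obtain ⟨b, rfl⟩ := (ZMod.intCast_zmod_eq_zero_iff_dvd b 7).1 h3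
    obtain ⟨c, rfl⟩ := (ZMod.intCast_zmod_eq_zero_iff_dvd c 7).1 h4
    push_cast at h h0
    by_cases hz : a = 0 ∧ b = 0 ∧ c = 0
    · obtain ⟨rfl, rfl, rfl⟩ := hz; ext <;> simp
    · have := ih ⟨a, b, c⟩ (by simp only; omega) (by simp only [N, F]; linarith)
      exact absurd ⟨congrArg O3.a this, congrArg O3.b this, congrArg O3.c this⟩ hz

lemma N_ne_zero {x : O3} (h : x ≠ 0) : N x ≠ 0 := fun h0 => h (N_eq_zero _ x le_rfl h0)

instance : Nontrivial O3 := ⟨⟨0, 1, by decide⟩⟩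

instance : NoZeroDivisors O3 := ⟨fun {x y} h => by
  by_contra hc
  push Not at hc
  have := mul_ne_zero (N_ne_zero hc.1) (N_ne_zero hc.2)
  rw [← N_mul, h] at this
  exact this (by simp [N, F])⟩

instance : IsDomain O3 := NoZeroDivisors.to_isDomain _

/-- a bound for the norm form on a cube of radius one -/
def bnd (a b c : ℤ) : ℤ := |F a b c| + |3 * a ^ 2 - 12 * a * c + 3 * b ^ 2 - 6 * b * c + 9 * c ^ 2|
  + |6 * a * b - 6 * a * c + 6 * b ^ 2 + 6 * c ^ 2|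
  + |-6 * a ^ 2 - 6 * a * b + 18 * a * c + 12 * b * c + 12 * c ^ 2|
  + |3 * a - 6 * c| + |3 * a + 6 * b| + |9 * a + 6 * b + 12 * c| + |6 * b - 6 * c|
  + |-12 * a - 6 * b + 18 * c| + |-6 * a + 12 * c| + 37

lemma abs_F_le (a b c : ℤ) (x y z : ℚ) (hx : |x| ≤ 1) (hy : |y| ≤ 1) (hz : |z| ≤ 1) :
    |F (a + x) (b + y) (c + z)| ≤ (bnd a b c : ℚ) := by
  have m2 : ∀ u v : ℚ, |u| ≤ 1 → |v| ≤ 1 → |u * v| ≤ 1 := fun u v h1 h2 => by
    rw [abs_mul]; exact mul_le_one₀ h1 (abs_nonneg _) h2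
  have m : ∀ k u : ℚ, |u| ≤ 1 → -|k| ≤ k * u ∧ k * u ≤ |k| := fun k u h => abs_le.1 (by
    rw [abs_mul]; exact mul_le_of_le_one_right (abs_nonneg _) h)
  have xx := m2 x x hx hx; have yy := m2 y y hy hy; have zz := m2 z z hz hz
  have xy := m2 x y hx hy; have xz := m2 x z hx hz; have yz := m2 y z hy hz
  have e0 := m (F (a : ℚ) b c) 1 (by simp)
  have e1 := m (3 * a ^ 2 - 12 * a * c + 3 * b ^ 2 - 6 * b * c + 9 * c ^ 2) x hx
  have e2 := m (6 * a * b - 6 * a * c + 6 * b ^ 2 + 6 * c ^ 2) y hy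
  have e3 := m (-6 * a ^ 2 - 6 * a * b + 18 * a * c + 12 * b * c + 12 * c ^ 2) z hz
  have e4 := m (3 * a - 6 * c) _ xx
  have e5 := m (3 * a + 6 * b) _ yy
  have e6 := m (9 * a + 6 * b + 12 * c) _ zz
  have e7 := m (6 * b - 6 * c) _ xy
  have e8 := m (-12 * a - 6 * b + 18 * c) _ xz
  have e9 := m (-6 * a + 12 * c) _ yz
  have c1 := abs_le.1 (m2 _ x xx hx); have c2 := abs_le.1 (m2 _ z xx hz)
  have c3 := abs_le.1 (m2 _ x yy hx); have c4 := abs_le.1 (m2 _ z xy hz)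
  have c5 := abs_le.1 (m2 _ x zz hx); have c6 := abs_le.1 (m2 _ y yy hy)
  have c7 := abs_le.1 (m2 _ y zz hy); have c8 := abs_le.1 (m2 _ z zz hz)
  simp only [bnd, F] at e0 ⊢
  push_cast
  rw [abs_le]
  constructor <;> linarith [e0.1, e0.2, e1.1, e1.2, e2.1, e2.2, e3.1, e3.2, e4.1, e4.2, e5.1, e5.2,
    e6.1, e6.2, e7.1, e7.2, e8.1, e8.2, e9.1, e9.2, c1.1, c1.2, c2.1, c2.2, c3.1, c3.2, c4.1, c4.2,
    c5.1, c5.2, c6.1, c6.2, c7.1, c7.2, c8.1, c8.2]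

/-- the translations used in the covering -/
def shifts : List (ℤ × ℤ × ℤ) := [(0, 1, 0), (1, 0, 1), (0, 1, 1), (0, 0, 0), (0, 0, 1), (1, 0, 0),
  (-1, 0, 0), (1, 1, 0), (2, 1, 1), (1, 1, 1), (-1, 1, 0), (0, 2, 0), (-2, 0, 0), (1, -1, 1),
  (3, 1, 1), (2, 0, 1)]

/-- one translation works on the whole cube -/
def ok (S a b c : ℤ) : Bool :=
  shifts.any fun q => decide (bnd (a - S * q.1) (b - S * q.2.1) (c - S * q.2.2) < S ^ 3)

/-- recursive subdivision -/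
def chk : ℕ → ℤ → ℤ → ℤ → ℤ → Bool
  | 0, S, a, b, c => ok S a b c
  | n + 1, S, a, b, c => ok S a b c || [-1, 1].all fun i => [-1, 1].all fun j => [-1, 1].all fun k =>
      chk n (2 * S) (2 * a + i) (2 * b + j) (2 * c + k)

lemma ok_sound {S a b c : ℤ} (hS : 0 < S) (h : ok S a b c = true) (x y z : ℚ)
    (hx : |S * x - a| ≤ 1) (hy : |S * y - b| ≤ 1) (hz : |S * z - c| ≤ 1) :
    ∃ p q r : ℤ, |F (x - p) (y - q) (z - r)| < 1 := by
  obtain ⟨⟨p, q, r⟩, -, h⟩ := List.any_eq_true.1 h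
  have h1 : (bnd (a - S * p) (b - S * q) (c - S * r) : ℚ) < (S : ℚ) ^ 3 := by
    exact_mod_cast of_decide_eq_true h
  have h2 := (abs_F_le _ _ _ _ _ _ hx hy hz).trans_lt h1
  have hS' : (0 : ℚ) < (S : ℚ) ^ 3 := by positivity
  refine ⟨p, q, r, ?_⟩
  rw [show F (((a - S * p : ℤ) : ℚ) + (S * x - a)) (((b - S * q : ℤ) : ℚ) + (S * y - b))
    (((c - S * r : ℤ) : ℚ) + (S * z - c)) = (S : ℚ) ^ 3 * F (x - p) (y - q) (z - r) by
      simp only [F]; push_cast; ring, abs_mul, abs_of_pos hS'] at h2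
  exact (mul_lt_iff_lt_one_right hS').1 h2

lemma chk_sound : ∀ (n : ℕ) (S a b c : ℤ), 0 < S → chk n S a b c = true → ∀ x y z : ℚ,
    |S * x - a| ≤ 1 → |S * y - b| ≤ 1 → |S * z - c| ≤ 1 →
    ∃ p q r : ℤ, |F (x - p) (y - q) (z - r)| < 1 := by
  intro n
  induction n with
  | zero => intro S a b c hS h; exact ok_sound hS h
  | succ n ih =>
    intro S a b c hS h x y z hx hy hz
    rcases Bool.or_eq_true_iff.1 h with h | h
    · exact ok_sound hS h x y z hx hy hz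
    have sp : ∀ (a : ℤ) (x : ℚ), |S * x - a| ≤ 1 → ∃ i ∈ [(-1 : ℤ), 1],
        |((2 * S : ℤ) : ℚ) * x - ((2 * a + i : ℤ) : ℚ)| ≤ 1 := by
      intro a x hx
      obtain ⟨h1, h2⟩ := abs_le.1 hx
      rcases le_total (S * x - a) 0 with h3 | h3
      · exact ⟨-1, by simp, by push_cast; rw [abs_le]; constructor <;> linarith⟩
      · exact ⟨1, by simp, by push_cast; rw [abs_le]; constructor <;> linarith⟩
    obtain ⟨i, hi, hx⟩ := sp a x hx
    obtain ⟨j, hj, hy⟩ := sp b y hy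
    obtain ⟨k, hk, hz⟩ := sp c z hz
    exact ih _ _ _ _ (by omega) (List.all_eq_true.1 (List.all_eq_true.1
      (List.all_eq_true.1 h i hi) j hj) k hk) x y z hx hy hz

lemma exists_small (a b c : ℚ) : ∃ p q r : ℤ, |F (a - p) (b - q) (c - r)| < 1 := by
  have f : ∀ a : ℚ, |((2 : ℤ) : ℚ) * (a - ⌊a⌋) - ((1 : ℤ) : ℚ)| ≤ 1 := fun a => by
    have := Int.floor_le a; have := Int.lt_floor_add_one a
    push_cast; rw [abs_le]; constructor <;> linarith
  obtain ⟨p, q, r, h⟩ := chk_sound 5 2 1 1 1 (by norm_num) (by decide +kernel) _ _ _ (f a) (f b) (f c)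
  exact ⟨⌊a⌋ + p, ⌊b⌋ + q, ⌊c⌋ + r, by convert h using 3 <;> push_cast <;> ring⟩

lemma exists_quot (x y : O3) (hy : y ≠ 0) : ∃ q : O3, (N (x - y * q)).natAbs < (N y).natAbs := by
  have hn : (N y : ℚ) ≠ 0 := by exact_mod_cast N_ne_zero hy
  obtain ⟨p, q, r, h⟩ := exists_small ((x * adj y).a / N y) ((x * adj y).b / N y)
    ((x * adj y).c / N y)
  refine ⟨⟨p, q, r⟩, ?_⟩
  have e : (N (x - y * ⟨p, q, r⟩) : ℚ) = N y * F (((x * adj y).a : ℚ) / N y - p)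
      ((x * adj y).b / N y - q) ((x * adj y).c / N y - r) := by
    have h1 : (x - y * ⟨p, q, r⟩) * adj y = x * adj y - ⟨N y, 0, 0⟩ * ⟨p, q, r⟩ := by
      rw [← intCast_eq, ← mul_adj]; ring
    have h2 : N (adj y) = N y ^ 2 := mul_left_cancel₀ (N_ne_zero hy) (by
      rw [← N_mul, mul_adj, intCast_eq]; generalize N y = n; simp only [N, F]; ring)
    have h3 := congrArg N h1
    rw [N_mul, h2] at h3
    have h4 := congrArg (Int.cast : ℤ → ℚ) h3
    generalize x * adj y = z at h4 ⊢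
    generalize N (x - y * ⟨p, q, r⟩) = m at h4 ⊢
    generalize N y = n at h4 hn ⊢
    simp only [N, F, mul_a, mul_b, mul_c, sub_a, sub_b, sub_c] at h4 ⊢
    push_cast at h4
    field_simp
    linear_combination h4
  have : |(N (x - y * ⟨p, q, r⟩) : ℚ)| < |(N y : ℚ)| := by
    rw [e, abs_mul]
    exact mul_lt_of_lt_one_right (abs_pos.2 hn) h
  have h2 : |N (x - y * ⟨p, q, r⟩)| < |N y| := by exact_mod_cast this
  rw [Int.abs_eq_natAbs, Int.abs_eq_natAbs] at h2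
  exact_mod_cast h2

instance : IsPrincipalIdealRing O3 := ⟨fun I => by
  classical
  by_cases hI : I = ⊥
  · exact ⟨0, by simp [hI]⟩
  have hex : ∃ n : ℕ, ∃ y ∈ I, y ≠ 0 ∧ (N y).natAbs = n := by
    obtain ⟨y, hy, h0⟩ := Submodule.exists_mem_ne_zero_of_ne_bot hI
    exact ⟨_, y, hy, h0, rfl⟩
  obtain ⟨y, hy, h0, hn⟩ := Nat.find_spec hex
  refine ⟨y, le_antisymm (fun x hx => ?_) ((Ideal.span_singleton_le_iff_mem I).2 hy)⟩
  obtain ⟨q, hq⟩ := exists_quot x y h0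
  have : x - y * q = 0 := by
    by_contra hne
    have := Nat.find_min' hex ⟨x - y * q, I.sub_mem hx (I.mul_mem_right q hy), hne, rfl⟩
    omega
  exact Ideal.mem_span_singleton.2 ⟨q, by linear_combination this⟩⟩

/-- the fundamental unit -/
def eta : O3 := ⟨1, -1, -1⟩

/-- a ring homomorphism given by a root of the cubic -/
def ev {R : Type*} [CommRing R] (t : R) (ht : t ^ 3 + 3 * t - 2 = 0) : O3 →+* R where
  toFun x := x.a + x.b * t + x.c * t ^ 2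
  map_one' := by simp
  map_zero' := by simp
  map_add' x y := by simp only [add_a, add_b, add_c]; push_cast; ring
  map_mul' x y := by
    simp only [mul_a, mul_b, mul_c]; push_cast
    linear_combination (-(x.b * y.c + x.c * y.b : R) - x.c * y.c * t) * ht

lemma ev_mk {R : Type*} [CommRing R] (t : R) (ht : t ^ 3 + 3 * t - 2 = 0) (a b c : ℤ) :
    ev t ht ⟨a, b, c⟩ = a + b * t + c * t ^ 2 := rfl

lemma exists_root : ∃ t : ℝ, t ^ 3 + 3 * t - 2 = 0 ∧ 0.596 < t ∧ t < 0.5961 := by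
  have hc : ContinuousOn (fun t : ℝ => t ^ 3 + 3 * t - 2) (Set.Icc 0.596 0.5961) := by fun_prop
  obtain ⟨t, ⟨h1, h2⟩, h3⟩ := intermediate_value_Ioo (by norm_num) hc
    (show (0 : ℝ) ∈ Set.Ioo _ _ by constructor <;> norm_num)
  exact ⟨t, h3, h1, h2⟩

lemma ev_adj (t : ℝ) (ht : t ^ 3 + 3 * t - 2 = 0) (x : O3) :
    ev t ht x * ev t ht (adj x) = N x ∧ ev t ht (adj x) =
      (x.a - x.b * t / 2 - x.c * (t ^ 2 / 2 + 3)) ^ 2 + (3 + 3 * t ^ 2 / 4) * (x.b - x.c * t) ^ 2 := by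
  refine ⟨by rw [← map_mul, mul_adj, map_intCast], ?_⟩
  simp only [adj, ev_mk]; push_cast
  linear_combination (x.b * x.c - x.c ^ 2 * t : ℝ) * ht

lemma small_unit (t : ℝ) (ht : t ^ 3 + 3 * t - 2 = 0) (t1 : 0.596 < t) (t2 : t < 0.5961) (w : O3)
    (hN : N w = 1) (h0 : 0 < ev t ht w) (h1 : ev t ht w < 4.6) (h2 : ev t ht (adj w) < 4.6) :
    w = 1 := by
  rw [(ev_adj t ht w).2] at h2
  obtain ⟨a, b, c⟩ := w
  simp only [ev_mk, N] at h0 h1 h2 hN
  have t3 : 0.355 < t ^ 2 := by nlinarith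
  have t4 : t ^ 2 < 0.356 := by nlinarith
  obtain ⟨u, hu⟩ : ∃ u : ℝ, u = a - b * t / 2 - c * (t ^ 2 / 2 + 3) := ⟨_, rfl⟩
  obtain ⟨v, hv⟩ : ∃ v : ℝ, v = b - c * t := ⟨_, rfl⟩
  rw [← hu, ← hv] at h2
  have u1 : |u| < 2.15 := abs_lt_of_sq_lt_sq (by nlinarith [sq_nonneg v]) (by norm_num)
  have v1 : |v| < 1.2 := abs_lt_of_sq_lt_sq (by nlinarith [sq_nonneg u, sq_nonneg v]) (by norm_num)
  obtain ⟨u1, u2⟩ := abs_lt.1 u1
  obtain ⟨v1, v2⟩ := abs_lt.1 v1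
  have e : (a : ℝ) + b * t + c * t ^ 2 - u = 3 / 2 * (t * v) + c * (3 * t ^ 2 + 3) := by
    rw [hu, hv]; ring
  have tv1 : -0.72 < t * v := by nlinarith
  have tv2 : t * v < 0.72 := by nlinarith
  have c1 : -1 < c := by
    have : (-1 : ℝ) < c := by nlinarith
    exact_mod_cast this
  have c2 : c < 2 := by
    have : (c : ℝ) < 2 := by nlinarith
    exact_mod_cast this
  have b1 : -2 < b ∧ b < 2 := by
    have : (-2 : ℝ) < b ∧ (b : ℝ) < 2 := by
      interval_cases c <;> push_cast at hv <;> constructor <;> linarith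
    exact_mod_cast this
  obtain ⟨b1, b2⟩ := b1
  have a1 : -3 < a ∧ a < 6 := by
    have : (-3 : ℝ) < a ∧ (a : ℝ) < 6 := by
      interval_cases c <;> interval_cases b <;> push_cast at h0 h1 <;> constructor <;> linarith
    exact_mod_cast this
  obtain ⟨a1, a2⟩ := a1
  clear hu hv e h0 h1
  interval_cases a <;> interval_cases b <;> interval_cases c <;> first | rfl | (revert hN; decide)

lemma unit_cases (u : O3) (hu : N u = 1) : ∃ v : O3, u = v ^ 2 ∨ u = eta * v ^ 2 := by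
  obtain ⟨t, ht, t1, t2⟩ := exists_root
  let e : O3ˣ := ⟨eta, ⟨17, 3, 5⟩, by decide, by decide⟩
  set σ := ev t ht with hσ
  set H : ℝ := σ ⟨17, 3, 5⟩ with hH
  have hH' : H = 17 + 3 * t + 5 * t ^ 2 := by rw [hH, hσ, ev_mk]; simp
  have H1 : 1 < H := by rw [hH']; nlinarith
  have H2 : H < 21 := by rw [hH']; nlinarith
  have pos : ∀ w : O3, N w = 1 → 0 < σ w ∧ σ w * σ (adj w) = 1 := fun w hw => by
    obtain ⟨h1, h2⟩ := ev_adj t ht w
    rw [hw, Int.cast_one] at h1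
    refine ⟨?_, h1⟩
    by_contra hc
    have := mul_nonpos_of_nonpos_of_nonneg (not_lt.1 hc)
      (show 0 ≤ ev t ht (adj w) by rw [h2]; positivity)
    rw [hσ, h1] at this; norm_num at this
  have hz : ∀ n : ℤ, σ ((e⁻¹ ^ n : O3ˣ) : O3) = H ^ n := fun n => by
    have := congrArg Units.val (map_zpow (Units.map σ.toMonoidHom) e⁻¹ n)
    rw [Units.val_zpow_eq_zpow_val] at this
    exact this
  obtain ⟨n, h1, h2⟩ := exists_mem_Ico_zpow (x := σ u ^ 2 * H) (y := H ^ 2)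
    (mul_pos (pow_pos (pos u hu).1 2) (by linarith)) (by nlinarith)
  set g : O3ˣ := e⁻¹ ^ n with hg
  have hp : 0 < H ^ n := zpow_pos (by linarith) n
  set w : O3 := u * ((g⁻¹ : O3ˣ) : O3) with hw
  have huw : u = w * (g : O3) := by rw [hw, mul_assoc, Units.inv_mul, mul_one]
  have hs : σ u = σ w * H ^ n := by rw [huw, map_mul, hz n]
  have w0 : 0 < σ w := by
    have := (pos u hu).1
    rw [hs] at this
    exact (mul_pos_iff_of_pos_right hp).1 this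
  have hNw : N w = 1 := by
    have h3 : N w * N (g : O3) = 1 := by rw [← N_mul, ← huw, hu]
    refine (Int.eq_one_or_neg_one_of_mul_eq_one h3).resolve_right fun h4 => ?_
    have := (pos (-w) (by rw [N_neg, h4]; rfl)).1
    rw [map_neg] at this; linarith
  have e2 : (H ^ 2) ^ n = (H ^ n) ^ 2 := by
    rw [← zpow_natCast, ← zpow_natCast, ← zpow_mul, ← zpow_mul, mul_comm]
  rw [hs] at h1 h2
  rw [zpow_add_one₀ (by positivity)] at h2
  rw [e2] at h1 h2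
  have hp2 : 0 < (H ^ n) ^ 2 := by positivity
  have r1 : 1 ≤ σ w ^ 2 * H := by
    by_contra hc
    nlinarith [mul_pos hp2 (sub_pos.2 (not_le.1 hc))]
  have r2 : σ w ^ 2 < H := by
    by_contra hc
    nlinarith [mul_nonneg (mul_pos hp2 (by linarith : 0 < H)).le (sub_nonneg.2 (not_lt.1 hc))]
  have q1 := (pos w hNw).2
  have hw1 : w = 1 := small_unit t ht t1 t2 w hNw w0 (by nlinarith) (by
    by_contra hc
    have h5 : 4.6 * σ w ≤ 1 := by nlinarith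
    nlinarith)
  rw [huw, hw1, one_mul, hg]
  obtain ⟨k, rfl | rfl⟩ := Int.even_or_odd' n
  · exact ⟨((e⁻¹ ^ k : O3ˣ) : O3), Or.inl (by rw [mul_comm, zpow_mul]; norm_cast)⟩
  · refine ⟨((e⁻¹ ^ (k + 1) : O3ˣ) : O3), Or.inr ?_⟩
    have : (e⁻¹ ^ (2 * k + 1) : O3ˣ) = e * (e⁻¹ ^ (k + 1)) ^ 2 := by
      rw [← zpow_natCast, ← zpow_mul]; group
    rw [this]; rfl

end O3

end Pool.Agent.Lib.MP_ab8df0_nt
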