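import Pool.Agent.Lib.MP_ab8df0_nt.Quad

/-! Arithmetic in the ring of integers of the field generated by the square root of five. -/

namespace Pool.Agent.Lib.MP_ab8df0_nt

open QuadraticAlgebra

abbrev O := QuadraticAlgebra ℤ 1 1

lemma O_norm_zero : ∀ (n : ℕ) (z : O), z.re.natAbs + z.im.natAbs ≤ n → z.norm = 0 → z = 0 := by
  intro n
  induction n with
  | zero => intro z h _; ext <;> simp <;> omega
  | succ n ih =>
    rintro ⟨x, y⟩ h h0
    simp only [norm_def] at h h0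
    have h2 : (2 : ℤ) ∣ x ∧ (2 : ℤ) ∣ y := by
      have h1 := congrArg (Int.cast : ℤ → ZMod 2) h0
      push_cast at h1
      have : ∀ x y : ZMod 2, x * x + 1 * x * y - 1 * y * y = 0 → x = 0 ∧ y = 0 := by decide
      obtain ⟨h3, h4⟩ := this _ _ h1
      exact ⟨(ZMod.intCast_zmod_eq_zero_iff_dvd x 2).1 h3, (ZMod.intCast_zmod_eq_zero_iff_dvd y 2).1 h4⟩
    obtain ⟨⟨x, rfl⟩, ⟨y, rfl⟩⟩ := h2
    by_cases hz : x = 0 ∧ y = 0
    · obtain ⟨rfl, rfl⟩ := hz; ext <;> simp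
    · have := ih ⟨x, y⟩ (by simp only; omega) (by simp only [norm_def]; linarith)
      exact absurd ⟨congrArg re this, congrArg im this⟩ hz

instance : IsDomain O := quad_domain 1 1 fun z => O_norm_zero _ z le_rfl

instance : IsPrincipalIdealRing O := quad_pid 1 1 (fun z => O_norm_zero _ z le_rfl) (by
  intro x y hx hy
  obtain ⟨h1, h2⟩ := abs_le.1 hx
  obtain ⟨h3, h4⟩ := abs_le.1 hy
  push_cast
  rw [abs_lt]
  constructor <;> nlinarith [mul_nonneg (sub_nonneg.2 h1) (sub_nonneg.2 h2),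
    mul_nonneg (sub_nonneg.2 h3) (sub_nonneg.2 h4), mul_nonneg (sub_nonneg.2 h1) (sub_nonneg.2 h3),
    mul_nonneg (sub_nonneg.2 h1) (sub_nonneg.2 h4), mul_nonneg (sub_nonneg.2 h2) (sub_nonneg.2 h3),
    mul_nonneg (sub_nonneg.2 h2) (sub_nonneg.2 h4), sq_nonneg x, sq_nonneg y])

/-- the golden ratio -/
def phi : O := ⟨0, 1⟩
/-- the square root of five -/
def s5 : O := ⟨-1, 2⟩

lemma O_units : ∀ (n : ℕ) (z : O), z.re.natAbs + z.im.natAbs ≤ n → z.norm ^ 2 = 1 →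
    ∃ v : O, z = v ^ 2 ∨ z = -v ^ 2 ∨ z = phi * v ^ 2 ∨ z = -(phi * v ^ 2) := by
  intro n
  have hp : phi * (phi - 1) = 1 := by decide
  have up : ∀ z : O, (∃ v : O, z = v ^ 2 ∨ z = -v ^ 2 ∨ z = phi * v ^ 2 ∨ z = -(phi * v ^ 2)) →
      ∃ v : O, phi * z = v ^ 2 ∨ phi * z = -v ^ 2 ∨ phi * z = phi * v ^ 2 ∨
        phi * z = -(phi * v ^ 2) := by
    rintro z ⟨v, rfl | rfl | rfl | rfl⟩
    · exact ⟨v, by simp⟩
    · exact ⟨v, by simp⟩
    · exact ⟨phi * v, Or.inl (by ring)⟩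
    · exact ⟨phi * v, Or.inr (Or.inl (by ring))⟩
  induction n with
  | zero =>
    rintro ⟨x, y⟩ h h0
    obtain rfl : x = 0 := by simp only at h; omega
    obtain rfl : y = 0 := by simp only at h; omega
    simp [norm_def] at h0
  | succ n ih =>
    rintro ⟨x, y⟩ h h0
    simp only [norm_def] at h h0
    have h1 : x * x + x * y - y * y = 1 ∨ x * x + x * y - y * y = -1 := by
      rcases sq_eq_one_iff.1 h0 with h | h
      · left; linarith
      · right; linarith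
    rcases eq_or_ne y 0 with rfl | hy
    · have : x = 1 ∨ x = -1 := mul_self_eq_one_iff.1 (by rcases h1 with h | h <;> nlinarith [mul_self_nonneg x])
      rcases this with rfl | rfl <;> exact ⟨1, by decide⟩
    rcases eq_or_ne x 0 with rfl | hx
    · have : y = 1 ∨ y = -1 := mul_self_eq_one_iff.1 (by rcases h1 with h | h <;> nlinarith [mul_self_nonneg y])
      rcases this with rfl | rfl <;> exact ⟨1, by decide⟩
    by_cases hs : (0 < x ∧ 0 < y) ∨ (x < 0 ∧ y < 0)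
    · have h2 : x.natAbs ≤ y.natAbs := by
        by_contra hc
        rcases hs with ⟨a, b⟩ | ⟨a, b⟩
        · have : y + 1 ≤ x := by omega
          rcases h1 with h | h <;> nlinarith
        · have : x + 1 ≤ y := by omega
          rcases h1 with h | h <;> nlinarith
      have := up _ (ih ⟨y - x, x⟩ (by simp only; omega) (by simp only [norm_def]; linear_combination h0))
      rwa [show phi * (⟨y - x, x⟩ : O) = ⟨x, y⟩ by ext <;> simp [phi]] at this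
    · have h2 : y.natAbs < 2 * x.natAbs := by
        by_contra hc
        rcases lt_or_gt_of_ne hx with a | a
        · have : -2 * x ≤ y := by omega
          rcases h1 with h | h <;> nlinarith
        · have : y ≤ -2 * x := by omega
          rcases h1 with h | h <;> nlinarith
      obtain ⟨v, hv⟩ := up _ (ih ⟨y, x + y⟩ (by simp only; omega)
        (by simp only [norm_def]; linear_combination h0))
      have e : (⟨x, y⟩ : O) = phi * (⟨y, x + y⟩ : O) * (phi - 1) ^ 2 := by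
        ext <;> simp [phi, pow_two] <;> ring
      refine ⟨v * (phi - 1), ?_⟩
      rw [e]
      rcases hv with hv | hv | hv | hv <;> rw [hv]
      · left; ring
      · right; left; ring
      · right; right; left; ring
      · right; right; right; ring

lemma cop2 (x : O) (h : ¬ 2 ∣ x) : IsCoprime x 2 := by
  refine quad_coprime x 2 (Int.prime_two.coprime_iff_not_dvd.2 fun h1 => h ?_).symm
  have h2 := (ZMod.intCast_zmod_eq_zero_iff_dvd _ 2).2 h1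
  refine (qred_eq_zero 1 1 2 x).1 ?_
  rw [norm_def] at h2; push_cast at h2
  have : ∀ x y : ZMod 2, x * x + 1 * x * y - 1 * y * y = 0 → x = 0 ∧ y = 0 := by decide
  obtain ⟨h3, h4⟩ := this _ _ h2
  exact QuadraticAlgebra.ext h3 h4

lemma cop3 (x : O) (h : ¬ 3 ∣ x) : IsCoprime x 3 := by
  refine quad_coprime x 3 (Int.prime_three.coprime_iff_not_dvd.2 fun h1 => h ?_).symm
  have h2 := (ZMod.intCast_zmod_eq_zero_iff_dvd _ 3).2 h1
  refine (qred_eq_zero 1 1 3 x).1 ?_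
  rw [norm_def] at h2; push_cast at h2
  have : ∀ x y : ZMod 3, x * x + 1 * x * y - 1 * y * y = 0 → x = 0 ∧ y = 0 := by decide
  obtain ⟨h3, h4⟩ := this _ _ h2
  exact QuadraticAlgebra.ext h3 h4

lemma cop5 (x : O) (h : ¬ s5 ∣ x) : IsCoprime x s5 := by
  have h5 : Prime (5 : ℤ) := Int.prime_iff_natAbs_prime.2 (by norm_num)
  have : IsCoprime x ((5 : ℤ) : O) := by
    refine quad_coprime x 5 (h5.coprime_iff_not_dvd.2 fun h1 => h ?_).symm
    obtain ⟨x, y⟩ := x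
    obtain ⟨k, hk⟩ := h1
    simp only [norm_def] at hk
    obtain ⟨l, hl⟩ : (5 : ℤ) ∣ 2 * x + y := h5.dvd_of_dvd_pow (n := 2) ⟨4 * k + y ^ 2, by linear_combination 4 * hk⟩
    exact ⟨⟨2 * l - x, l⟩, by ext <;> simp [s5] <;> linarith⟩
  rw [show ((5 : ℤ) : O) = s5 * s5 by decide] at this
  exact this.of_mul_right_left

lemma not_unit_of_norm (x : O) (h : ¬ IsUnit x.norm) : ¬ IsUnit x :=
  fun h1 => h (isUnit_iff_norm_isUnit.1 h1)

lemma two_prime : Prime (2 : O) :=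
  ⟨by decide, not_unit_of_norm _ (by decide), fun a b h => by
    by_cases h1 : 2 ∣ a
    · exact Or.inl h1
    · exact Or.inr ((cop2 a h1).symm.dvd_of_dvd_mul_left h)⟩

lemma three_prime : Prime (3 : O) :=
  ⟨by decide, not_unit_of_norm _ (by decide), fun a b h => by
    by_cases h1 : 3 ∣ a
    · exact Or.inl h1
    · exact Or.inr ((cop3 a h1).symm.dvd_of_dvd_mul_left h)⟩

/-- representatives of the odd classes modulo squares -/
def L16 : List O := [⟨1, 0⟩, ⟨-1, 0⟩, ⟨0, 1⟩, ⟨0, -1⟩, ⟨3, 0⟩, ⟨-3, 0⟩, ⟨0, 3⟩, ⟨0, -3⟩, ⟨-1, 2⟩,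
  ⟨1, -2⟩, ⟨2, 1⟩, ⟨-2, -1⟩, ⟨-3, 6⟩, ⟨3, -6⟩, ⟨6, 3⟩, ⟨-6, -3⟩]

lemma cls16 (X Z Y W c E : O) (h2 : IsCoprime X 2) (hE : IsCoprime X E) (h : X * Z = Y ^ 2)
    (hZ : Z = X * W + c * E) (hc : c ∣ 180) : ∃ d ∈ L16, ∃ A, X = d * A ^ 2 := by
  have hX : X ≠ 0 := by
    rintro rfl
    exact two_prime.not_isUnit (isCoprime_zero_left.1 h2)
  obtain ⟨u, A, hu⟩ := cls 3 s5 three_prime.not_isUnit (not_unit_of_norm _ (by decide)) cop3 cop5
    X Z Y W (c * E) hX h hZ fun x hx h3 h5 => by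
      refine IsCoprime.mul_right (IsCoprime.of_isCoprime_of_dvd_right ?_ hc)
        (hE.of_isCoprime_of_dvd_left hx)
      rw [show (180 : O) = (2 * 3 * s5) ^ 2 by decide]
      exact (((h2.of_isCoprime_of_dvd_left hx).mul_right h3).mul_right h5).pow_right
  have hn : (u : O).norm ^ 2 = 1 := by
    rcases Int.isUnit_iff.1 (isUnit_iff_norm_isUnit.1 u.isUnit) with h | h <;> rw [h] <;> norm_num
  obtain ⟨v, hv⟩ := O_units _ u le_rfl hn
  have key : ∀ e ∈ [1, -1, phi, -phi], ∀ p ∈ [1, 3, s5, 3 * s5], e * p ∈ L16 := by decide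
  have h1 : ∃ e ∈ [1, -1, phi, -phi], (u : O) = e * v ^ 2 := by
    rcases hv with hv | hv | hv | hv
    · exact ⟨1, by simp, by rw [hv]; ring⟩
    · exact ⟨-1, by simp, by rw [hv]; ring⟩
    · exact ⟨phi, by simp, hv⟩
    · exact ⟨-phi, by simp, by rw [hv]; ring⟩
  have h3 : ∃ p ∈ [1, 3, s5, 3 * s5], X = u * p * A ^ 2 := by
    rcases hu with hu | hu | hu | hu
    · exact ⟨1, by simp, by rw [hu]; ring⟩
    · exact ⟨3, by simp, hu⟩
    · exact ⟨s5, by simp, hu⟩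
    · exact ⟨3 * s5, by simp, hu⟩
  obtain ⟨e, he, h1⟩ := h1
  obtain ⟨p, hp, h3⟩ := h3
  exact ⟨e * p, key e he p hp, v * A, by rw [h3, h1]; ring⟩

abbrev R8 := QuadraticAlgebra (ZMod 8) ((1 : ℤ) : ZMod 8) ((1 : ℤ) : ZMod 8)

lemma inv8 (D : O) (hD : IsCoprime D 2) : ∃ e : R8, e * qred 1 1 8 D = 1 := by
  obtain ⟨e, f, h⟩ := hD.pow_right (n := 3)
  refine ⟨qred 1 1 8 e, ?_⟩
  have h1 := congrArg (qred 1 1 8) h
  have h2 : qred 1 1 8 (f * 2 ^ 3) = 0 := (qred_eq_zero 1 1 8 _).2 ⟨f, by push_cast; ring⟩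
  rwa [map_add, h2, add_zero, map_mul, map_one] at h1

lemma loc (c d A D : O) (hD : IsCoprime D 2) (h : 8 ∣ d * A ^ 2 - c * D ^ 2) :
    ∃ x y : ZMod 8, qred 1 1 8 d * (⟨x, y⟩ * ⟨x, y⟩) = qred 1 1 8 c := by
  obtain ⟨e, he⟩ := inv8 D hD
  have h1 := (qred_eq_zero 1 1 8 _).2 (by exact_mod_cast h)
  simp only [map_sub, map_mul, map_pow] at h1
  refine ⟨(qred 1 1 8 A * e).re, (qred 1 1 8 A * e).im, ?_⟩
  rw [mk_eta]
  linear_combination e ^ 2 * h1 + qred 1 1 8 c * (e * qred 1 1 8 D + 1) * he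

lemma loc1 (d A D : O) (hd : d ∈ L16) (hD : IsCoprime D 2) (h : 8 ∣ d * A ^ 2 - D ^ 2) :
    d = 1 ∨ d = -3 := by
  obtain ⟨x, y, h1⟩ := loc 1 d A D hD (by rwa [one_mul])
  have : ∀ d ∈ L16, ∀ x y : ZMod 8, qred 1 1 8 d * (⟨x, y⟩ * ⟨x, y⟩) = qred 1 1 8 1 →
      d = 1 ∨ d = -3 := by decide +kernel
  exact this d hd x y h1

lemma loc2 (d A D : O) (hd : d ∈ L16) (hD : IsCoprime D 2)
    (h : 8 ∣ d * A ^ 2 - ⟨2, 5⟩ * D ^ 2) : d = ⟨2, 1⟩ ∨ d = ⟨-6, -3⟩ := by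
  obtain ⟨x, y, h1⟩ := loc _ d A D hD h
  have : ∀ d ∈ L16, ∀ x y : ZMod 8, qred 1 1 8 d * (⟨x, y⟩ * ⟨x, y⟩) = qred 1 1 8 ⟨2, 5⟩ →
      d = ⟨2, 1⟩ ∨ d = ⟨-6, -3⟩ := by decide +kernel
  exact this d hd x y h1

lemma exists_embs : ∃ σ τ : O →+* ℝ, (∀ x, x ≠ 0 → 0 < σ x ^ 2 ∧ 0 < τ x ^ 2) ∧
    ∃ s t : ℝ, 1.6 < s ∧ s < 1.7 ∧ -0.7 < t ∧ t < -0.6 ∧ (∀ x y : ℤ, σ ⟨x, y⟩ = x + y * s) ∧
      ∀ x y : ℤ, τ ⟨x, y⟩ = x + y * t := by
  have h5 : √5 * √5 = 5 := Real.mul_self_sqrt (by norm_num)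
  have h1 : 2.2 < √5 := Real.lt_sqrt_of_sq_lt (by norm_num)
  have h2 : √5 < 2.4 := by nlinarith
  have ne : ∀ (t : ℝ) (ht : t * t = (1 : ℤ) + (1 : ℤ) * t) (x : O), x ≠ 0 →
      0 < qemb 1 1 t ht x ^ 2 := by
    intro t ht x hx
    refine sq_pos_of_ne_zero fun h0 => hx (O_norm_zero _ x le_rfl ?_)
    have := congrArg (qemb 1 1 t ht) (algebraMap_norm_eq_mul_star x)
    rw [map_mul, h0, zero_mul, algebraMap_eq, qemb_mk] at this
    exact_mod_cast (by simpa using this : ((x.norm : ℤ) : ℝ) = 0)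
  refine ⟨qemb 1 1 ((1 + √5) / 2) (by push_cast; linarith),
    qemb 1 1 ((1 - √5) / 2) (by push_cast; linarith), fun x hx => ⟨ne _ _ x hx, ne _ _ x hx⟩,
    (1 + √5) / 2, (1 - √5) / 2, by linarith, by linarith, by linarith, by linarith,
    fun _ _ => rfl, fun _ _ => rfl⟩

end Pool.Agent.Lib.MP_ab8df0_nt
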