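import Mathlib

/-! Norm-Euclidean quadratic rings, and two general lemmas on principal ideal domains. -/

namespace Pool.Agent.Lib.MP_ab8df0_nt

open QuadraticAlgebra

lemma quad_domain (a b : ℤ) (h0 : ∀ z : QuadraticAlgebra ℤ a b, z.norm = 0 → z = 0) :
    IsDomain (QuadraticAlgebra ℤ a b) := by
  have : NoZeroDivisors (QuadraticAlgebra ℤ a b) := ⟨fun {x y} h => by
    have : x.norm * y.norm = 0 := by rw [← map_mul, h, QuadraticAlgebra.norm_zero]
    exact (mul_eq_zero.1 this).imp (h0 x) (h0 y)⟩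
  exact NoZeroDivisors.to_isDomain _

lemma quad_pid (a b : ℤ) (h0 : ∀ z : QuadraticAlgebra ℤ a b, z.norm = 0 → z = 0)
    (hE : ∀ x y : ℚ, |x| ≤ 1 / 2 → |y| ≤ 1 / 2 → |x * x + b * x * y - a * y * y| < 1) :
    IsPrincipalIdealRing (QuadraticAlgebra ℤ a b) := ⟨fun I => by
  classical
  have quot : ∀ x y : QuadraticAlgebra ℤ a b, y ≠ 0 →
      ∃ q, (x - y * q).norm.natAbs < y.norm.natAbs := by
    intro x y hy
    have hn : ((y.norm : ℤ) : ℚ) ≠ 0 := by exact_mod_cast fun h => hy (h0 y h)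
    set s : ℚ := ((x * star y).re : ℤ) / (y.norm : ℤ) with hs
    set t : ℚ := ((x * star y).im : ℤ) / (y.norm : ℤ) with ht
    refine ⟨⟨round s, round t⟩, ?_⟩
    have h := hE _ _ (abs_sub_round s) (abs_sub_round t)
    generalize round s = p at h ⊢
    generalize round t = q at h ⊢
    have e : (((x - y * ⟨p, q⟩).norm : ℤ) : ℚ) = (y.norm : ℤ) *
        ((s - p) * (s - p) + b * (s - p) * (t - q) - a * (t - q) * (t - q)) := by
      rw [hs, ht]
      field_simp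
      simp only [norm_def, re_mul, im_mul, re_sub, im_sub, re_star, im_star]
      push_cast
      ring
    have : |(((x - y * ⟨p, q⟩).norm : ℤ) : ℚ)| < |((y.norm : ℤ) : ℚ)| := by
      rw [e, abs_mul]
      exact mul_lt_of_lt_one_right (abs_pos.2 hn) h
    have h2 : |(x - y * ⟨p, q⟩).norm| < |y.norm| := by exact_mod_cast this
    rw [Int.abs_eq_natAbs, Int.abs_eq_natAbs] at h2
    exact_mod_cast h2
  by_cases hI : I = ⊥
  · exact ⟨0, by simp [hI]⟩
  have hex : ∃ n : ℕ, ∃ y ∈ I, y ≠ 0 ∧ y.norm.natAbs = n := by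
    obtain ⟨y, hy, h0⟩ := Submodule.exists_mem_ne_zero_of_ne_bot hI
    exact ⟨_, y, hy, h0, rfl⟩
  obtain ⟨y, hy, h0, hn⟩ := Nat.find_spec hex
  refine ⟨y, le_antisymm (fun x hx => ?_) ((Ideal.span_singleton_le_iff_mem I).2 hy)⟩
  obtain ⟨q, hq⟩ := quot x y h0
  have : x - y * q = 0 := by
    by_contra hne
    have := Nat.find_min' hex ⟨x - y * q, I.sub_mem hx (I.mul_mem_right q hy), hne, rfl⟩
    omega
  exact Ideal.mem_span_singleton.2 ⟨q, by linear_combination this⟩⟩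

lemma quad_coprime {a b : ℤ} (x : QuadraticAlgebra ℤ a b) (n : ℤ) (h : IsCoprime x.norm n) :
    IsCoprime x (n : QuadraticAlgebra ℤ a b) := by
  obtain ⟨u, v, huv⟩ := h
  refine ⟨u * star x, v, ?_⟩
  have h1 : x * star x = ((x.norm : ℤ) : QuadraticAlgebra ℤ a b) := by
    rw [← algebraMap_norm_eq_mul_star]; rfl
  have h2 := congrArg (Int.cast : ℤ → QuadraticAlgebra ℤ a b) huv
  push_cast at h2
  linear_combination h2 + u * h1

/-- reduction modulo `n` -/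
def qred (a b : ℤ) (n : ℕ) : QuadraticAlgebra ℤ a b →+* QuadraticAlgebra (ZMod n) a b where
  toFun z := ⟨z.re, z.im⟩
  map_one' := by ext <;> simp
  map_zero' := by ext <;> simp
  map_add' x y := by ext <;> simp
  map_mul' x y := by ext <;> simp

lemma qred_eq_zero (a b : ℤ) (n : ℕ) (z : QuadraticAlgebra ℤ a b) :
    qred a b n z = 0 ↔ (n : QuadraticAlgebra ℤ a b) ∣ z := by
  constructor
  · intro h
    obtain ⟨p, hp⟩ := (ZMod.intCast_zmod_eq_zero_iff_dvd z.re n).1 (congrArg re h)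
    obtain ⟨q, hq⟩ := (ZMod.intCast_zmod_eq_zero_iff_dvd z.im n).1 (congrArg im h)
    exact ⟨⟨p, q⟩, by ext <;> simp [hp, hq]⟩
  · rintro ⟨w, rfl⟩
    rw [map_mul, map_natCast]
    have : ((n : ℕ) : QuadraticAlgebra (ZMod n) a b) = 0 := by ext <;> simp
    rw [this, zero_mul]

/-- a real embedding -/
def qemb (a b : ℤ) (t : ℝ) (ht : t * t = a + b * t) : QuadraticAlgebra ℤ a b →+* ℝ where
  toFun z := z.re + z.im * t
  map_one' := by simp
  map_zero' := by simp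
  map_add' x y := by simp only [re_add, im_add]; push_cast; ring
  map_mul' x y := by
    simp only [re_mul, im_mul]; push_cast
    linear_combination (-(x.im * y.im : ℝ)) * ht

lemma qemb_mk (a b : ℤ) (t : ℝ) (ht : t * t = a + b * t) (x y : ℤ) :
    qemb a b t ht ⟨x, y⟩ = x + y * t := rfl

section PID

variable {R : Type*} [CommRing R] [IsDomain R] [IsPrincipalIdealRing R]

lemma cls (p q : R) (hp : ¬ IsUnit p) (hq : ¬ IsUnit q) (cp : ∀ x, ¬ p ∣ x → IsCoprime x p)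
    (cq : ∀ x, ¬ q ∣ x → IsCoprime x q) (X Z Y W c : R) (hX : X ≠ 0) (h : X * Z = Y ^ 2)
    (hZ : Z = X * W + c) (hc : ∀ x, x ∣ X → IsCoprime x p → IsCoprime x q → IsCoprime x c) :
    ∃ (u : Rˣ) (A : R), X = u * A ^ 2 ∨ X = u * p * A ^ 2 ∨ X = u * q * A ^ 2 ∨
      X = u * (p * q) * A ^ 2 := by
  obtain ⟨i, X1, h1, rfl⟩ := WfDvdMonoid.max_power_factor' hX hp
  obtain ⟨j, X0, h2, rfl⟩ := WfDvdMonoid.max_power_factor' (right_ne_zero_of_mul hX) hq
  have c1 := cp X0 fun h => h1 (h.mul_left _)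
  have c2 := cq X0 h2
  have c3 : IsCoprime X0 Z := by
    rw [hZ, show p ^ i * (q ^ j * X0) * W + c = c + X0 * (p ^ i * q ^ j * W) by ring]
    exact (hc X0 ((dvd_mul_left _ _).mul_left _) c1 c2).add_mul_left_right _
  obtain ⟨A, u, hu⟩ := exists_associated_pow_of_mul_eq_pow' (k := 2) (c := Y)
    (((c1.pow_right (n := i)).mul_right (c2.pow_right (n := j))).mul_right c3)
    (by linear_combination h)
  rw [← hu]
  obtain ⟨i, rfl | rfl⟩ := Nat.even_or_odd' i <;> obtain ⟨j, rfl | rfl⟩ := Nat.even_or_odd' j <;>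
    refine ⟨u, p ^ i * q ^ j * A, ?_⟩
  · left; ring
  · right; right; left; ring
  · right; left; ring
  · right; right; right; ring

lemma reduce (a b : R) (D : R) : ∀ X Y : R, D ≠ 0 →
    Y ^ 2 = X * (X - a * D ^ 2) * (X - b * D ^ 2) →
    ∃ g X' D' Y', X = g ^ 2 * X' ∧ D = g * D' ∧ IsCoprime X' D' ∧
      Y' ^ 2 = X' * (X' - a * D' ^ 2) * (X' - b * D' ^ 2) := by
  induction D using (wellFounded_dvdNotUnit (α := R)).induction with
  | _ D ih =>
  intro X Y hD h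
  by_cases hc : IsCoprime X D
  · exact ⟨1, X, D, Y, by ring, by ring, hc, h⟩
  obtain ⟨p, hp, ⟨X, rfl⟩, ⟨D, rfl⟩⟩ : ∃ p : R, Prime p ∧ p ∣ X ∧ p ∣ D := by
    by_contra hn
    exact hc (isCoprime_of_prime_dvd (fun h => hD h.2) fun p hp h1 h2 => hn ⟨p, hp, h1, h2⟩)
  have p0 := hp.ne_zero
  obtain ⟨Y, rfl⟩ : p ∣ Y := hp.dvd_of_dvd_pow (n := 2)
    ⟨p ^ 2 * (X * (X - a * p * D ^ 2) * (X - b * p * D ^ 2)), by linear_combination h⟩
  have h1 : Y ^ 2 = p * (X * (X - a * p * D ^ 2) * (X - b * p * D ^ 2)) :=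
    mul_left_cancel₀ (pow_ne_zero 2 p0) (by linear_combination h)
  obtain ⟨Y, rfl⟩ : p ∣ Y := hp.dvd_of_dvd_pow (n := 2) ⟨_, h1⟩
  have h2 : p * Y ^ 2 = X * (X - a * p * D ^ 2) * (X - b * p * D ^ 2) :=
    mul_left_cancel₀ p0 (by linear_combination h1)
  obtain ⟨X, rfl⟩ : p ∣ X := hp.dvd_of_dvd_pow (n := 3)
    ⟨Y ^ 2 + (a + b) * D ^ 2 * X ^ 2 - a * b * p * D ^ 4 * X, by linear_combination -h2⟩
  have h3 : Y ^ 2 = p ^ 2 * (X * (X - a * D ^ 2) * (X - b * D ^ 2)) :=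
    mul_left_cancel₀ p0 (by linear_combination h2)
  obtain ⟨Y, rfl⟩ : p ∣ Y := hp.dvd_of_dvd_pow (n := 2) ⟨p * _, by rw [h3, pow_two, mul_assoc]⟩
  have h4 : Y ^ 2 = X * (X - a * D ^ 2) * (X - b * D ^ 2) :=
    mul_left_cancel₀ (pow_ne_zero 2 p0) (by linear_combination h3)
  have D0 : D ≠ 0 := right_ne_zero_of_mul hD
  obtain ⟨g, X', D', Y', rfl, rfl, h5, h6⟩ := ih D ⟨D0, p, hp.not_isUnit, mul_comm _ _⟩ X Y D0 h4
  exact ⟨p * g, X', D', Y', by ring, by ring, h5, h6⟩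

end PID

end Pool.Agent.Lib.MP_ab8df0_nt
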